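import Mathlib
set_option autoImplicit false

/-!
Factorial languages over a finite alphabet, uniformly recurrent sublanguages, and the behaviour of
languages closed under a decorated Zimin rule.
-/

namespace Pool.Agent.H43R2

universe u

section lang

variable {B : Type u}

/-- closed under factors -/
def Factorial (L : Set (List B)) : Prop := ∀ w ∈ L, ∀ v, v <:+: w → v ∈ L

/-- contains words of every length -/
def Big (L : Set (List B)) : Prop := ∀ l : ℕ, ∃ w ∈ L, w.length = l

/-- uniformly recurrent -/
def UR (K : Set (List B)) : Prop := ∀ u ∈ K, ∃ l, ∀ v ∈ K, v.length = l → u <:+: v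

/-- factorial, infinite, uniformly recurrent -/
structure Good (K : Set (List B)) : Prop where
  fac : Factorial K
  big : Big K
  ur : UR K

lemma finite_len [Finite B] (L : Set (List B)) (l : ℕ) : {w ∈ L | w.length = l}.Finite :=
  (List.finite_length_eq B l).subset (fun _ h => h.2)

lemma exists_good [Finite B] (L : Set (List B)) (hF : Factorial L) (hB : Big L) :
    ∃ K ⊆ L, Good K := by
  classical
  obtain ⟨K, hK⟩ := zorn_superset {K : Set (List B) | K ⊆ L ∧ Factorial K ∧ Big K} (by
    intro c hc hchain
    rcases Set.eq_empty_or_nonempty c with rfl | hne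
    · exact ⟨L, ⟨subset_rfl, hF, hB⟩, by simp⟩
    · refine ⟨⋂₀ c, ⟨?_, ?_, ?_⟩, fun s hs => Set.sInter_subset_of_mem hs⟩
      · obtain ⟨K, hK⟩ := hne
        exact (Set.sInter_subset_of_mem hK).trans (hc hK).1
      · intro w hw v hv K hK
        exact (hc hK).2.1 w (hw K hK) v hv
      · intro l
        obtain ⟨K0, hK0, hmin⟩ : ∃ K0 ∈ c, ∀ K ∈ c,
            {w ∈ K0 | w.length = l}.ncard ≤ {w ∈ K | w.length = l}.ncard := by
          have := WellFounded.has_min (InvImage.wf (fun K : Set (List B) =>
            {w ∈ K | w.length = l}.ncard) Nat.lt_wfRel.wf) c hne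
          obtain ⟨K0, h1, h2⟩ := this
          exact ⟨K0, h1, fun K hK => not_lt.1 (h2 K hK)⟩
        obtain ⟨w, hw, hwl⟩ := (hc hK0).2.2 l
        refine ⟨w, ?_, hwl⟩
        intro K hK
        rcases hchain.total hK0 hK with h | h
        · exact h hw
        · have : {w ∈ K | w.length = l} = {w ∈ K0 | w.length = l} := by
            apply Set.eq_of_subset_of_ncard_le
            · intro x hx; exact ⟨h hx.1, hx.2⟩
            · exact hmin K hK
            · exact finite_len K0 l
          have h2 : w ∈ {w ∈ K0 | w.length = l} := ⟨hw, hwl⟩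
          rw [← this] at h2
          exact h2.1)
  obtain ⟨⟨h1, h2, h3⟩, hmin⟩ := hK
  refine ⟨K, h1, h2, h3, ?_⟩
  intro u hu
  by_contra hcon
  push Not at hcon
  have hbig : Big {v ∈ K | ¬ u <:+: v} := by
    intro l
    obtain ⟨v, hv, hl, hn⟩ := hcon l
    exact ⟨v, ⟨hv, hn⟩, hl⟩
  have hfac : Factorial {v ∈ K | ¬ u <:+: v} := by
    intro w hw v hv
    exact ⟨h2 w hw.1 v hv, fun h => hw.2 (h.trans hv)⟩
  have hsub : {v ∈ K | ¬ u <:+: v} ⊆ K := fun v hv => hv.1
  have := hmin ⟨hsub.trans h1, hfac, hbig⟩ hsub
  exact (this hu).2 (List.infix_refl u)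

lemma Good.ur' {K : Set (List B)} (hK : Good K) {u : List B} (hu : u ∈ K) :
    ∃ l, ∀ v ∈ K, l ≤ v.length → u <:+: v := by
  obtain ⟨l, hl⟩ := hK.ur u hu
  refine ⟨l, fun v hv h => ?_⟩
  have h1 : v.take l <:+: v := (List.take_prefix l v).isInfix
  exact (hl _ (hK.fac v hv _ h1) (by simp [h])).trans h1

lemma Good.double {K : Set (List B)} (hK : Good K) {u : List B} (hu : u ∈ K) :
    ∃ h, u ++ h ++ u ∈ K := by
  obtain ⟨l, hl⟩ := hK.ur' hu
  obtain ⟨w, hw, hwl⟩ := hK.big (2 * l)
  have h1 : w.take l <:+: w := (List.take_prefix l w).isInfix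
  have h2 : w.drop l <:+: w := (List.drop_suffix l w).isInfix
  obtain ⟨p1, q1, e1⟩ := hl _ (hK.fac w hw _ h1) (by simp [hwl]; omega)
  obtain ⟨p2, q2, e2⟩ := hl _ (hK.fac w hw _ h2) (by simp [hwl]; omega)
  refine ⟨q1 ++ p2, hK.fac w hw _ ⟨p1, q2, ?_⟩⟩
  rw [← List.take_append_drop l w, ← e1, ← e2]
  simp [List.append_assoc]

lemma comb_prefix {ω : List B} {c : ℕ} (hc : 1 ≤ c) (vs : List (List B))
    (hvs : ∀ x ∈ vs, ω <:+: x ∧ x.length ≤ c) (u t : List B) (h : u ++ t = vs.flatten)
    (hu : c ≤ u.length) : ω <:+: u := by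
  cases vs with
  | nil =>
    have : (u ++ t).length = 0 := by rw [h]; simp
    rw [List.length_append] at this
    omega
  | cons y ys =>
    obtain ⟨h1, h2⟩ := hvs y (by simp)
    rw [List.flatten_cons] at h
    have : y <+: u := by
      apply List.prefix_of_prefix_length_le (l₃ := u ++ t)
      · rw [h]; exact List.prefix_append _ _
      · exact List.prefix_append _ _
      · omega
    exact h1.trans this.isInfix

lemma comb {ω : List B} {c : ℕ} (hc : 1 ≤ c) (vs : List (List B)) :
    (∀ x ∈ vs, ω <:+: x ∧ x.length ≤ c) → ∀ (s u t : List B), s ++ u ++ t = vs.flatten →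
    2 * c ≤ u.length → ω <:+: u := by
  induction vs with
  | nil =>
    intro _ s u t h hu
    have : (s ++ u ++ t).length = 0 := by rw [h]; simp
    simp only [List.length_append] at this
    omega
  | cons x xs ih =>
    intro hvs s u t h hu
    obtain ⟨h1, h2⟩ := hvs x (by simp)
    rw [List.flatten_cons, List.append_assoc] at h
    rcases List.append_eq_append_iff.1 h with ⟨a, ha1, ha2⟩ | ⟨a, ha1, ha2⟩
    · -- x = s ++ a, u ++ t = a ++ flatten xs
      have hal : a.length ≤ c := by
        have := congrArg List.length ha1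
        simp only [List.length_append] at this
        omega
      rcases List.append_eq_append_iff.1 ha2 with ⟨b, hb1, hb2⟩ | ⟨b, hb1, hb2⟩
      · -- a = u ++ b
        have := congrArg List.length hb1
        simp only [List.length_append] at this
        omega
      · -- u = a ++ b, flatten xs = b ++ t
        have hbl := congrArg List.length hb1
        simp only [List.length_append] at hbl
        have := comb_prefix hc xs (fun y hy => hvs y (by simp [hy])) b t hb2.symm (by omega)
        rw [hb1]
        exact this.trans (List.suffix_append a b).isInfix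
    · -- s = x ++ a, flatten xs = a ++ (u ++ t)
      exact ih (fun y hy => hvs y (by simp [hy])) a u t (by rw [ha2, List.append_assoc]) hu

/-- The replacement lemma. -/
lemma replace [Finite B] {L K : Set (List B)} (hL : Factorial L) (hKL : K ⊆ L) (hK : Good K)
    {ζ ω : List B} (hζ : ζ ∈ K) (hω : ω ≠ []) (hr : ∀ p q, p ++ ζ ++ q ∈ L → p ++ ω ++ q ∈ L) :
    ∃ K' ⊆ L, Good K' ∧ ω ∈ K' := by
  obtain ⟨l, hl⟩ := hK.ur' hζ
  set c := l + ω.length with hc
  have hω1 : 1 ≤ ω.length := by
    rcases ω with _ | _
    · exact absurd rfl hω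
    · simp
  have hc1 : 1 ≤ c := by omega
  set L2 : Set (List B) := {v ∈ L | ∀ u, u <:+: v → 2 * c ≤ u.length → ω <:+: u} with hL2
  have hfac : Factorial L2 := by
    intro w hw v hv
    exact ⟨hL w hw.1 v hv, fun u hu hu2 => hw.2 u (hu.trans hv) hu2⟩
  have key : ∀ j : ℕ, ∀ w, w.length = l * j → w ∈ K → ∃ vs : List (List B), vs.length = j ∧
      (∀ x ∈ vs, ω <:+: x ∧ x.length ≤ c) ∧
      ∀ p q, p ++ w ++ q ∈ L → p ++ vs.flatten ++ q ∈ L := by
    intro j
    induction j with
    | zero =>
      intro w hw _
      have : w = [] := List.eq_nil_of_length_eq_zero (by simpa using hw)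
      subst this
      exact ⟨[], by simp⟩
    | succ j ih =>
      intro w hw hwK
      have h1 : w.take l ∈ K := hK.fac w hwK _ (List.take_prefix l w).isInfix
      have h2 : w.drop l ∈ K := hK.fac w hwK _ (List.drop_suffix l w).isInfix
      have hwl : l ≤ w.length := by rw [hw, Nat.mul_succ]; omega
      obtain ⟨p1, q1, e1⟩ := hl _ h1 (by simp [hwl])
      obtain ⟨vs, g1, g2, g3⟩ := ih (w.drop l) (by rw [List.length_drop, hw, Nat.mul_succ]; omega) h2
      refine ⟨(p1 ++ ω ++ q1) :: vs, by simp [g1], ?_, ?_⟩
      · intro x hx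
        rcases List.mem_cons.1 hx with rfl | hx
        · refine ⟨⟨p1, q1, rfl⟩, ?_⟩
          have := congrArg List.length e1
          simp only [List.length_append, List.length_take] at this ⊢
          omega
        · exact g2 x hx
      · intro p q hpq
        rw [List.flatten_cons]
        have h3 : p ++ (p1 ++ ζ ++ q1) ++ w.drop l ++ q ∈ L := by
          rw [e1]
          have : p ++ w.take l ++ w.drop l ++ q = p ++ w ++ q := by
            rw [List.append_assoc p, List.take_append_drop]
          rw [this]; exact hpq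
        have h4 : (p ++ p1) ++ ω ++ (q1 ++ w.drop l ++ q) ∈ L := by
          apply hr
          simpa [List.append_assoc] using h3
        have h5 := g3 (p ++ p1 ++ ω ++ q1) q (by simpa [List.append_assoc] using h4)
        simpa [List.append_assoc] using h5
  have hbig : Big L2 := by
    intro m
    obtain ⟨w, hw, hwl⟩ := hK.big (l * m)
    obtain ⟨vs, g1, g2, g3⟩ := key m w hwl hw
    have g4 : vs.flatten ∈ L := by simpa using g3 [] [] (by simpa using hKL hw)
    have g5 : vs.flatten ∈ L2 := by
      refine ⟨g4, ?_⟩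
      rintro u ⟨s, t, h⟩ hu
      exact comb hc1 vs g2 s u t h hu
    have g6 : m ≤ vs.flatten.length := by
      rw [List.length_flatten]
      have : ∀ vs : List (List B), (∀ x ∈ vs, ω <:+: x ∧ x.length ≤ c) →
          vs.length ≤ (vs.map List.length).sum := by
        intro vs
        induction vs with
        | nil => simp
        | cons x xs ih =>
          intro h
          have h1 := (h x (by simp)).1.length_le
          have h2 := ih (fun y hy => h y (by simp [hy]))
          simp only [List.length_cons, List.map_cons, List.sum_cons]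
          omega
      rw [← g1]; exact this vs g2
    exact ⟨vs.flatten.take m, hfac _ g5 _ (List.take_prefix _ _).isInfix, by
      rw [List.length_take]; omega⟩
  obtain ⟨K', h1, h2⟩ := exists_good L2 hfac hbig
  refine ⟨K', h1.trans (fun v hv => hv.1), h2, ?_⟩
  obtain ⟨v, hv, hvl⟩ := h2.big (2 * c)
  exact h2.fac v hv _ ((h1 hv).2 v (List.infix_refl v) (by omega))

end lang

/-! ### Decorated Zimin words -/

/-- the decorations of the Zimin word with `n + 1` letters: a full binary tree with `2 ^ n` leaves
labelled by exponents -/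
def T : ℕ → Type
  | 0 => ℕ
  | n + 1 => T n × T n

/-- all exponents equal one -/
def one : (n : ℕ) → T n
  | 0 => (1 : ℕ)
  | n + 1 => (one n, one n)

/-- `j` is one of the exponents -/
def leafMem : (n : ℕ) → T n → ℕ → Prop
  | 0, k, j => (show ℕ from k) = j
  | n + 1, t, j => leafMem n t.1 j ∨ leafMem n t.2 j

lemma exists_leaf (n : ℕ) (t : T n) (h : t ≠ one n) : ∃ j, j ≠ 1 ∧ leafMem n t j := by
  induction n with
  | zero => exact ⟨t, h, rfl⟩
  | succ n ih =>
    by_cases h1 : t.1 = one n
    · by_cases h2 : t.2 = one n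
      · exact absurd (Prod.ext h1 h2) h
      · obtain ⟨j, hj, hm⟩ := ih t.2 h2
        exact ⟨j, hj, Or.inr hm⟩
    · obtain ⟨j, hj, hm⟩ := ih t.1 h1
      exact ⟨j, hj, Or.inl hm⟩

/-- value of a decorated Zimin word in lists: the letter `0` is replaced by `x` and the letter
`i + 1` by `g i` -/
def evL {B : Type u} : (n : ℕ) → T n → List B → (ℕ → List B) → List B
  | 0, k, x, _ => (List.replicate k x).flatten
  | n + 1, t, x, g => evL n t.1 x g ++ g n ++ evL n t.2 x g

section evL

variable {B : Type u}

lemma evL_congr (n : ℕ) (t : T n) (x : List B) (g g' : ℕ → List B) (h : ∀ i < n, g i = g' i) :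
    evL n t x g = evL n t x g' := by
  induction n with
  | zero => rfl
  | succ n ih =>
    simp only [evL]
    rw [ih t.1 (fun i hi => h i (by omega)), ih t.2 (fun i hi => h i (by omega)), h n (by omega)]

lemma evL_leaf (n : ℕ) (t : T n) (x : List B) (g : ℕ → List B) (j : ℕ) (h : leafMem n t j) :
    (List.replicate j x).flatten <:+: evL n t x g := by
  induction n with
  | zero =>
    have : (show ℕ from t) = j := h
    subst this
    exact List.infix_refl _
  | succ n ih =>
    rcases h with h | h
    · exact (ih t.1 h).trans ⟨[], g n ++ evL n t.2 x g, by simp [evL]⟩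
    · exact (ih t.2 h).trans ⟨evL n t.1 x g ++ g n, [], by simp [evL]⟩

lemma evL_zero (n : ℕ) (t : T n) (x : List B) (g : ℕ → List B) (G C : List B)
    (hg : ∀ i, ∃ v, g i = C ++ v ++ G) (h : leafMem n t 0) :
    (G ++ C) <:+: G ++ evL n t x g ++ C := by
  induction n with
  | zero =>
    have : (show ℕ from t) = 0 := h
    have h2 : evL 0 t x g = [] := by
      change (List.replicate (show ℕ from t) x).flatten = []
      rw [this]; simp
    rw [h2]
    simp
  | succ n ih =>
    obtain ⟨v, hv⟩ := hg n
    rcases h with h | h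
    · refine (ih t.1 h).trans ⟨[], v ++ G ++ evL n t.2 x g ++ C, ?_⟩
      simp only [evL, hv, List.append_assoc, List.nil_append]
    · refine (ih t.2 h).trans ⟨G ++ evL n t.1 x g ++ C ++ v, [], ?_⟩
      simp only [evL, hv, List.append_assoc, List.append_nil]

lemma evL_mem (n : ℕ) (t : T n) (x : List B) (g : ℕ → List B) (b : B) (h : b ∈ evL n t x g) :
    b ∈ evL n (one n) x g := by
  induction n with
  | zero =>
    have h1 : b ∈ (List.replicate (show ℕ from t) x).flatten := h
    change b ∈ (List.replicate 1 x).flatten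
    rw [List.mem_flatten] at h1
    obtain ⟨l, hl, h3⟩ := h1
    have h4 := List.eq_of_mem_replicate hl
    subst h4
    simpa using h3
  | succ n ih =>
    simp only [evL, List.mem_append, one] at h ⊢
    rcases h with (h | h) | h
    · exact Or.inl (Or.inl (ih _ h))
    · exact Or.inl (Or.inr h)
    · exact Or.inr (ih _ h)

lemma build {K : Set (List B)} (hK : Good K) (G x C : List B) (h : G ++ x ++ C ∈ K) (n : ℕ) :
    ∃ g : ℕ → List B, (∀ i, ∃ v, g i = C ++ v ++ G) ∧ G ++ evL n (one n) x g ++ C ∈ K := by
  induction n with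
  | zero => exact ⟨fun _ => C ++ [] ++ G, fun i => ⟨[], rfl⟩, by simpa [evL, one] using h⟩
  | succ n ih =>
    obtain ⟨g, hg, hP⟩ := ih
    obtain ⟨v, hv⟩ := hK.double hP
    refine ⟨Function.update g n (C ++ v ++ G), ?_, ?_⟩
    · intro i
      by_cases hi : i = n
      · subst hi; exact ⟨v, by simp⟩
      · rw [Function.update_of_ne hi]; exact hg i
    · have e1 : evL n (one n) x (Function.update g n (C ++ v ++ G)) = evL n (one n) x g :=
        evL_congr _ _ _ _ _ (fun i hi => Function.update_of_ne (by omega) _ _)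
      simp only [evL, one, e1, Function.update_self]
      simpa [List.append_assoc] using hv

/-- A factorial infinite language over a finite alphabet that is closed under a nontrivial
decorated Zimin rule contains high powers. -/
theorem powers [Finite B] (L : Set (List B)) (hL : Factorial L) (hB : Big L) (n : ℕ) (t : T n)
    (ht : t ≠ one n)
    (hr : ∀ x g p q, p ++ evL n (one n) x g ++ q ∈ L → p ++ evL n t x g ++ q ∈ L) (m : ℕ) :
    ∃ h : List B, h ≠ [] ∧ (List.replicate m h).flatten ∈ L := by
  classical
  by_contra hcon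
  push Not at hcon
  have hpow : ∀ (a : B) (s : ℕ), List.replicate s a ∈ L → s < m := by
    intro a s hs
    by_contra hlt
    push Not at hlt
    apply hcon [a] (by simp)
    have : (List.replicate m [a]).flatten = List.replicate m a := by simp
    rw [this]
    refine hL _ hs _ ⟨[], List.replicate (s - m) a, ?_⟩
    rw [List.nil_append, List.replicate_append_replicate]
    congr 1; omega
  by_cases hcase : ∃ j, 2 ≤ j ∧ leafMem n t j
  · obtain ⟨j, hj, hjm⟩ := hcase
    let P : ℕ → Prop := fun s => ∃ a : B, ∃ K ⊆ L, Good K ∧ List.replicate s a ∈ K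
    have hP1 : P 1 := by
      obtain ⟨K, h1, h2⟩ := exists_good L hL hB
      obtain ⟨w, hw, hl⟩ := h2.big 1
      obtain ⟨a, rfl⟩ := List.length_eq_one_iff.1 hl
      exact ⟨a, K, h1, h2, by simpa using hw⟩
    have hbd : ∀ s, P s → s ≤ m := fun s ⟨a, K, h1, _, h3⟩ => (hpow a s (h1 h3)).le
    have hm1 : 1 ≤ m := hbd 1 hP1
    have hmax := Nat.findGreatest_spec (P := P) hm1 hP1
    set s := Nat.findGreatest P m with hs
    have hs1 : 1 ≤ s := Nat.le_findGreatest hm1 hP1
    obtain ⟨a, K, h1, h2, h3⟩ := hmax
    obtain ⟨g, -, hg⟩ := build h2 [] (List.replicate s a) [] (by simpa using h3) n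
    have hfac := evL_leaf n t (List.replicate s a) g j hjm
    have hrep : List.replicate (s + 1) a <:+: evL n t (List.replicate s a) g := by
      refine List.IsInfix.trans ?_ hfac
      have : (List.replicate j (List.replicate s a)).flatten = List.replicate (j * s) a := by
        simp
      rw [this]
      refine ⟨[], List.replicate (j * s - (s + 1)) a, ?_⟩
      rw [List.nil_append, List.replicate_append_replicate]
      congr 1
      have : s + 1 ≤ j * s := by nlinarith
      omega
    obtain ⟨K', g1, g2, g3⟩ := replace hL h1 h2 (ζ := evL n (one n) (List.replicate s a) g)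
      (ω := evL n t (List.replicate s a) g) (by simpa using hg) (by
        intro h
        rw [h] at hrep
        simp at hrep) (fun p q h => hr _ _ p q h)
    have h5 : P (s + 1) := ⟨a, K', g1, g2, g2.fac _ g3 _ hrep⟩
    have h6 := Nat.le_findGreatest (hbd _ h5) h5
    omega
  · -- all exponents are at most one
    have h0 : leafMem n t 0 := by
      obtain ⟨j, hj, hjm⟩ := exists_leaf n t ht
      have : j < 2 := by
        by_contra h
        exact hcase ⟨j, by omega, hjm⟩
      have : j = 0 := by omega
      rwa [this] at hjm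
    have := Fintype.ofFinite B
    let LS : Finset B → Set (List B) := fun S => {w ∈ L | ∀ b ∈ w, b ∈ S}
    have hLSf : ∀ S, Factorial (LS S) := fun S w hw v hv =>
      ⟨hL w hw.1 v hv, fun b hb => hw.2 b (hv.subset hb)⟩
    obtain ⟨S, hS, hSmin⟩ : ∃ S : Finset B, Big (LS S) ∧ ∀ S', S' ⊂ S → ¬ Big (LS S') := by
      have := WellFounded.has_min (wellFounded_lt (α := Finset B)) {S | Big (LS S)}
        ⟨Finset.univ, fun l => by
          obtain ⟨w, hw, hl⟩ := hB l
          exact ⟨w, ⟨hw, by simp⟩, hl⟩⟩
      obtain ⟨S, h1, h2⟩ := this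
      exact ⟨S, h1, fun S' h3 h4 => h2 S' h4 h3⟩
    obtain ⟨a, haS⟩ : ∃ a, a ∈ S := by
      obtain ⟨w, hw, hl⟩ := hS 1
      obtain ⟨a, rfl⟩ := List.length_eq_one_iff.1 hl
      exact ⟨a, hw.2 a (by simp)⟩
    obtain ⟨l0, hl0⟩ : ∃ l0, ∀ w ∈ LS S, a ∉ w → w.length < l0 := by
      have h := hSmin (S.erase a) (Finset.erase_ssubset haS)
      unfold Big at h
      push Not at h
      obtain ⟨l, hl⟩ := h
      refine ⟨l, fun w hw haw => ?_⟩
      by_contra hlt
      push Not at hlt
      have h1 : w ∈ LS (S.erase a) := ⟨hw.1, fun b hb => Finset.mem_erase.2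
        ⟨fun e => haw (e ▸ hb), hw.2 b hb⟩⟩
      exact hl (w.take l) (hLSf _ _ h1 _ (List.take_prefix _ _).isInfix) (by simp [hlt])
    let P : ℕ → Prop := fun s => ∃ K ⊆ LS S, Good K ∧ ∃ G ∈ K, a ∉ G ∧ G.length = s
    have hP1 : P 1 := by
      obtain ⟨K, h1, h2⟩ := exists_good (LS S) (hLSf S) hS
      obtain ⟨w, hw, hl⟩ := h2.big m
      obtain ⟨b, hb, hba⟩ : ∃ b ∈ w, b ≠ a := by
        by_contra hall
        push Not at hall
        have : w = List.replicate m a := List.eq_replicate_iff.2 ⟨hl, hall⟩
        have h3 := hpow a m (this ▸ (h1 hw).1)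
        omega
      refine ⟨K, h1, h2, [b], ?_, by simpa using hba.symm, rfl⟩
      obtain ⟨p, q, e⟩ := List.append_of_mem hb
      exact h2.fac w hw _ ⟨p, q, by rw [e]; simp⟩
    have hbd : ∀ s, P s → s ≤ l0 := fun s ⟨K, h1, _, G, hG, haG, hGs⟩ =>
      hGs ▸ (hl0 G (h1 hG) haG).le
    have hm1 : 1 ≤ l0 := hbd 1 hP1
    have hmax := Nat.findGreatest_spec (P := P) hm1 hP1
    set s := Nat.findGreatest P l0 with hs
    have hs1 : 1 ≤ s := Nat.le_findGreatest hm1 hP1
    have hlt : ¬ P (s + 1) := fun h5 => by
      have h6 := Nat.le_findGreatest (hbd _ h5) h5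
      omega
    obtain ⟨K, hKL, hK, G, hG, haG, hGs⟩ := hmax
    obtain ⟨l, hl⟩ := hK.ur' hG
    obtain ⟨w, hw, hwl⟩ := hK.big (l + m)
    obtain ⟨p, q, e⟩ := hl _ (hK.fac w hw _ (List.take_prefix l w).isInfix) (by simp [hwl])
    have h1 : G ++ (q ++ w.drop l) ∈ K := hK.fac w hw _ ⟨p, [], by
      rw [List.append_nil, ← List.append_assoc, ← List.append_assoc, e, List.take_append_drop]⟩
    obtain ⟨k, c, hca, hkc⟩ : ∃ (k : ℕ) (c : B), c ≠ a ∧
        List.replicate k a ++ [c] <+: (q ++ w.drop l) := by
      set y := q ++ w.drop l with hy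
      have hyl : m ≤ y.length := by rw [hy, List.length_append, List.length_drop]; omega
      have hyL : y ∈ L := (hKL (hK.fac _ h1 _ ⟨G, [], by simp⟩)).1
      have : ∀ y : List B, (∀ b ∈ y, b = a) ∨ ∃ (k : ℕ) (c : B), c ≠ a ∧
          List.replicate k a ++ [c] <+: y := by
        intro y
        induction y with
        | nil => left; simp
        | cons b y ih =>
          by_cases hb : b = a
          · rcases ih with h | ⟨k, c, hc, r, hr⟩
            · left
              intro x hx
              rcases List.mem_cons.1 hx with rfl | hx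
              · exact hb
              · exact h x hx
            · right
              exact ⟨k + 1, c, hc, r, by rw [← hr, hb, List.replicate_succ]; simp⟩
          · right
            exact ⟨0, b, hb, y, by simp⟩
      rcases this y with h | h
      · exfalso
        have h2 : y = List.replicate y.length a := List.eq_replicate_iff.2 ⟨rfl, h⟩
        have h3 := hpow a y.length (h2 ▸ hyL)
        omega
      · exact h
    have hmu : G ++ List.replicate k a ++ [c] ∈ K := by
      refine hK.fac _ h1 _ (List.IsPrefix.isInfix ?_)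
      obtain ⟨r, hr⟩ := hkc
      exact ⟨r, by rw [← hr]; simp⟩
    obtain ⟨g, hg, hgK⟩ := build hK G (List.replicate k a) [c] hmu n
    have hfac := evL_zero n t (List.replicate k a) g G [c] hg h0
    obtain ⟨K', g1, g2, g3⟩ := replace (hLSf S) hKL hK
      (ζ := G ++ evL n (one n) (List.replicate k a) g ++ [c])
      (ω := G ++ evL n t (List.replicate k a) g ++ [c]) hgK (by simp) (by
        intro p q h
        refine ⟨?_, ?_⟩
        · have := hr (List.replicate k a) g (p ++ G) ([c] ++ q) (by
            simpa [List.append_assoc] using h.1)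
          simpa [List.append_assoc] using this
        · intro b hb
          apply h.2
          simp only [List.mem_append] at hb ⊢
          rcases hb with (hb | (hb | hb) | hb) | hb
          · tauto
          · tauto
          · have := evL_mem n t _ g b hb
            tauto
          · tauto
          · tauto)
    apply hlt
    refine ⟨K', g1, g2, G ++ [c], g2.fac _ g3 _ hfac, ?_, by simp [hGs]⟩
    simp [haG, hca.symm]

end evL

end Pool.Agent.H43R2
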