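import Mathlib
import Pool.Agent.H43R2.Lang
set_option autoImplicit false

/-!
Monoids satisfying a nontrivial decorated Zimin identity.
-/

namespace Pool.Agent.H43R2

universe u

/-- value of a decorated Zimin word in a monoid: the letter `0` goes to `x` and the letter
`i + 1` goes to `g i` -/
def ev {M : Type u} [Monoid M] : (n : ℕ) → T n → M → (ℕ → M) → M
  | 0, k, x, _ => x ^ (show ℕ from k)
  | n + 1, t, x, g => ev n t.1 x g * g n * ev n t.2 x g

/-- `x` divides `e` -/
def Dv {M : Type u} [Monoid M] (x e : M) : Prop := ∃ s t, s * x * t = e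

section basic

variable {M : Type u} [Monoid M]

lemma ev_congr (n : ℕ) (t : T n) (x : M) (g g' : ℕ → M) (h : ∀ i < n, g i = g' i) :
    ev n t x g = ev n t x g' := by
  induction n with
  | zero => rfl
  | succ n ih =>
    simp only [ev]
    rw [ih t.1 (fun i hi => h i (by omega)), ih t.2 (fun i hi => h i (by omega)), h n (by omega)]

lemma Dv.refl (x : M) : Dv x x := ⟨1, 1, by simp⟩

lemma Dv.trans {x y z : M} (h1 : Dv x y) (h2 : Dv y z) : Dv x z := by
  obtain ⟨s, t, rfl⟩ := h1
  obtain ⟨a, b, rfl⟩ := h2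
  exact ⟨a * s, t * b, by simp only [mul_assoc]⟩

lemma Dv.mid (a x b : M) : Dv x (a * x * b) := ⟨a, b, rfl⟩

lemma Dv.left (x b : M) : Dv x (x * b) := ⟨1, b, by simp⟩

lemma Dv.right (a x : M) : Dv x (a * x) := ⟨a, 1, by simp⟩

lemma Dv.one (x : M) : Dv 1 x := ⟨x, 1, by simp⟩

lemma Dv.mul_left (s : M) {x e : M} (h : Dv x e) : Dv x (s * e) := h.trans (Dv.right _ _)

lemma Dv.mul_right (s : M) {x e : M} (h : Dv x e) : Dv x (e * s) := h.trans (Dv.left _ _)

lemma ev_leaf (n : ℕ) (t : T n) (p m q : M) (j : ℕ) (h : leafMem n t j) :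
    Dv (p * m ^ j * q) (p * ev n t m (fun _ => q * p) * q) := by
  induction n with
  | zero =>
    have : (show ℕ from t) = j := h
    subst this
    exact Dv.refl _
  | succ n ih =>
    have e : p * ev (n + 1) t m (fun _ => q * p) * q =
        (p * ev n t.1 m (fun _ => q * p) * q) * (p * ev n t.2 m (fun _ => q * p) * q) := by
      simp only [ev, mul_assoc]
    rw [e]
    rcases h with h | h
    · exact (ih t.1 h).mul_right _
    · exact (ih t.2 h).mul_left _

lemma ev_one_idem (n : ℕ) (p m q : M) (he : (p * m * q) * (p * m * q) = p * m * q) :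
    p * ev n (one n) m (fun _ => q * p) * q = p * m * q := by
  induction n with
  | zero => simp [ev, one]
  | succ n ih =>
    have e : p * ev (n + 1) (one (n + 1)) m (fun _ => q * p) * q =
        (p * ev n (one n) m (fun _ => q * p) * q) * (p * ev n (one n) m (fun _ => q * p) * q) := by
      simp only [ev, one, mul_assoc]
    rw [e, ih, he]

/-- deletion property -/
def Del (M : Type u) [Monoid M] : Prop :=
  ∀ p m q : M, (p * m * q) * (p * m * q) = p * m * q → Dv (p * q) (p * m * q)

theorem del_of_ev (n : ℕ) (t : T n) (ht : t ≠ one n)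
    (h : ∀ (x : M) (g : ℕ → M), ev n (one n) x g = ev n t x g) : Del M := by
  obtain ⟨j, hj, hjm⟩ := exists_leaf n t ht
  have key : ∀ p m q : M, (p * m * q) * (p * m * q) = p * m * q →
      Dv (p * m ^ j * q) (p * m * q) := by
    intro p m q he
    have h1 := ev_leaf n t p m q j hjm
    rw [← h, ev_one_idem n p m q he] at h1
    exact h1
  intro p m q he
  rcases Nat.lt_or_ge j 2 with h2 | h2
  · have : j = 0 := by omega
    subst this
    simpa using key p m q he
  · set e := p * m * q with hee
    have e1 : (p * m) * (q * e * p) * (m * q) = e := by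
      have : (p * m) * (q * e * p) * (m * q) = (p * m * q) * e * (p * m * q) := by
        simp only [mul_assoc]
      rw [this, ← hee, he, he]
    have h3 := key (p * m) (q * e * p) (m * q) (by rw [e1, he])
    rw [e1] at h3
    refine Dv.trans ?_ h3
    obtain ⟨k, rfl⟩ : ∃ k, j = k + 2 := ⟨j - 2, by omega⟩
    refine ⟨(p * m) * (q * e), (e * p) * (q * e * p) ^ k * (m * q), ?_⟩
    rw [pow_add, pow_two]
    have : (q * e * p) ^ k * (q * e * p * (q * e * p)) =
        (q * e * p * (q * e * p)) * (q * e * p) ^ k := by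
      rw [← pow_two, ← pow_add, ← pow_add, add_comm]
    rw [this]
    simp only [mul_assoc]

lemma mul_dv (hdel : Del M) {e x y : M} (he : e * e = e) (hx : Dv x e) (hy : Dv y e) :
    Dv (x * y) e := by
  obtain ⟨p, q, h1⟩ := hx
  obtain ⟨p', q', h2⟩ := hy
  have h3 : (p * x) * (q * p') * (y * q') = e := by
    have : (p * x) * (q * p') * (y * q') = (p * x * q) * (p' * y * q') := by
      simp only [mul_assoc]
    rw [this, h1, h2, he]
  have h4 := hdel (p * x) (q * p') (y * q') (by rw [h3, he])
  rw [h3] at h4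
  refine Dv.trans ⟨p, q', ?_⟩ h4
  simp only [mul_assoc]

lemma pow_dv (hdel : Del M) {e x : M} (he : e * e = e) (hx : Dv x e) (k : ℕ) :
    Dv (x ^ k) e := by
  induction k with
  | zero => simpa using Dv.one e
  | succ k ih => rw [pow_succ]; exact mul_dv hdel he ih hx

lemma list_prod_dv (hdel : Del M) {e : M} (he : e * e = e) (l : List M) (h : ∀ x ∈ l, Dv x e) :
    Dv l.prod e := by
  induction l with
  | nil => simpa using Dv.one e
  | cons a l ih =>
    rw [List.prod_cons]
    exact mul_dv hdel he (h a (by simp)) (ih fun x hx => h x (by simp [hx]))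

/-- the `J`-class of `e` -/
def Jc (e x : M) : Prop := Dv x e ∧ Dv e x

lemma Jc.refl (e : M) : Jc e e := ⟨Dv.refl _, Dv.refl _⟩

lemma Jc.symm {e f : M} (h : Jc e f) : Jc f e := ⟨h.2, h.1⟩

lemma Jc.trans {e f g : M} (h : Jc e f) (h2 : Jc f g) : Jc e g :=
  ⟨h2.1.trans h.1, h.2.trans h2.2⟩

lemma Jc.mul_left (hdel : Del M) {e : M} (he : e * e = e) {x s : M} (hx : Jc e x) (hs : Dv s e) :
    Jc e (s * x) := ⟨mul_dv hdel he hs hx.1, hx.2.mul_left s⟩

lemma Jc.mul_right (hdel : Del M) {e : M} (he : e * e = e) {x s : M} (hx : Jc e x)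
    (hs : Dv s e) : Jc e (x * s) := ⟨mul_dv hdel he hx.1 hs, hx.2.mul_right s⟩

end basic

/-- all `D`-th powers are idempotent, `D ≥ 1` -/
def Per (D : ℕ) (M : Type u) [Monoid M] : Prop := 1 ≤ D ∧ ∀ x : M, x ^ D * x ^ D = x ^ D

section periodic

variable {M : Type u} [Monoid M] {D : ℕ}

lemma stable_right (hP : Per D M) {k h : M} (hk : Dv (k * h) k) : ∃ t, k * h * t = k := by
  obtain ⟨hD, hper⟩ := hP
  obtain ⟨s, t, e⟩ := hk
  have h1 : ∀ n : ℕ, s ^ n * k * (h * t) ^ n = k := by
    intro n
    induction n with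
    | zero => simp
    | succ n ih =>
      have : s ^ (n + 1) * k * (h * t) ^ (n + 1) = s ^ n * (s * (k * h) * t) * (h * t) ^ n := by
        rw [pow_succ s, pow_succ' (h * t)]
        simp only [mul_assoc]
      rw [this, e, ih]
  have h2 : k * (h * t) ^ D = k := by
    have := h1 D
    calc k * (h * t) ^ D = s ^ D * k * (h * t) ^ D * (h * t) ^ D := by rw [this]
      _ = s ^ D * k * ((h * t) ^ D * (h * t) ^ D) := by simp only [mul_assoc]
      _ = k := by rw [hper, this]
  obtain ⟨n, rfl⟩ : ∃ n, D = n + 1 := ⟨D - 1, by omega⟩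
  refine ⟨t * (h * t) ^ n, ?_⟩
  rw [pow_succ'] at h2
  simpa only [mul_assoc] using h2

lemma stable_left (hP : Per D M) {k h : M} (hk : Dv (h * k) k) : ∃ t, t * (h * k) = k := by
  obtain ⟨hD, hper⟩ := hP
  obtain ⟨s, t, e⟩ := hk
  have h1 : ∀ n : ℕ, (s * h) ^ n * k * t ^ n = k := by
    intro n
    induction n with
    | zero => simp
    | succ n ih =>
      have : (s * h) ^ (n + 1) * k * t ^ (n + 1) = (s * h) ^ n * (s * (h * k) * t) * t ^ n := by
        rw [pow_succ (s * h), pow_succ' t]
        simp only [mul_assoc]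
      rw [this, e, ih]
  have h2 : (s * h) ^ D * k = k := by
    have := h1 D
    calc (s * h) ^ D * k = (s * h) ^ D * ((s * h) ^ D * k * t ^ D) := by rw [this]
      _ = ((s * h) ^ D * (s * h) ^ D) * k * t ^ D := by simp only [mul_assoc]
      _ = k := by rw [hper, this]
  obtain ⟨n, rfl⟩ : ∃ n, D = n + 1 := ⟨D - 1, by omega⟩
  refine ⟨(s * h) ^ n * s, ?_⟩
  rw [pow_succ] at h2
  simpa only [mul_assoc] using h2

/-- `k, h` in the `J`-class of `e`: the idempotent `(k h) ^ D` fixes `k` on the left. -/
lemma idem_left (hP : Per D M) (hdel : Del M) {e : M} (he : e * e = e) {k h : M} (hk : Jc e k)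
    (hh : Dv h e) : (k * h) ^ D * k = k := by
  have h1 : Jc e (k * h) := hk.mul_right hdel he hh
  obtain ⟨t, ht⟩ := stable_right hP (k := k) (h := h) (h1.1.trans hk.2)
  have h2 : Jc e ((k * h) * (k * h)) := h1.mul_right hdel he h1.1
  obtain ⟨r, hr⟩ := stable_right hP (k := k * h) (h := k * h) (h2.1.trans h1.2)
  -- `(k h) = (k h)^2 r`, hence `(k h)^D (k h) = k h`
  have h3 : ∀ n : ℕ, (k * h) ^ n * (k * h) * r ^ n = k * h := by
    intro n
    induction n with
    | zero => simp
    | succ n ih =>
      have : (k * h) ^ (n + 1) * (k * h) * r ^ (n + 1) =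
          (k * h) ^ n * (k * h * (k * h) * r) * r ^ n := by
        rw [pow_succ (k * h), pow_succ' r]
        simp only [mul_assoc]
      rw [this, hr, ih]
  have h4 : (k * h) ^ D * (k * h) = k * h := by
    have := h3 D
    calc (k * h) ^ D * (k * h) = (k * h) ^ D * ((k * h) ^ D * (k * h) * r ^ D) := by rw [this]
      _ = ((k * h) ^ D * (k * h) ^ D) * (k * h) * r ^ D := by simp only [mul_assoc]
      _ = k * h := by rw [hP.2, this]
  calc (k * h) ^ D * k = (k * h) ^ D * (k * h * t) := by rw [ht]
    _ = (k * h) ^ D * (k * h) * t := by simp only [mul_assoc]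
    _ = k := by rw [h4, ht]

lemma idem_right (hP : Per D M) (hdel : Del M) {e : M} (he : e * e = e) {k h : M} (hk : Jc e k)
    (hh : Dv h e) : k * (h * k) ^ D = k := by
  have h1 : Jc e (h * k) := hk.mul_left hdel he hh
  obtain ⟨t, ht⟩ := stable_left hP (k := k) (h := h) (h1.1.trans hk.2)
  have h2 : Jc e ((h * k) * (h * k)) := h1.mul_right hdel he h1.1
  obtain ⟨r, hr⟩ := stable_left hP (k := h * k) (h := h * k) (h2.1.trans h1.2)
  have h3 : ∀ n : ℕ, r ^ n * ((h * k) * (h * k) ^ n) = h * k := by
    intro n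
    induction n with
    | zero => simp
    | succ n ih =>
      have : r ^ (n + 1) * ((h * k) * (h * k) ^ (n + 1)) =
          r ^ n * (r * (h * k * (h * k)) * (h * k) ^ n) := by
        rw [pow_succ r, pow_succ' (h * k)]
        simp only [mul_assoc]
      rw [this, hr, ih]
  have h4 : (h * k) * (h * k) ^ D = h * k := by
    have := h3 D
    calc (h * k) * (h * k) ^ D = (r ^ D * ((h * k) * (h * k) ^ D)) * (h * k) ^ D := by rw [this]
      _ = r ^ D * ((h * k) * ((h * k) ^ D * (h * k) ^ D)) := by simp only [mul_assoc]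
      _ = h * k := by rw [hP.2, this]
  calc k * (h * k) ^ D = t * (h * k) * (h * k) ^ D := by rw [ht]
    _ = t * ((h * k) * (h * k) ^ D) := by simp only [mul_assoc]
    _ = k := by rw [h4, ht]

lemma Jc.pow (hdel : Del M) {e : M} (he : e * e = e) {x : M} (hx : Jc e x) {n : ℕ}
    (hn : 1 ≤ n) : Jc e (x ^ n) := by
  obtain ⟨k, rfl⟩ : ∃ k, n = k + 1 := ⟨n - 1, by omega⟩
  rw [pow_succ]
  exact hx.mul_left hdel he (pow_dv hdel he hx.1 k)

/-- `x` lies in the group `H`-class of the idempotent `f` in the `J`-class of `e` -/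
structure Gp (e f x : M) : Prop where
  jc : Jc e x
  left : f * x = x
  right : x * f = x

lemma Gp.self {e f : M} (hef : Jc e f) (hf : f * f = f) : Gp e f f := ⟨hef, hf, hf⟩

lemma Gp.mul (hdel : Del M) {e f : M} (he : e * e = e) {x y : M} (hx : Gp e f x)
    (hy : Gp e f y) : Gp e f (x * y) :=
  ⟨hx.jc.mul_right hdel he hy.jc.1, by rw [← mul_assoc, hx.left], by rw [mul_assoc, hy.right]⟩

/-- sandwich -/
lemma Gp.mid (hdel : Del M) {e f : M} (he : e * e = e) {x y z : M} (hx : Gp e f x)
    (hy : Dv y e) (hz : Gp e f z) : Gp e f (x * y * z) :=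
  ⟨hz.jc.mul_left hdel he (mul_dv hdel he hx.jc.1 hy),
    by rw [mul_assoc x, ← mul_assoc f, hx.left],
    by rw [mul_assoc, hz.right]⟩

lemma Gp.pow_eq (hP : Per D M) (hdel : Del M) {e f : M} (he : e * e = e) (hef : Jc e f)
    (hf : f * f = f) {x : M} (hx : Gp e f x) : x ^ D = f := by
  obtain ⟨hD, hper⟩ := hP
  obtain ⟨n, hn⟩ : ∃ n, D = n + 1 := ⟨D - 1, by omega⟩
  set g := x ^ D with hg
  have hgg : g * g = g := hper x
  have hgj : Jc e g := hx.jc.pow hdel he hD
  have hfg : f * g = g := by rw [hg, hn, pow_succ', ← mul_assoc, hx.left]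
  have hgf : g * f = g := by rw [hg, hn, pow_succ, mul_assoc, hx.right]
  obtain ⟨s, t, e1⟩ := hgj.1.trans hef.2
  set α := f * s * g with hα
  set β := g * t * f with hβ
  have hαf : α * f = α := by rw [hα, mul_assoc, hgf]
  have hαβ : α * β = f := by
    have : α * β = f * (s * (g * g) * t) * f := by simp only [hα, hβ, mul_assoc]
    rw [this, hgg, e1, hf, hf]
  have h1 : ∀ n : ℕ, α ^ n * f * β ^ n = f := by
    intro n
    induction n with
    | zero => simp
    | succ n ih =>
      have : α ^ (n + 1) * f * β ^ (n + 1) = α ^ n * (α * f * β) * β ^ n := by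
        rw [pow_succ α, pow_succ' β]
        simp only [mul_assoc]
      rw [this, hαf, hαβ, ih]
  have h2 : α ^ D * f = f := by
    calc α ^ D * f = α ^ D * (α ^ D * f * β ^ D) := by rw [h1 D]
      _ = (α ^ D * α ^ D) * f * β ^ D := by simp only [mul_assoc]
      _ = f := by rw [hper, h1]
  have h3 : α ^ D * f = α ^ D := by rw [hn, pow_succ, mul_assoc, hαf]
  have h4 : α ^ D * g = α ^ D := by
    have : α * g = α := by rw [hα, mul_assoc, hgg]
    rw [hn, pow_succ, mul_assoc, this]
  calc g = f * g := hfg.symm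
    _ = α ^ D * g := by rw [← h3, h2]
    _ = α ^ D := h4
    _ = f := by rw [← h3, h2]

/-- inverse in the group `H`-class -/
lemma Gp.inv_mul (hP : Per D M) (hdel : Del M) {e f : M} (he : e * e = e) (hef : Jc e f)
    (hf : f * f = f) {x : M} (hx : Gp e f x) : x ^ (D - 1) * x = f := by
  rw [← pow_succ, Nat.sub_add_cancel hP.1]
  exact hx.pow_eq hP hdel he hef hf

lemma Gp.mul_inv (hP : Per D M) (hdel : Del M) {e f : M} (he : e * e = e) (hef : Jc e f)
    (hf : f * f = f) {x : M} (hx : Gp e f x) : x * x ^ (D - 1) = f := by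
  rw [← pow_succ', Nat.sub_add_cancel hP.1]
  exact hx.pow_eq hP hdel he hef hf

/-- equality modulo the `i`-th centre -/
def Cc {M : Type u} [Monoid M] (e : M) : ℕ → M → M → Prop
  | 0, x, y => x = y
  | i + 1, x, y => ∀ g, Jc e g → Cc e i (x * g * y) (y * g * x)

lemma Cc.refl (e : M) (i : ℕ) (x : M) : Cc e i x x := by
  induction i generalizing x with
  | zero => rfl
  | succ i ih => intro g _; exact ih _

lemma Cc.symm {e : M} {i : ℕ} {x y : M} (h : Cc e i x y) : Cc e i y x := by
  induction i generalizing x y with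
  | zero => exact Eq.symm h
  | succ i ih => intro g hg; exact ih (h g hg)

lemma Cc.congr {e f : M} (hef : Jc e f) {i : ℕ} {x y : M} (h : Cc e i x y) : Cc f i x y := by
  induction i generalizing x y with
  | zero => exact h
  | succ i ih => intro g hg; exact ih (h g (hef.trans hg))

lemma Cc.transl (hdel : Del M) {e : M} (he : e * e = e) {s t : M} (hs : Dv s e) (ht : Dv t e)
    {i : ℕ} {x y : M} (h : Cc e i x y) : Cc e i (s * x * t) (s * y * t) := by
  induction i generalizing x y with
  | zero => change _ = _; rw [show x = y from h]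
  | succ i ih =>
    intro g hg
    have h1 := ih (h (t * g * s) ((hg.mul_left hdel he ht).mul_right hdel he hs))
    simpa only [mul_assoc] using h1

lemma Cc.left (hdel : Del M) {e : M} (he : e * e = e) {s : M} (hs : Dv s e)
    {i : ℕ} {x y : M} (h : Cc e i x y) : Cc e i (s * x) (s * y) := by
  simpa using h.transl hdel he hs (Dv.one e)

lemma Cc.right (hdel : Del M) {e : M} (he : e * e = e) {t : M} (ht : Dv t e)
    {i : ℕ} {x y : M} (h : Cc e i x y) : Cc e i (x * t) (y * t) := by
  simpa using h.transl hdel he (Dv.one e) ht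

lemma Cc.mono {e : M} {i : ℕ} {x y : M} (h : Cc e i x y) : Cc e (i + 1) x y := by
  induction i generalizing x y with
  | zero => intro g _; rw [show x = y from h]; rfl
  | succ i ih => intro g hg; exact ih (h g hg)

lemma Cc.mono' {e : M} {i j : ℕ} (hij : i ≤ j) {x y : M} (h : Cc e i x y) : Cc e j x y := by
  induction hij with
  | refl => exact h
  | step _ ih => exact ih.mono

lemma Cc.trans (hP : Per D M) (hdel : Del M) {e f : M} (he : e * e = e) (hef : Jc e f)
    (hf : f * f = f) {i : ℕ} {x y z : M} (hx : Gp e f x) (hy : Gp e f y) (hz : Gp e f z)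
    (h1 : Cc e i x y) (h2 : Cc e i y z) : Cc e i x z := by
  induction i generalizing x y z with
  | zero => exact Eq.trans h1 h2
  | succ i ih =>
    intro g hg
    set v := y ^ (D - 1) with hv
    have hvy : v * y = f := hy.inv_mul hP hdel he hef hf
    have hyv : y * v = f := hy.mul_inv hP hdel he hef hf
    have hvd : Dv v e := pow_dv hdel he hy.jc.1 _
    have hg' : Jc e (g * z * v) := (hg.mul_right hdel he hz.jc.1).mul_right hdel he hvd
    have h3 := h1 _ hg'
    have e1 : x * (g * z * v) * y = x * g * z := by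
      calc x * (g * z * v) * y = x * g * (z * (v * y)) := by simp only [mul_assoc]
        _ = _ := by rw [hvy, hz.right]
    rw [e1] at h3
    have h4 := (h2 g hg).right hdel he (mul_dv hdel he hvd hx.jc.1)
    have e2 : z * g * y * (v * x) = z * g * x := by
      calc z * g * y * (v * x) = z * g * ((y * v) * x) := by simp only [mul_assoc]
        _ = _ := by rw [hyv, hx.left]
    rw [e2] at h4
    have e3 : y * g * z * (v * x) = y * (g * z * v) * x := by simp only [mul_assoc]
    rw [e3] at h4
    exact ih (hx.mid hdel he hg.1 hz) (hy.mid hdel he hg'.1 hx) (hz.mid hdel he hg.1 hx) h3 h4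

/-- descending one level -/
lemma Cc.halve (hP : Per D M) (hdel : Del M) {e f : M} (he : e * e = e) (hef : Jc e f)
    (hf : f * f = f) {i : ℕ} {u v w : M} (hu : Gp e f u) (hv : Gp e f v) (hw : Gp e f w)
    (h : ∀ g, Gp e f g → Cc e i (u * g * u) (v * g * w)) :
    Cc e (i + 1) u v ∧ Cc e (i + 1) u w := by
  have hui : Gp e f (u ^ (D - 1) * f) := by
    refine ⟨hef.mul_left hdel he (pow_dv hdel he hu.jc.1 _), ?_, by rw [mul_assoc, hf]⟩
    have : f * u ^ (D - 1) * f = u ^ (D - 1) * f := by
      have hc : ∀ n : ℕ, f * u ^ n * f = u ^ n * f := by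
        intro n
        induction n with
        | zero => simp [hf]
        | succ n ih => rw [pow_succ', ← mul_assoc, hu.left]
      exact hc _
    rw [← mul_assoc, this]
  have huu : u * (u ^ (D - 1) * f) * u = u := by
    rw [← mul_assoc, hu.mul_inv hP hdel he hef hf, hf, hu.left]
  have h0 := h _ hui
  rw [huu] at h0
  set U := u ^ (D - 1) * f with hU
  have hUu : U * u = f := by rw [hU, mul_assoc, hu.left, hu.inv_mul hP hdel he hef hf]
  have huU : u * U = f := by rw [hU, ← mul_assoc, hu.mul_inv hP hdel he hef hf, hf]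
  set V := v ^ (D - 1) with hV
  have hVv : V * v = f := hv.inv_mul hP hdel he hef hf
  have hvV : v * V = f := hv.mul_inv hP hdel he hef hf
  have hVd : Dv V e := pow_dv hdel he hv.jc.1 _
  set W := w ^ (D - 1) with hW
  have hWw : W * w = f := hw.inv_mul hP hdel he hef hf
  have hwW : w * W = f := hw.mul_inv hP hdel he hef hf
  have hWd : Dv W e := pow_dv hdel he hw.jc.1 _
  -- (A) u V u ≡ w, (B) u W u ≡ v
  have hA : Cc e i (u * V * u) w := by
    have h1 := h0.left hdel he (mul_dv hdel he hu.jc.1 hVd)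
    have e1 : u * V * (v * U * w) = w := by
      calc u * V * (v * U * w) = u * (V * v) * U * w := by simp only [mul_assoc]
        _ = w := by rw [hVv, hu.right, huU, hw.left]
    rwa [e1] at h1
  have hB : Cc e i (u * W * u) v := by
    have h1 := h0.right hdel he (mul_dv hdel he hWd hu.jc.1)
    have e1 : v * U * w * (W * u) = v := by
      calc v * U * w * (W * u) = v * (U * ((w * W) * u)) := by simp only [mul_assoc]
        _ = v := by rw [hwW, hu.left, hUu, hv.right]
    have e2 : u * (W * u) = u * W * u := by rw [mul_assoc]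
    rwa [e1, e2] at h1
  constructor
  · intro g0 hg0
    -- replace g0 by f g0 f
    obtain ⟨g, hg⟩ : ∃ g, g = f * g0 * f := ⟨_, rfl⟩
    have hgG : Gp e f g := ⟨hg ▸ (hg0.mul_left hdel he hef.1).mul_right hdel he hef.1,
      by rw [hg, ← mul_assoc, ← mul_assoc, hf], by rw [hg, mul_assoc, hf]⟩
    have r1 : u * g0 * v = u * g * v := by
      rw [hg]
      calc u * g0 * v = (u * f) * g0 * (f * v) := by rw [hu.right, hv.left]
        _ = _ := by simp only [mul_assoc]
    have r2 : v * g0 * u = v * g * u := by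
      rw [hg]
      calc v * g0 * u = (v * f) * g0 * (f * u) := by rw [hv.right, hu.left]
        _ = _ := by simp only [mul_assoc]
    rw [r1, r2]
    have h1 := h g hgG
    have h2 := hA.left hdel he (mul_dv hdel he hv.jc.1 hgG.jc.1)
    -- u g u ≡ v g w ≡ v g u V u
    have h3 : Cc e i (u * g * u) (v * g * (u * V * u)) := by
      refine Cc.trans hP hdel he hef hf (hu.mid hdel he hgG.jc.1 hu) (hv.mid hdel he hgG.jc.1 hw)
        (hv.mid hdel he hgG.jc.1 (hu.mid hdel he hVd hu)) h1 h2.symm
    have h4 := h3.right hdel he (mul_dv hdel he (pow_dv hdel he hu.jc.1 (D - 1)) hv.jc.1)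
    have e1 : u * g * u * (u ^ (D - 1) * v) = u * g * v := by
      calc u * g * u * (u ^ (D - 1) * v) = u * g * ((u * u ^ (D - 1)) * v) := by
            simp only [mul_assoc]
        _ = _ := by rw [hu.mul_inv hP hdel he hef hf, hv.left]
    have e2 : v * g * (u * V * u) * (u ^ (D - 1) * v) = v * g * u := by
      calc v * g * (u * V * u) * (u ^ (D - 1) * v) =
            v * g * (u * (V * ((u * u ^ (D - 1)) * v))) := by simp only [mul_assoc]
        _ = _ := by rw [hu.mul_inv hP hdel he hef hf, hv.left, hVv, hu.right]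
    rwa [e1, e2] at h4
  · intro g0 hg0
    obtain ⟨g, hg⟩ : ∃ g, g = f * g0 * f := ⟨_, rfl⟩
    have hgG : Gp e f g := ⟨hg ▸ (hg0.mul_left hdel he hef.1).mul_right hdel he hef.1,
      by rw [hg, ← mul_assoc, ← mul_assoc, hf], by rw [hg, mul_assoc, hf]⟩
    have r1 : u * g0 * w = u * g * w := by
      rw [hg]
      calc u * g0 * w = (u * f) * g0 * (f * w) := by rw [hu.right, hw.left]
        _ = _ := by simp only [mul_assoc]
    have r2 : w * g0 * u = w * g * u := by
      rw [hg]
      calc w * g0 * u = (w * f) * g0 * (f * u) := by rw [hw.right, hu.left]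
        _ = _ := by simp only [mul_assoc]
    rw [r1, r2]
    have h1 := h g hgG
    have h2 := hB.right hdel he (mul_dv hdel he hgG.jc.1 hw.jc.1)
    -- u g u ≡ v g w ≡ u W u g w
    have h3 : Cc e i (u * g * u) (u * W * u * (g * w)) := by
      refine Cc.trans hP hdel he hef hf (hu.mid hdel he hgG.jc.1 hu) (hv.mid hdel he hgG.jc.1 hw)
        ?_ h1 ?_
      · exact (hu.mid hdel he hWd hu).mul hdel he (hgG.mul hdel he hw)
      · have : v * (g * w) = v * g * w := by rw [mul_assoc]
        rw [this] at h2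
        exact h2.symm
    have h4 := h3.left hdel he (mul_dv hdel he hw.jc.1 (pow_dv hdel he hu.jc.1 (D - 1)))
    have e1 : w * u ^ (D - 1) * (u * g * u) = w * g * u := by
      calc w * u ^ (D - 1) * (u * g * u) = w * ((u ^ (D - 1) * u) * (g * u)) := by
            simp only [mul_assoc]
        _ = w * ((f * g) * u) := by rw [hu.inv_mul hP hdel he hef hf, mul_assoc f]
        _ = _ := by rw [hgG.left, mul_assoc]
    have e2 : w * u ^ (D - 1) * (u * W * u * (g * w)) = u * g * w := by
      calc w * u ^ (D - 1) * (u * W * u * (g * w)) =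
            w * ((u ^ (D - 1) * u) * (W * (u * (g * w)))) := by simp only [mul_assoc]
        _ = (w * f) * (W * (u * (g * w))) := by rw [hu.inv_mul hP hdel he hef hf, mul_assoc w]
        _ = (w * W) * u * g * w := by rw [hw.right]; simp only [mul_assoc]
        _ = _ := by rw [hwW, hu.left]
    rw [e1, e2] at h4
    exact h4.symm

end periodic

end Pool.Agent.H43R2
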