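import Mathlib
import Pool.Agent.H43R2.Green
set_option autoImplicit false

/-!
The hypercentre condition.
-/

namespace Pool.Agent.H43R2

universe u

section

variable {M : Type u} [Monoid M] {D : ℕ}

/-- sandwiched value -/
def sv (e : M) : (n : ℕ) → T n → M → (ℕ → M) → M
  | 0, k, x, _ => e * x ^ (show ℕ from k) * e
  | n + 1, t, x, g => sv e n t.1 x g * g n * sv e n t.2 x g

lemma sv_congr (e : M) (n : ℕ) (t : T n) (x : M) (g g' : ℕ → M) (h : ∀ i < n, g i = g' i) :
    sv e n t x g = sv e n t x g' := by
  induction n with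
  | zero => rfl
  | succ n ih =>
    simp only [sv]
    rw [ih t.1 (fun i hi => h i (by omega)), ih t.2 (fun i hi => h i (by omega)), h n (by omega)]

lemma sv_eq {e : M} (he : e * e = e) (n : ℕ) (t : T n) (x : M) (g : ℕ → M)
    (hg : ∀ i, e * g i = g i ∧ g i * e = g i) : sv e n t x g = e * ev n t x g * e := by
  induction n with
  | zero => rfl
  | succ n ih =>
    simp only [sv, ev]
    rw [ih, ih]
    calc e * ev n t.1 x g * e * g n * (e * ev n t.2 x g * e) =
        e * ev n t.1 x g * ((e * g n) * e) * ev n t.2 x g * e := by simp only [mul_assoc]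
      _ = _ := by rw [(hg n).1, (hg n).2]; simp only [mul_assoc]

lemma sv_gp (hdel : Del M) {e : M} (he : e * e = e) (n : ℕ) (t : T n) (x : M) (hx : Dv x e)
    (g : ℕ → M) (hg : ∀ i, Gp e e (g i)) : Gp e e (sv e n t x g) := by
  induction n with
  | zero => exact (Gp.self (Jc.refl e) he).mid hdel he (pow_dv hdel he hx _)
              (Gp.self (Jc.refl e) he)
  | succ n ih => exact (ih t.1).mid hdel he (hg n).jc.1 (ih t.2)

theorem sv_leaf (hP : Per D M) (hdel : Del M) {e : M} (he : e * e = e) (x : M) (hx : Dv x e)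
    (n : ℕ) : ∀ (i : ℕ) (t : T n), (∀ g : ℕ → M, (∀ j, Gp e e (g j)) →
      Cc e i (sv e n (one n) x g) (sv e n t x g)) →
    ∀ k, leafMem n t k → Cc e (i + n) (e * x * e) (e * x ^ k * e) := by
  induction n with
  | zero =>
    intro i t h k hk
    have hk' : (show ℕ from t) = k := hk
    subst hk'
    have := h (fun _ => e) (fun _ => Gp.self (Jc.refl e) he)
    simpa [sv, one] using this
  | succ n ih =>
    intro i t h k hk
    have key : ∀ g : ℕ → M, (∀ j, Gp e e (g j)) →
        Cc e (i + 1) (sv e n (one n) x g) (sv e n t.1 x g) ∧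
        Cc e (i + 1) (sv e n (one n) x g) (sv e n t.2 x g) := by
      intro g hg
      refine Cc.halve hP hdel he (Jc.refl e) he (sv_gp hdel he n _ x hx g hg)
        (sv_gp hdel he n _ x hx g hg) (sv_gp hdel he n _ x hx g hg) ?_
      intro r hr
      have h1 := h (Function.update g n r) (by
        intro j
        by_cases hj : j = n
        · subst hj; simpa using hr
        · rw [Function.update_of_ne hj]; exact hg j)
      have e1 : ∀ t : T n, sv e n t x (Function.update g n r) = sv e n t x g := fun t =>
        sv_congr e n t x _ _ (fun j hj => Function.update_of_ne (by omega) _ _)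
      simpa only [sv, one, e1, Function.update_self] using h1
    have e2 : i + (n + 1) = i + 1 + n := by ring
    rw [e2]
    rcases hk with hk | hk
    · exact ih (i + 1) t.1 (fun g hg => (key g hg).1) k hk
    · exact ih (i + 1) t.2 (fun g hg => (key g hg).2) k hk

/-- The hypercentre condition with bound `n`. -/
def Gam (D n : ℕ) (M : Type u) [Monoid M] : Prop :=
  ∀ e : M, e * e = e → ∀ x, Dv x e → Cc e n (e * x * e) (e * x ^ (1 + D) * e)

theorem gam_of_ev (hP : Per D M) (n : ℕ) (t : T n) (ht : t ≠ one n)
    (h : ∀ (x : M) (g : ℕ → M), ev n (one n) x g = ev n t x g) : Gam D n M := by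
  have hdel := del_of_ev n t ht h
  obtain ⟨j, hj, hjm⟩ := exists_leaf n t ht
  intro e he
  have hee := Gp.self (Jc.refl e) he
  have key : ∀ x, Dv x e → Cc e n (e * x * e) (e * x ^ j * e) := by
    intro x hx
    have := sv_leaf hP hdel he x hx n 0 t (by
      intro g hg
      change _ = _
      rw [sv_eq he n _ x g (fun i => ⟨(hg i).left, (hg i).right⟩),
        sv_eq he n _ x g (fun i => ⟨(hg i).left, (hg i).right⟩), h]) j hjm
    simpa using this
  have hgp : ∀ x, Dv x e → Gp e e (e * x * e) := fun x hx => hee.mid hdel he hx hee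
  intro x hx
  have hz : Dv (x ^ (1 + D)) e := pow_dv hdel he hx _
  rcases Nat.lt_or_ge j 2 with h2 | h2
  · have h0 : j = 0 := by omega
    subst h0
    have a1 := key x hx
    have a2 := key (x ^ (1 + D)) hz
    simp only [pow_zero, mul_one, he] at a1 a2
    exact Cc.trans hP hdel he (Jc.refl e) he (hgp x hx) hee (hgp _ hz) a1 a2.symm
  · have iter : ∀ y, Dv y e → ∀ i : ℕ, Cc e n (e * y * e) (e * y ^ (j ^ i) * e) := by
      intro y hy i
      induction i with
      | zero => simpa using Cc.refl e n _
      | succ i ih =>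
        have hyi := pow_dv hdel he hy (j ^ i)
        have a1 := key _ hyi
        rw [← pow_mul, ← pow_succ] at a1
        exact Cc.trans hP hdel he (Jc.refl e) he (hgp y hy) (hgp _ hyi)
          (hgp _ (pow_dv hdel he hy _)) ih a1
    have a1 := iter x hx D
    have a2 := iter (x ^ (1 + D)) hz D
    have hjD : D ≤ j ^ D := (Nat.lt_two_pow_self).le.trans (Nat.pow_le_pow_left h2 D)
    have hpos : 1 ≤ j ^ D := hP.1.trans hjD
    have e1 : ∀ k : ℕ, x ^ (D * (k + 1)) = x ^ D := by
      intro k
      induction k with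
      | zero => simp
      | succ k ih => rw [Nat.mul_succ, pow_add, ih, hP.2]
    have e2 : (x ^ (1 + D)) ^ (j ^ D) = x ^ (j ^ D) := by
      obtain ⟨k, hk⟩ : ∃ k, j ^ D = k + 1 := ⟨j ^ D - 1, by omega⟩
      obtain ⟨r, hr⟩ : ∃ r, j ^ D = r + D := ⟨j ^ D - D, by omega⟩
      rw [← pow_mul, add_mul, one_mul, pow_add]
      have : x ^ (D * j ^ D) = x ^ D := by rw [hk]; exact e1 k
      rw [this, hr, pow_add, mul_assoc, hP.2]
    rw [e2] at a2
    exact Cc.trans hP hdel he (Jc.refl e) he (hgp x hx) (hgp _ (pow_dv hdel he hx _)) (hgp _ hz)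
      a1 a2.symm

/-! ### bounding the level -/

lemma stab_aux {α : Type*} [Finite α] (S : ℕ → Set α) (hm : ∀ i, S i ⊆ S (i + 1))
    (hs : ∀ i, S i = S (i + 1) → S (i + 1) = S (i + 2)) (i : ℕ) : S i ⊆ S (Nat.card α) := by
  have hmono : Monotone S := monotone_nat_of_le_succ hm
  by_cases h : ∃ j ≤ Nat.card α, S j = S (j + 1)
  · obtain ⟨j, hj, hjj⟩ := h
    have h1 : ∀ k, S (j + k) = S (j + k + 1) := by
      intro k
      induction k with
      | zero => exact hjj
      | succ k ih => exact hs _ ih
    have h2 : ∀ k, S (j + k) = S j := by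
      intro k
      induction k with
      | zero => rfl
      | succ k ih => rw [← add_assoc, ← h1 k, ih]
    rcases Nat.le_total i j with hij | hij
    · exact (hmono hij).trans (hmono hj)
    · obtain ⟨k, rfl⟩ := Nat.exists_eq_add_of_le hij
      rw [h2 k]
      exact hmono hj
  · exfalso
    push Not at h
    have h1 : ∀ j ≤ Nat.card α + 1, j ≤ (S j).ncard := by
      intro j
      induction j with
      | zero => intro _; exact Nat.zero_le _
      | succ j ih =>
        intro hj
        have h2 := ih (by omega)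
        have h3 : (S j).ncard < (S (j + 1)).ncard :=
          Set.ncard_lt_ncard (lt_of_le_of_ne (hm j) (h j (by omega))) (Set.toFinite _)
        omega
    have h2 := h1 _ le_rfl
    have h3 : (S (Nat.card α + 1)).ncard ≤ Nat.card α := by
      have := Set.ncard_le_card (S (Nat.card α + 1))
      exact this
    omega

lemma cc_bound [Finite M] (e : M) {i : ℕ} {x y : M} (h : Cc e i x y) :
    Cc e (Nat.card M * Nat.card M) x y := by
  have := stab_aux (α := M × M) (fun i => {p | Cc e i p.1 p.2}) (fun i p hp => Cc.mono hp) (by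
    intro i hi
    ext p
    have h1 : ∀ x y : M, Cc e i x y ↔ Cc e (i + 1) x y := fun x y => by
      have := Set.ext_iff.1 hi (x, y)
      exact this
    constructor
    · intro hp g hg
      exact (h1 _ _).1 (hp g hg)
    · intro hp g hg
      exact (h1 _ _).2 (hp g hg)) i (show (x, y) ∈ {p : M × M | Cc e i p.1 p.2} from h)
  rw [Nat.card_prod] at this
  exact this

lemma gam_bound [Finite M] {n : ℕ} (h : Gam D n M) : Gam D (Nat.card M * Nat.card M) M :=
  fun e he x hx => cc_bound e (h e he x hx)

end

end Pool.Agent.H43R2
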