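import Mathlib
import Pool.Agent.H43R2.Gamma
set_option autoImplicit false

/-!
The explicit identity.
-/

namespace Pool.Agent.H43R2

universe u

/-- Zimin word on the letters `0, …, n - 1` -/
def Z : ℕ → List ℕ
  | 0 => []
  | n + 1 => Z n ++ n :: Z n

lemma Z_length (n : ℕ) : (Z n).length + 1 = 2 ^ n := by
  induction n with
  | zero => rfl
  | succ n ih =>
    rw [Z, List.length_append, List.length_cons, pow_succ]
    omega

lemma Z_mem (n y : ℕ) : y ∈ Z n ↔ y < n := by
  induction n with
  | zero => simp [Z]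
  | succ n ih =>
    rw [Z, List.mem_append, List.mem_cons, ih]
    omega

/-- the words of the explicit identity, in steps of `r` letters -/
def wz (r D : ℕ) : ℕ → List ℕ × List ℕ
  | 0 => ([0], List.replicate (1 + D) 0)
  | l + 1 => ((wz r D l).1 ++ (Z r).flatMap (fun y => (1 + r * l + y) :: (wz r D l).1),
      (wz r D l).1 ++ ((Z r).take D).flatMap (fun y => (1 + r * l + y) :: (wz r D l).2) ++
        ((Z r).drop D).flatMap (fun y => (1 + r * l + y) :: (wz r D l).1))

section

variable {M : Type u} [Monoid M]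

/-- value of a word -/
def val (a : ℕ → M) (w : List ℕ) : M := (w.map a).prod

@[simp] lemma val_nil (a : ℕ → M) : val a [] = 1 := rfl

@[simp] lemma val_cons (a : ℕ → M) (x : ℕ) (w : List ℕ) : val a (x :: w) = a x * val a w := by
  simp [val]

@[simp] lemma val_append (a : ℕ → M) (u w : List ℕ) : val a (u ++ w) = val a u * val a w := by
  simp [val]

lemma val_flatMap (a : ℕ → M) (l : List ℕ) (f : ℕ → List ℕ) :
    val a (l.flatMap f) = (l.map (fun y => val a (f y))).prod := by
  induction l with
  | nil => rfl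
  | cons x l ih => simp [ih]

lemma val_replicate (a : ℕ → M) (k x : ℕ) : val a (List.replicate k x) = a x ^ k := by
  simp [val]

/-- products `∏ (c y * z)` -/
def pr (c : ℕ → M) (z : M) (l : List ℕ) : M := (l.map (fun y => c y * z)).prod

lemma pr_nil (c : ℕ → M) (z : M) : pr c z [] = 1 := rfl

lemma pr_append (c : ℕ → M) (z : M) (l l' : List ℕ) : pr c z (l ++ l') = pr c z l * pr c z l' := by
  simp [pr]

lemma pr_single (c : ℕ → M) (z : M) (y : ℕ) : pr c z [y] = c y * z := by
  simp [pr]

/-- values of the explicit words -/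
def vz (r D : ℕ) (a : ℕ → M) (l : ℕ) : M := val a (wz r D l).1

def vb (r D : ℕ) (a : ℕ → M) (l : ℕ) : M := val a (wz r D l).2

lemma vz_zero (r D : ℕ) (a : ℕ → M) : vz r D a 0 = a 0 := by simp [vz, wz]

lemma vb_zero (r D : ℕ) (a : ℕ → M) : vb r D a 0 = a 0 ^ (1 + D) := by
  simp only [vb, wz, val_replicate]

lemma vz_succ (r D : ℕ) (a : ℕ → M) (l : ℕ) : vz r D a (l + 1) =
    vz r D a l * pr (fun y => a (1 + r * l + y)) (vz r D a l) (Z r) := by
  simp only [vz, wz, val_append, val_flatMap, val_cons, pr]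

lemma vb_succ (r D : ℕ) (a : ℕ → M) (l : ℕ) : vb r D a (l + 1) =
    vz r D a l * pr (fun y => a (1 + r * l + y)) (vb r D a l) ((Z r).take D) *
      pr (fun y => a (1 + r * l + y)) (vz r D a l) ((Z r).drop D) := by
  simp only [vz, vb, wz, val_append, val_flatMap, val_cons, pr]

lemma pr_dv_letter (c : ℕ → M) (z : M) (l : List ℕ) (y : ℕ) (hy : y ∈ l) :
    Dv (c y) (pr c z l) := by
  obtain ⟨p, q, rfl⟩ := List.append_of_mem hy
  have : pr c z (p ++ y :: q) = (pr c z p) * (c y) * (z * pr c z q) := by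
    rw [show p ++ y :: q = p ++ [y] ++ q by simp, pr_append, pr_append, pr_single]
    simp only [mul_assoc]
  rw [this]
  exact Dv.mid _ _ _

lemma vz_dv (r D : ℕ) (a : ℕ → M) {l l' : ℕ} (h : l ≤ l') : Dv (vz r D a l) (vz r D a l') := by
  induction h with
  | refl => exact Dv.refl _
  | step _ ih => rw [Nat.succ_eq_add_one, vz_succ]; exact ih.mul_right _

lemma vz_dv_letter (r D : ℕ) (a : ℕ → M) (l y : ℕ) (hy : y < r) :
    Dv (a (1 + r * l + y)) (vz r D a (l + 1)) := by
  rw [vz_succ]
  exact (pr_dv_letter (fun y => a (1 + r * l + y)) _ _ y ((Z_mem r y).2 hy)).mul_left _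

/-- replacing some factors `x` by `x ^ (1 + D)` -/
inductive Dec (e x : M) (D : ℕ) : M → M → Prop
  | one : Dec e x D 1 1
  | lett (c w w' : M) : Dv c e → Dec e x D w w' → Dec e x D (w * c) (w' * c)
  | dec (w w' : M) : Dec e x D w w' → Dec e x D (w * x) (w' * x ^ (1 + D))

lemma Dec.mul {e x : M} {D : ℕ} {w w' v v' : M} (h : Dec e x D w w') (h2 : Dec e x D v v') :
    Dec e x D (w * v) (w' * v') := by
  induction h2 with
  | one => simpa using h
  | lett c v v' hc _ ih => rw [← mul_assoc, ← mul_assoc]; exact Dec.lett _ _ _ hc ih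
  | dec v v' _ ih => rw [← mul_assoc, ← mul_assoc]; exact Dec.dec _ _ ih

lemma Dec.letter {e x : M} {D : ℕ} {c : M} (hc : Dv c e) : Dec e x D c c := by
  simpa using Dec.lett c 1 1 hc (Dec.one (e := e) (x := x) (D := D))

lemma Dec.dv (hdel : Del M) {e x : M} {D : ℕ} (he : e * e = e) (hx : Dv x e) {w w' : M}
    (h : Dec e x D w w') : Dv w e ∧ Dv w' e := by
  induction h with
  | one => exact ⟨Dv.one e, Dv.one e⟩
  | lett c w w' hc _ ih => exact ⟨mul_dv hdel he ih.1 hc, mul_dv hdel he ih.2 hc⟩
  | dec w w' _ ih => exact ⟨mul_dv hdel he ih.1 hx, mul_dv hdel he ih.2 (pow_dv hdel he hx _)⟩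

lemma Dec.pr {e x : M} {D : ℕ} (c : ℕ → M) (z b : M) (hzb : Dec e x D z b) (l : List ℕ)
    (hc : ∀ y ∈ l, Dv (c y) e) : Dec e x D (pr c z l) (pr c b l) := by
  induction l with
  | nil => exact Dec.one
  | cons y l ih =>
    rw [show y :: l = [y] ++ l by rfl, pr_append, pr_append, pr_single, pr_single]
    exact ((Dec.letter (hc y (by simp))).mul hzb).mul (ih fun y hy => hc y (by simp [hy]))

variable {D : ℕ}

/-- Lemma Q -/
lemma cc_insert (hP : Per D M) (hdel : Del M) {s : ℕ} (hG : Gam D s M) {e : M} (he : e * e = e)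
    {h k x : M} (hh : Jc e h) (hk : Jc e k) (hx : Dv x e) :
    Cc e s (h * x * k) (h * x ^ (1 + D) * k) := by
  set ε := (k * h) ^ D with hε
  have h1 : ε * k = k := idem_left hP hdel he hk hh.1
  have h2 : h * ε = h := idem_right hP hdel he hh hk.1
  have h3 : ε * ε = ε := hP.2 _
  have h4 : Jc e ε := (hk.mul_right hdel he hh.1).pow hdel he hP.1
  have h5 := (hG ε h3 x (hx.trans h4.2)).congr h4.symm
  have h6 := h5.transl hdel he hh.1 hk.1
  have e1 : ∀ x : M, h * (ε * x * ε) * k = h * x * k := by
    intro x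
    calc h * (ε * x * ε) * k = (h * ε) * x * (ε * k) := by simp only [mul_assoc]
      _ = _ := by rw [h1, h2]
  rw [e1, e1] at h6
  exact h6

lemma Dec.cc (hP : Per D M) (hdel : Del M) {s : ℕ} (hG : Gam D s M) {e x : M} (he : e * e = e)
    (hx : Dv x e) {h : M} (hh : Jc e h) {w w' : M} (hw : Dec e x D w w') :
    ∀ k, Jc e k → Cc e s (h * w * k) (h * w' * k) := by
  induction hw with
  | one => intro k _; exact Cc.refl _ _ _
  | lett c w w' hc _ ih =>
    intro k hk
    have := ih (c * k) (hk.mul_left hdel he hc)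
    simpa only [mul_assoc] using this
  | dec w w' hww ih =>
    intro k hk
    obtain ⟨d1, d2⟩ := hww.dv hdel he hx
    have h1 := ih (x * k) (hk.mul_left hdel he hx)
    have h2 := cc_insert hP hdel hG he (hh.mul_right hdel he d2) hk hx
    -- group idempotent
    set f := (h * k) ^ D with hf
    have f1 : f * h = h := idem_left hP hdel he hh hk.1
    have f2 : k * f = k := idem_right hP hdel he hk hh.1
    have f3 : f * f = f := hP.2 _
    have f4 : Jc e f := (hh.mul_right hdel he hk.1).pow hdel he hP.1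
    have gp : ∀ v, Dv v e → Gp e f (h * v * k) := by
      intro v hv
      exact ⟨(hh.mul_right hdel he hv).mul_right hdel he hk.1,
        by rw [← mul_assoc, ← mul_assoc, f1], by rw [mul_assoc, f2]⟩
    have g1 := gp (w * x) (mul_dv hdel he d1 hx)
    have g2 := gp (w' * x) (mul_dv hdel he d2 hx)
    have g3 := gp (w' * x ^ (1 + D)) (mul_dv hdel he d2 (pow_dv hdel he hx _))
    refine Cc.trans hP hdel he f4 f3 g1 g2 g3 ?_ ?_
    · simpa only [mul_assoc] using h1
    · simpa only [mul_assoc] using h2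

/-- the averaging step -/
lemma cc_average (hP : Per D M) (hdel : Del M) {e f : M} (he : e * e = e) (hef : Jc e f)
    (hf : f * f = f) {i : ℕ} {z b : M} (hz : Gp e f z) (hb : Gp e f b)
    (hzb : Cc e (i + 1) z b) (c : ℕ → M) (l : List ℕ) (hl : l.length = D)
    (hc : ∀ y ∈ l, Dv (c y) e) : Cc e i (z * pr c z l) (z * pr c b l) := by
  set δ := z ^ (D - 1) * b with hδ
  have hzd : Dv (z ^ (D - 1)) e := pow_dv hdel he hz.jc.1 _
  have hzδ : z * δ = b := by
    rw [hδ, ← mul_assoc, hz.mul_inv hP hdel he hef hf, hb.left]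
  have hfz : f * z ^ (D - 1) * f = z ^ (D - 1) * f := by
    have hc : ∀ n : ℕ, f * z ^ n * f = z ^ n * f := by
      intro n
      induction n with
      | zero => simp [hf]
      | succ n ih => rw [pow_succ', ← mul_assoc, hz.left]
    exact hc _
  have hδg : Gp e f δ := by
    refine ⟨hb.jc.mul_left hdel he hzd, ?_, by rw [hδ, mul_assoc, hb.right]⟩
    calc f * δ = f * z ^ (D - 1) * f * b := by
          rw [hδ]
          rw [mul_assoc (f * z ^ (D - 1)), hb.left, mul_assoc]
      _ = δ := by rw [hfz, mul_assoc, hb.left]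
  have hfδ : Cc e (i + 1) f δ := by
    have := hzb.left hdel he hzd
    rwa [hz.inv_mul hP hdel he hef hf] at this
  have comm : ∀ g, Gp e f g → Cc e i (g * δ) (δ * g) := by
    intro g hg
    have := hfδ g hg.jc
    rwa [hg.left, mul_assoc δ, hg.right] at this
  have gpow : ∀ g, Gp e f g → ∀ j : ℕ, Gp e f (g * δ ^ j) ∧ Gp e f (δ ^ j * g) := by
    intro g hg j
    induction j with
    | zero => simpa using hg
    | succ j ih =>
      constructor
      · rw [pow_succ, ← mul_assoc]; exact ih.1.mul hdel he hδg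
      · rw [pow_succ', mul_assoc]; exact hδg.mul hdel he ih.2
  have commj : ∀ g, Gp e f g → ∀ j : ℕ, Cc e i (g * δ ^ j) (δ ^ j * g) := by
    intro g hg j
    induction j with
    | zero => simpa using Cc.refl e i g
    | succ j ih =>
      have h1 := ih.right hdel he hδg.jc.1
      have h2 := (comm g hg).left hdel he (pow_dv hdel he hδg.jc.1 j)
      have g1 : Gp e f (g * δ ^ j * δ) := ((gpow g hg j).1).mul hdel he hδg
      have g2 : Gp e f (δ ^ j * g * δ) := ((gpow g hg j).2).mul hdel he hδg
      have g3 : Gp e f (δ ^ j * (δ * g)) := by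
        have := (gpow g hg (j + 1)).2
        rwa [pow_succ, mul_assoc] at this
      rw [← mul_assoc (δ ^ j)] at h2
      have h3 := Cc.trans hP hdel he hef hf g1 g2 g3 h1 h2
      rw [pow_succ, ← mul_assoc, mul_assoc (δ ^ j)]
      exact h3
  have gz : ∀ l : List ℕ, (∀ y ∈ l, Dv (c y) e) → Gp e f (z * pr c z l) := by
    intro l
    induction l using List.reverseRecOn with
    | nil => intro _; simpa [pr_nil] using hz
    | append_singleton l y ih =>
      intro hc
      rw [pr_append, pr_single, ← mul_assoc, ← mul_assoc]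
      exact (ih fun y hy => hc y (by simp [hy])).mid hdel he (hc y (by simp)) hz
  have gb : ∀ l : List ℕ, (∀ y ∈ l, Dv (c y) e) → Gp e f (z * pr c b l) := by
    intro l
    induction l using List.reverseRecOn with
    | nil => intro _; simpa [pr_nil] using hz
    | append_singleton l y ih =>
      intro hc
      rw [pr_append, pr_single, ← mul_assoc, ← mul_assoc]
      exact (ih fun y hy => hc y (by simp [hy])).mid hdel he (hc y (by simp)) hb
  have main : ∀ l : List ℕ, (∀ y ∈ l, Dv (c y) e) →
      Cc e i (z * pr c b l) (z * pr c z l * δ ^ l.length) := by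
    intro l
    induction l using List.reverseRecOn with
    | nil => intro _; simpa [pr_nil] using Cc.refl e i z
    | append_singleton l y ih =>
      intro hc
      have hcl : ∀ y ∈ l, Dv (c y) e := fun y hy => hc y (by simp [hy])
      have hy : Dv (c y) e := hc y (by simp)
      have h1 := (ih hcl).right hdel he (mul_dv hdel he hy hb.jc.1)
      obtain ⟨g, hg⟩ : ∃ g, g = f * c y * z := ⟨_, rfl⟩
      have hgG : Gp e f g := hg ▸ (Gp.self hef hf).mid hdel he hy hz
      obtain ⟨Y, hY⟩ : ∃ Y, Y = z * pr c z l := ⟨_, rfl⟩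
      have hYG : Gp e f Y := hY ▸ gz l hcl
      rw [← hY] at h1
      set j := l.length with hj
      -- Y δ^j c z δ = Y (δ^j g) δ
      have e1 : Y * δ ^ j * (c y * b) = Y * (δ ^ j * g) * δ := by
        have : Y * δ ^ j * f = Y * δ ^ j := (gpow Y hYG j).1.right
        calc Y * δ ^ j * (c y * b) = (Y * δ ^ j * f) * (c y * (z * δ)) := by rw [this, hzδ]
          _ = _ := by rw [hg]; simp only [mul_assoc]
      have e2 : Y * (g * δ ^ j) * δ = Y * (c y * z) * δ ^ (j + 1) := by
        calc Y * (g * δ ^ j) * δ = (Y * f) * c y * z * (δ ^ j * δ) := by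
              rw [hg]; simp only [mul_assoc]
          _ = _ := by rw [hYG.right, ← pow_succ]; simp only [mul_assoc]
      have h2 := ((commj g hgG j).symm.left hdel he hYG.jc.1).right hdel he hδg.jc.1
      rw [e1] at h1
      rw [pr_append, pr_single, pr_append, pr_single, List.length_append, List.length_singleton,
        ← hj]
      have k1 : Gp e f (z * pr c b l * (c y * b)) := by
        rw [← mul_assoc]; exact (gb l hcl).mid hdel he hy hb
      have k2 : Gp e f (Y * (δ ^ j * g) * δ) :=
        (hYG.mul hdel he (gpow g hgG j).2).mul hdel he hδg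
      have k3 : Gp e f (Y * (g * δ ^ j) * δ) :=
        (hYG.mul hdel he (gpow g hgG j).1).mul hdel he hδg
      have h3 := Cc.trans hP hdel he hef hf k1 k2 k3 h1 h2
      rw [e2, hY] at h3
      simpa only [mul_assoc] using h3
  have h1 := main l hc
  rw [hl, hδg.pow_eq hP hdel he hef hf, (gz l hc).right] at h1
  exact h1.symm

/-- The explicit identity holds. -/
theorem explicit [Finite M] (hP : Per D M) (hdel : Del M) {s : ℕ} (hG : Gam D s M) (r : ℕ)
    (hr : D + 1 ≤ (Z r).length) (a : ℕ → M) :
    vz r D a (Nat.card M * (s + 1)) = vb r D a (Nat.card M * (s + 1)) := by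
  set z := vz r D a with hz
  set b := vb r D a with hb
  set m := Nat.card M with hm
  -- window
  obtain ⟨q, hq, hwin⟩ : ∃ q < m, Dv (z ((q + 1) * (s + 1))) (z (q * (s + 1))) := by
    by_contra hcon
    push Not at hcon
    have hni : ¬ Function.Injective (fun q : Fin (m + 1) => z (q * (s + 1))) := by
      intro hinj
      have := Nat.card_le_card_of_injective _ hinj
      rw [Nat.card_eq_fintype_card, Fintype.card_fin] at this
      omega
    obtain ⟨i, j, hij, hlt⟩ : ∃ i j : Fin (m + 1), z (i * (s + 1)) = z (j * (s + 1)) ∧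
        i.1 < j.1 := by
      simp only [Function.Injective, not_forall] at hni
      obtain ⟨i, j, h1, h2⟩ := hni
      rcases lt_or_gt_of_ne (fun h => h2 (Fin.ext h)) with h | h
      · exact ⟨i, j, h1, h⟩
      · exact ⟨j, i, h1.symm, h⟩
    apply hcon i.1 (by have := j.2; omega)
    rw [hij]
    exact vz_dv r D a (Nat.mul_le_mul_right _ hlt)
  set l0 := q * (s + 1) with hl0
  have hl1 : (q + 1) * (s + 1) = l0 + 1 + s := by rw [hl0]; ring
  rw [hl1] at hwin
  have hle : l0 + 1 + s ≤ m * (s + 1) := by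
    rw [← hl1]; exact Nat.mul_le_mul_right _ hq
  -- splitting Z r
  obtain ⟨ys, y0, hys⟩ : ∃ ys y0, (Z r).drop D = ys ++ [y0] := by
    have : (Z r).drop D ≠ [] := by
      intro h
      have := congrArg List.length h
      simp only [List.length_drop, List.length_nil] at this
      omega
    exact ⟨_, _, (List.dropLast_append_getLast this).symm⟩
  have hzr : ((Z r).take D).length = D := by rw [List.length_take]; omega
  have hsplit : Z r = (Z r).take D ++ (ys ++ [y0]) := by rw [← hys, List.take_append_drop]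
  -- the structure of the next stage
  have hzs : ∀ l, z (l + 1) = z l * (pr (fun y => a (1 + r * l + y)) (z l) ((Z r).take D) *
      pr (fun y => a (1 + r * l + y)) (z l) ys * a (1 + r * l + y0)) * z l := by
    intro l
    rw [hz, vz_succ, hsplit, pr_append, pr_append, pr_single]
    rw [← hsplit]
    simp only [mul_assoc]
  have hbs : ∀ l, b (l + 1) = z l * (pr (fun y => a (1 + r * l + y)) (b l) ((Z r).take D) *
      pr (fun y => a (1 + r * l + y)) (z l) ys * a (1 + r * l + y0)) * z l := by
    intro l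
    rw [hb, vb_succ, hys, pr_append, pr_single]
    simp only [mul_assoc]
    rfl
  have hbs2 : ∀ l, b (l + 1) = z l * pr (fun y => a (1 + r * l + y)) (b l) ((Z r).take D) *
      pr (fun y => a (1 + r * l + y)) (z l) ((Z r).drop D) := fun l => vb_succ r D a l
  have hzs2 : ∀ l, z (l + 1) = z l * pr (fun y => a (1 + r * l + y)) (z l) ((Z r).take D) *
      pr (fun y => a (1 + r * l + y)) (z l) ((Z r).drop D) := by
    intro l
    rw [hz, vz_succ, mul_assoc, ← pr_append, List.take_append_drop]
  -- the idempotent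
  obtain ⟨e, he, hez⟩ : ∃ e : M, e * e = e ∧ Jc e (z l0) := by
    have h1 : Dv (z (l0 + 1)) (z l0) := (vz_dv r D a (by omega)).trans hwin
    rw [hzs] at h1
    obtain ⟨y, hy⟩ : ∃ y, y = (pr (fun y => a (1 + r * l0 + y)) (z l0) ((Z r).take D) *
      pr (fun y => a (1 + r * l0 + y)) (z l0) ys * a (1 + r * l0 + y0)) := ⟨_, rfl⟩
    rw [← hy] at h1
    obtain ⟨s', t', e1⟩ := h1
    have h3 : ∀ n : ℕ, (s' * z l0 * y) ^ n * z l0 * t' ^ n = z l0 := by
      intro n
      induction n with
      | zero => simp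
      | succ n ih =>
        have : (s' * z l0 * y) ^ (n + 1) * z l0 * t' ^ (n + 1) =
            (s' * z l0 * y) ^ n * (s' * (z l0 * y * z l0) * t') * t' ^ n := by
          rw [pow_succ (s' * z l0 * y), pow_succ' t']
          simp only [mul_assoc]
        rw [this, e1, ih]
    refine ⟨(s' * z l0 * y) ^ D, hP.2 _, ?_, ?_⟩
    · obtain ⟨n, hn⟩ : ∃ n, D = n + 1 := ⟨D - 1, by have := hP.1; omega⟩
      rw [hn, pow_succ]
      exact Dv.mul_left _ (Dv.mid _ _ _)
    · have h4 := h3 D
      refine ⟨1, z l0 * t' ^ D, ?_⟩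
      rw [one_mul, ← mul_assoc, h4]
  set f := (z l0) ^ D with hf
  have hff : f * f = f := hP.2 _
  have hef : Jc e f := hez.pow hdel he hP.1
  have hz0 : Gp e f (z l0) := by
    refine ⟨hez, ?_, ?_⟩
    · have := idem_left hP hdel he hez (Dv.one e)
      simpa using this
    · have := idem_right hP hdel he hez (Dv.one e)
      simpa using this
  -- letters
  have hlet : ∀ l, l < l0 + 1 + s → ∀ y < r, Dv (a (1 + r * l + y)) e := by
    intro l hl y hy
    exact (((vz_dv_letter r D a l y hy).trans (vz_dv r D a (by omega))).trans hwin).trans hez.1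
  have hx : Dv (a 0) e := by
    have h1 : Dv (z 0) (z l0) := vz_dv r D a (Nat.zero_le _)
    rw [hz, vz_zero] at h1
    exact h1.trans hez.1
  have htake : ∀ l, l < l0 + 1 + s → ∀ y ∈ (Z r).take D, Dv (a (1 + r * l + y)) e :=
    fun l hl y hy => hlet l hl y ((Z_mem r y).1 (List.mem_of_mem_take hy))
  have hdrop : ∀ l, l < l0 + 1 + s → ∀ y ∈ (Z r).drop D, Dv (a (1 + r * l + y)) e :=
    fun l hl y hy => hlet l hl y ((Z_mem r y).1 (List.mem_of_mem_drop hy))
  have hdec : ∀ l, l ≤ l0 → Dec e (a 0) D (z l) (b l) := by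
    intro l
    induction l with
    | zero =>
      intro _
      rw [hz, hb, vz_zero, vb_zero]
      simpa using Dec.dec (e := e) (x := a 0) (D := D) 1 1 Dec.one
    | succ l ih =>
      intro hl
      have h1 := ih (by omega)
      have h2 : Dec e (a 0) D (z l) (z l) := Dec.letter
        ((vz_dv r D a (by omega : l ≤ l0)).trans hez.1)
      rw [hzs2, hbs2]
      exact (h2.mul (Dec.pr _ _ _ h1 _ (htake l (by omega)))).mul
        (Dec.pr _ _ _ h2 _ (hdrop l (by omega)))
  -- first step
  have hstep0 : Gp e f (z (l0 + 1)) ∧ Gp e f (b (l0 + 1)) ∧ Cc e s (z (l0 + 1)) (b (l0 + 1)) := by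
    have h2 : Dec e (a 0) D (z l0) (z l0) := Dec.letter hez.1
    have hysm : ∀ y ∈ ys, Dv (a (1 + r * l0 + y)) e := fun y hy =>
      hdrop l0 (by omega) y (by rw [hys]; simp [hy])
    have hy0m : Dv (a (1 + r * l0 + y0)) e := hdrop l0 (by omega) y0 (by rw [hys]; simp)
    have h3 : Dec e (a 0) D (pr (fun y => a (1 + r * l0 + y)) (z l0) ((Z r).take D) *
        pr (fun y => a (1 + r * l0 + y)) (z l0) ys * a (1 + r * l0 + y0))
        (pr (fun y => a (1 + r * l0 + y)) (b l0) ((Z r).take D) *
        pr (fun y => a (1 + r * l0 + y)) (z l0) ys * a (1 + r * l0 + y0)) :=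
      ((Dec.pr _ _ _ (hdec l0 le_rfl) _ (htake l0 (by omega))).mul
        (Dec.pr _ _ _ h2 _ hysm)).mul (Dec.letter hy0m)
    obtain ⟨d1, d2⟩ := h3.dv hdel he hx
    rw [hzs, hbs]
    exact ⟨hz0.mid hdel he d1 hz0, hz0.mid hdel he d2 hz0,
      h3.cc hP hdel hG he hx hez _ hez⟩
  have hsteps : ∀ i, i ≤ s → Gp e f (z (l0 + 1 + i)) ∧ Gp e f (b (l0 + 1 + i)) ∧
      Cc e (s - i) (z (l0 + 1 + i)) (b (l0 + 1 + i)) := by
    intro i
    induction i with
    | zero => intro _; exact hstep0
    | succ i ih =>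
      intro hi
      obtain ⟨g1, g2, g3⟩ := ih (by omega)
      set l := l0 + 1 + i with hl
      have hl' : l < l0 + 1 + s := by omega
      have e1 : l0 + 1 + (i + 1) = l + 1 := by omega
      rw [e1]
      have e2 : s - i = (s - (i + 1)) + 1 := by omega
      rw [e2] at g3
      have h1 := cc_average hP hdel he hef hff g1 g2 g3 (fun y => a (1 + r * l + y))
        ((Z r).take D) hzr (htake l hl')
      have hR : Dv (pr (fun y => a (1 + r * l + y)) (z l) ((Z r).drop D)) e := by
        apply list_prod_dv hdel he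
        intro x hx
        rw [List.mem_map] at hx
        obtain ⟨y, hy, rfl⟩ := hx
        exact mul_dv hdel he (hdrop l hl' y hy) g1.jc.1
      have h2 := h1.right hdel he hR
      rw [← hzs2, ← hbs2] at h2
      have hysm : ∀ y ∈ ys, Dv (a (1 + r * l + y)) e := fun y hy =>
        hdrop l hl' y (by rw [hys]; simp [hy])
      have hy0m : Dv (a (1 + r * l + y0)) e := hdrop l hl' y0 (by rw [hys]; simp)
      have prdv : ∀ w, Dv w e → ∀ l' : List ℕ, (∀ y ∈ l', Dv (a (1 + r * l + y)) e) →
          Dv (pr (fun y => a (1 + r * l + y)) w l') e := by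
        intro w hw l' hl'
        apply list_prod_dv hdel he
        intro x hx
        rw [List.mem_map] at hx
        obtain ⟨y, hy, rfl⟩ := hx
        exact mul_dv hdel he (hl' y hy) hw
      refine ⟨?_, ?_, h2⟩
      · rw [hzs]
        exact g1.mid hdel he (mul_dv hdel he (mul_dv hdel he (prdv _ g1.jc.1 _ (htake l hl'))
          (prdv _ g1.jc.1 _ hysm)) hy0m) g1
      · rw [hbs]
        exact g1.mid hdel he (mul_dv hdel he (mul_dv hdel he (prdv _ g2.jc.1 _ (htake l hl'))
          (prdv _ g1.jc.1 _ hysm)) hy0m) g1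
  obtain ⟨-, -, h0⟩ := hsteps s le_rfl
  rw [Nat.sub_self] at h0
  have heq : ∀ l, l0 + 1 + s ≤ l → z l = b l := by
    intro l hl
    induction hl with
    | refl => exact h0
    | step _ ih => rw [Nat.succ_eq_add_one, hzs2, hbs2, ← ih]
  exact heq _ hle

end

end Pool.Agent.H43R2
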