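import Mathlib
import Pool.Agent.H43R2.Explicit
set_option autoImplicit false

/-!
From an arbitrary identity violating a Zimin isoterm to a decorated identity, and the explicit
identity as a Zimin identity.
-/

namespace Pool.Agent.H43R2

universe u

/-- decorated Zimin word -/
def dw : (n : ℕ) → T n → List ℕ
  | 0, k => List.replicate (show ℕ from k) 0
  | n + 1, t => dw n t.1 ++ (n + 1) :: dw n t.2

lemma dw_one (n : ℕ) : dw n (one n) = Z (n + 1) := by
  induction n with
  | zero => rfl
  | succ n ih => rw [dw, one, ih]; rfl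

lemma val_dw {M : Type u} [Monoid M] (a : ℕ → M) (n : ℕ) (t : T n) :
    val a (dw n t) = ev n t (a 0) (fun i => a (i + 1)) := by
  induction n with
  | zero => exact val_replicate a _ 0
  | succ n ih => rw [dw, val_append, val_cons, ih, ih, ev, mul_assoc]

lemma dw_lt (n : ℕ) (t : T n) (x : ℕ) (hx : x ∈ dw n t) : x < n + 1 := by
  induction n with
  | zero =>
    have := List.eq_of_mem_replicate hx
    omega
  | succ n ih =>
    rw [dw, List.mem_append, List.mem_cons] at hx
    rcases hx with hx | rfl | hx
    · have := ih _ hx; omega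
    · omega
    · have := ih _ hx; omega

/-- erase the letter zero -/
def kill : ℕ → List ℕ
  | 0 => []
  | i + 1 => [i]

lemma kill_dw (n : ℕ) (t : T n) : (dw n t).flatMap kill = Z n := by
  induction n with
  | zero =>
    change (List.replicate (show ℕ from t) 0).flatMap kill = []
    rw [List.flatMap_eq_nil_iff]
    intro x hx
    rw [List.eq_of_mem_replicate hx]
    rfl
  | succ n ih => rw [dw, List.flatMap_append, List.flatMap_cons, ih, ih, Z]; rfl

lemma exists_dw (n : ℕ) : ∀ W : List ℕ, W.flatMap kill = Z n → ∃ t : T n, W = dw n t := by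
  induction n with
  | zero =>
    intro W hW
    refine ⟨W.length, ?_⟩
    change W = List.replicate W.length 0
    rw [List.eq_replicate_iff]
    refine ⟨rfl, fun x hx => ?_⟩
    have h1 := List.flatMap_eq_nil_iff.1 (show W.flatMap kill = [] from hW) x hx
    cases x with
    | zero => rfl
    | succ x => simp [kill] at h1
  | succ n ih =>
    intro W hW
    have key : ∀ (W p q : List ℕ) (y : ℕ), W.flatMap kill = p ++ y :: q →
        ∃ P Q, W = P ++ (y + 1) :: Q ∧ P.flatMap kill = p ∧ Q.flatMap kill = q := by
      intro W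
      induction W with
      | nil => intro p q y h; simp at h
      | cons x W ihW =>
        intro p q y h
        rw [List.flatMap_cons] at h
        cases x with
        | zero =>
          obtain ⟨P, Q, h1, h2, h3⟩ := ihW p q y (by simpa [kill] using h)
          exact ⟨0 :: P, Q, by rw [h1]; rfl, by simpa [kill] using h2, h3⟩
        | succ x =>
          cases p with
          | nil =>
            simp only [kill, List.cons_append, List.nil_append, List.cons.injEq] at h
            exact ⟨[], W, by rw [h.1]; rfl, rfl, h.2⟩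
          | cons z p =>
            simp only [kill, List.cons_append, List.nil_append, List.cons.injEq] at h
            obtain ⟨P, Q, h1, h2, h3⟩ := ihW p q y h.2
            exact ⟨(x + 1) :: P, Q, by rw [h1]; rfl, by simp [kill, h2, h.1], h3⟩
    obtain ⟨P, Q, h1, h2, h3⟩ := key W _ _ _ hW
    obtain ⟨t1, ht1⟩ := ih P h2
    obtain ⟨t2, ht2⟩ := ih Q h3
    exact ⟨(t1, t2), by rw [h1, ht1, ht2]; rfl⟩

/-- equational theory of `M` -/
def Eq' (M : Type u) [Monoid M] (v w : List ℕ) : Prop := ∀ a : ℕ → M, val a v = val a w

/-- every Zimin word is an isoterm -/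
def Iso (M : Type u) [Monoid M] : Prop := ∀ n W, Eq' M (Z n) W → W = Z n

lemma val_subst {M : Type u} [Monoid M] (a : ℕ → M) (w : List ℕ) (σ : ℕ → List ℕ) :
    val a (w.flatMap σ) = val (fun y => val a (σ y)) w := by
  rw [val_flatMap]; rfl

lemma Eq'.subst {M : Type u} [Monoid M] {v w : List ℕ} (h : Eq' M v w) (σ : ℕ → List ℕ) :
    Eq' M (v.flatMap σ) (w.flatMap σ) := by
  intro a
  rw [val_subst, val_subst, h]

theorem special_of_not_iso {M : Type u} [Monoid M] (h : ¬ Iso M) :
    ∃ (n : ℕ) (t : T n), t ≠ one n ∧ ∀ (x : M) (g : ℕ → M), ev n (one n) x g = ev n t x g := by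
  classical
  have hex : ∃ n W, Eq' M (Z n) W ∧ W ≠ Z n := by
    unfold Iso at h
    push Not at h
    exact h
  have hfind := Nat.find_spec hex
  have hmin : ∀ m < Nat.find hex, ∀ W, Eq' M (Z m) W → W = Z m := by
    intro m hm W hW
    by_contra hne
    exact Nat.find_min hex hm ⟨W, hW, hne⟩
  obtain ⟨W, hW, hne⟩ := hfind
  generalize Nat.find hex = n at *
  cases n with
  | zero =>
    refine ⟨0, (W.length + 1 : ℕ), ?_, ?_⟩
    · intro h
      have h2 : W.length + 1 = 1 := h
      exact hne (List.eq_nil_of_length_eq_zero (by omega))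
    · intro x g
      have h1 := hW (fun _ => x)
      have h2 : val (fun _ : ℕ => x) W = x ^ W.length := by
        simp [val]
      rw [h2] at h1
      change x ^ 1 = x ^ (W.length + 1)
      rw [pow_succ x W.length, ← h1]
      simp [Z]
  | succ n =>
    have h1 := hW.subst kill
    rw [← dw_one, kill_dw] at h1
    have h2 := hmin n (by omega) _ h1
    obtain ⟨t, ht⟩ := exists_dw n W h2
    refine ⟨n, t, ?_, ?_⟩
    · intro h
      apply hne
      rw [ht, h, dw_one]
    · intro x g
      have h3 := hW (fun i => match i with | 0 => x | i + 1 => g i)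
      rw [ht, ← dw_one, val_dw, val_dw] at h3
      exact h3

/-! ### the explicit identity -/

lemma Z_add (j r : ℕ) : Z (j + r) = Z j ++ (Z r).flatMap (fun y => (j + y) :: Z j) := by
  induction r with
  | zero => simp [Z]
  | succ r ih =>
    rw [← add_assoc, Z, ih]
    conv_rhs => rw [Z]
    simp [List.flatMap_append, List.flatMap_cons]

lemma wz_fst (r D l : ℕ) : (wz r D l).1 = Z (1 + r * l) := by
  induction l with
  | zero => rfl
  | succ l ih =>
    rw [show 1 + r * (l + 1) = (1 + r * l) + r by ring, Z_add (1 + r * l) r, ← ih]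
    rfl

lemma length_fm (l : List ℕ) (f : ℕ → ℕ) (w : List ℕ) :
    (l.flatMap (fun y => f y :: w)).length = l.length * (w.length + 1) := by
  induction l with
  | nil => simp
  | cons x l ih => rw [List.flatMap_cons, List.length_append, ih, List.length_cons,
      List.length_cons]; ring

lemma wz_length (r D : ℕ) (hD : 1 ≤ D) (hr : D ≤ (Z r).length) (l : ℕ) :
    (wz r D l).1.length < (wz r D l).2.length := by
  induction l with
  | zero => simp [wz]; omega
  | succ l ih =>
    rw [wz]
    simp only [List.length_append, length_fm, List.length_take, List.length_drop]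
    rw [min_eq_left hr]
    obtain ⟨k, hk⟩ : ∃ k, (Z r).length = D + k := ⟨(Z r).length - D, by omega⟩
    rw [hk, Nat.add_sub_cancel_left]
    nlinarith

theorem not_iso_of_explicit {M : Type u} [Monoid M] (r D l : ℕ) (hD : 1 ≤ D)
    (hr : D ≤ (Z r).length) (h : ∀ a : ℕ → M, vz r D a l = vb r D a l) : ¬ Iso M := by
  intro hiso
  have h1 := hiso (1 + r * l) (wz r D l).2 (by
    intro a
    rw [← wz_fst]
    exact h a)
  have h2 := wz_length r D hD hr l
  rw [wz_fst, ← h1] at h2
  omega

theorem explicit_of_not_iso {M : Type u} [Monoid M] [Finite M] {D : ℕ} (hP : Per D M)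
    (h : ¬ Iso M) (r : ℕ) (hr : D + 1 ≤ (Z r).length) (a : ℕ → M) :
    vz r D a (Nat.card M * (Nat.card M * Nat.card M + 1)) =
      vb r D a (Nat.card M * (Nat.card M * Nat.card M + 1)) := by
  obtain ⟨n, t, ht, hev⟩ := special_of_not_iso h
  exact explicit hP (del_of_ev n t ht hev) (gam_bound (gam_of_ev hP n t ht hev)) r hr a

end Pool.Agent.H43R2
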