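import Mathlib
import Pool.Agent.H43R2.Words
set_option autoImplicit false

/-!
Alternating words and the insertion lemma.
-/

namespace Pool.Agent.H43R2

universe u v w

section alt

variable {A : Type u} {B : Type v}

/-- consecutive elements have different colours -/
def Alt (c : A → Bool) (w : List A) : Prop := w.IsChain (fun x y => c x ≠ c y)

/-- colour of the first element -/
def hd (c : A → Bool) (w : List A) : Option Bool := w.head?.map c

/-- colour of the last element -/
def tl (c : A → Bool) (w : List A) : Option Bool := w.getLast?.map c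

lemma hd_append (c : A → Bool) (a b : List A) : hd c (a ++ b) = (hd c a).or (hd c b) := by
  cases a <;> simp [hd]

lemma tl_append (c : A → Bool) (a b : List A) : tl c (a ++ b) = (tl c b).or (tl c a) := by
  unfold tl
  rw [List.getLast?_append]
  cases b.getLast? <;> simp

lemma alt_append (c : A → Bool) (a b : List A) : Alt c (a ++ b) ↔
    Alt c a ∧ Alt c b ∧ ∀ x ∈ tl c a, ∀ y ∈ hd c b, x ≠ y := by
  unfold Alt
  rw [List.isChain_append]
  simp only [tl, hd, Option.mem_def, Option.map_eq_some_iff]
  constructor
  · rintro ⟨h1, h2, h3⟩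
    refine ⟨h1, h2, ?_⟩
    rintro x ⟨x', hx', rfl⟩ y ⟨y', hy', rfl⟩
    exact h3 x' hx' y' hy'
  · rintro ⟨h1, h2, h3⟩
    refine ⟨h1, h2, ?_⟩
    intro x hx y hy
    exact h3 _ ⟨x, hx, rfl⟩ _ ⟨y, hy, rfl⟩

lemma hd_eq_none (c : A → Bool) (a : List A) : hd c a = none ↔ a = [] := by
  cases a <;> simp [hd]

lemma tl_eq_none (c : A → Bool) (a : List A) : tl c a = none ↔ a = [] := by
  simp [tl]

lemma alt_nil (c : A → Bool) : Alt c [] := List.isChain_nil

lemma alt_single (c : A → Bool) (a : A) : Alt c [a] := List.isChain_singleton a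

lemma alt_cons (c : A → Bool) (a : A) (l : List A) :
    Alt c (a :: l) ↔ Alt c l ∧ hd c l ≠ some (c a) := by
  have := alt_append c [a] l
  rw [List.singleton_append] at this
  rw [this]
  simp only [tl, hd, List.getLast?_singleton, Option.map_some, Option.mem_def]
  constructor
  · rintro ⟨-, h2, h3⟩
    exact ⟨h2, fun h => h3 _ rfl _ h rfl⟩
  · rintro ⟨h1, h2⟩
    refine ⟨alt_single c a, h1, ?_⟩
    intro x hx y hy e
    apply h2
    rw [hy, ← e]
    exact hx.symm

lemma tl_cons_of_ne (c : A → Bool) (a : A) (l : List A) (h : l ≠ []) : tl c (a :: l) = tl c l := by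
  have := tl_append c [a] l
  rw [List.singleton_append] at this
  rw [this]
  cases e : tl c l with
  | none => exact absurd ((tl_eq_none c l).1 e) h
  | some x => simp

theorem transfer (c : A → Bool) (c' : B → Bool) (f : ℕ → List A) (g : ℕ → List B) (u : List ℕ)
    (h : ∀ l ∈ u, Alt c (f l) ∧ Alt c' (g l) ∧ hd c (f l) = hd c' (g l) ∧
      tl c (f l) = tl c' (g l)) :
    (Alt c (u.flatMap f) ↔ Alt c' (u.flatMap g)) ∧
      hd c (u.flatMap f) = hd c' (u.flatMap g) ∧ tl c (u.flatMap f) = tl c' (u.flatMap g) := by
  induction u with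
  | nil => exact ⟨⟨fun _ => alt_nil _, fun _ => alt_nil _⟩, rfl, rfl⟩
  | cons a u ih =>
    obtain ⟨i1, i2, i3⟩ := ih (fun l hl => h l (by simp [hl]))
    obtain ⟨h1, h2, h3, h4⟩ := h a (by simp)
    rw [List.flatMap_cons, List.flatMap_cons, hd_append, hd_append, tl_append, tl_append,
      alt_append, alt_append, h3, h4, i2, i3]
    refine ⟨?_, rfl, rfl⟩
    rw [i1]
    tauto

lemma alt_of_mem (c : A → Bool) (f : ℕ → List A) (u : List ℕ) (h : Alt c (u.flatMap f)) :
    ∀ l ∈ u, Alt c (f l) := by
  induction u with
  | nil => simp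
  | cons a u ih =>
    rw [List.flatMap_cons, alt_append] at h
    intro l hl
    rcases List.mem_cons.1 hl with rfl | hl
    · exact h.1
    · exact ih h.2.1 l hl

lemma run (c : A → Bool) (g : ℕ → List A) (F : ℕ → Bool) (h1 : ∀ x, Alt c (g x))
    (h2 : ∀ x, g x = [] → F (x + 1) = F x) (h3 : ∀ x, ∀ a ∈ hd c (g x), a = !F x)
    (h4 : ∀ x, ∀ a ∈ tl c (g x), a = F (x + 1)) (N x0 : ℕ) :
    Alt c ((List.range' x0 N).flatMap g) ∧
      (∀ a ∈ tl c ((List.range' x0 N).flatMap g), a = F (x0 + N)) := by
  induction N with
  | zero => exact ⟨alt_nil _, by simp [tl]⟩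
  | succ N ih =>
    obtain ⟨i1, i2⟩ := ih
    have e : List.range' x0 (N + 1) = List.range' x0 N ++ [x0 + N] := by
      rw [List.range'_concat]; simp
    rw [e, List.flatMap_append, List.flatMap_singleton, alt_append]
    refine ⟨⟨i1, h1 _, ?_⟩, ?_⟩
    · intro x hx y hy hxy
      have := i2 x hx
      have := h3 _ y hy
      subst hxy
      simp_all
    · intro a ha
      rw [tl_append] at ha
      cases e2 : tl c (g (x0 + N)) with
      | none =>
        rw [e2, Option.none_or] at ha
        rw [i2 a ha, ← add_assoc, h2 _ ((tl_eq_none _ _).1 e2)]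
      | some y =>
        rw [e2, Option.some_or] at ha
        have h5 := h4 (x0 + N) y (by rw [e2]; rfl)
        have : y = a := by simpa using ha
        rw [← this, h5]
        rfl

end alt

section names

variable {Y : Type u}

lemma alt_names_nil (w : List (Option Y)) (h : Alt Option.isSome w) (h2 : w.reduceOption = []) :
    w = [] ∨ w = [none] := by
  cases w with
  | nil => left; rfl
  | cons a w =>
    right
    cases a with
    | some y => simp at h2
    | none =>
      rw [alt_cons] at h
      cases w with
      | nil => rfl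
      | cons b w =>
        cases b with
        | none => simp [hd] at h
        | some y => simp at h2

lemma alt_unique (w : List (Option Y)) : ∀ w' : List (Option Y), Alt Option.isSome w →
    Alt Option.isSome w' → w.reduceOption = w'.reduceOption →
    hd Option.isSome w = hd Option.isSome w' → tl Option.isSome w = tl Option.isSome w' →
    w = w' := by
  induction w with
  | nil =>
    intro w' _ _ _ h4 _
    exact ((hd_eq_none Option.isSome w').1 h4.symm).symm
  | cons a w ih =>
    intro w' h1 h2 h3 h4 h5
    cases w' with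
    | nil => simp [hd] at h4
    | cons a' w' =>
      have hc : a.isSome = a'.isSome := by simpa [hd] using h4
      have haa : a = a' ∧ w.reduceOption = w'.reduceOption := by
        cases a with
        | none =>
          cases a' with
          | none => exact ⟨rfl, by simpa using h3⟩
          | some y => simp at hc
        | some x =>
          cases a' with
          | none => simp at hc
          | some y =>
            simp only [List.reduceOption_cons_of_some, List.cons.injEq] at h3
            exact ⟨by rw [h3.1], h3.2⟩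
      obtain ⟨rfl, h6⟩ := haa
      rw [alt_cons] at h1 h2
      congr 1
      by_cases hw : w = []
      · subst hw
        rcases alt_names_nil w' h2.1 h6.symm with h | h
        · exact h.symm
        · subst h
          exfalso
          rw [tl_cons_of_ne Option.isSome a [none] (by simp)] at h5
          cases a with
          | none => exact h2.2 (by simp [hd])
          | some y => simp [tl] at h5
      · by_cases hw' : w' = []
        · subst hw'
          rcases alt_names_nil w h1.1 h6 with h | h
          · exact h
          · subst h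
            exfalso
            rw [tl_cons_of_ne Option.isSome a [none] (by simp)] at h5
            cases a with
            | none => exact h1.2 (by simp [hd])
            | some y => simp [tl] at h5
        · rw [tl_cons_of_ne _ _ _ hw, tl_cons_of_ne _ _ _ hw'] at h5
          refine ih w' h1.1 h2.1 h6 ?_ h5
          cases e1 : hd Option.isSome w with
          | none => exact absurd ((hd_eq_none _ _).1 e1) hw
          | some x =>
            cases e2 : hd Option.isSome w' with
            | none => exact absurd ((hd_eq_none _ _).1 e2) hw'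
            | some y =>
              have g1 := h1.2
              have g2 := h2.2
              rw [e1] at g1
              rw [e2] at g2
              cases x <;> cases y <;> cases a <;> simp_all

/-- alternating word with prescribed names -/
def mk (t : Bool) : List ℕ → List (Option ℕ)
  | [] => []
  | [y] => some y :: (if t then [none] else [])
  | y :: z :: l => some y :: none :: mk t (z :: l)

lemma mk_spec (t : Bool) (l : List ℕ) (hl : l ≠ []) : Alt Option.isSome (mk t l) ∧
    hd Option.isSome (mk t l) = some true ∧ tl Option.isSome (mk t l) = some (!t) ∧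
    (mk t l).reduceOption = l := by
  induction l with
  | nil => exact absurd rfl hl
  | cons y l ih =>
    cases l with
    | nil =>
      cases t
      · exact ⟨alt_single _ _, rfl, rfl, by simp [mk]⟩
      · refine ⟨?_, rfl, rfl, by simp [mk]⟩
        rw [mk, alt_cons]
        exact ⟨alt_single _ _, by simp [hd]⟩
    | cons z l =>
      obtain ⟨h1, h2, h3, h4⟩ := ih (by simp)
      refine ⟨?_, rfl, ?_, ?_⟩
      · rw [mk, alt_cons, alt_cons, h2]
        exact ⟨⟨h1, by simp⟩, by simp [hd]⟩
      · rw [mk, tl_cons_of_ne _ _ _ (by simp), tl_cons_of_ne, h3]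
        intro h
        rw [h] at h2
        simp [hd] at h2
      · rw [mk]
        simp only [List.reduceOption_cons_of_some, List.reduceOption_cons_of_none, h4]

lemma exists_alt (w : List (Option Y)) (h : Alt Option.isSome w) (l : List ℕ)
    (hl : l = [] ↔ w.reduceOption = []) : ∃ w' : List (Option ℕ), Alt Option.isSome w' ∧
    hd Option.isSome w' = hd Option.isSome w ∧ tl Option.isSome w' = tl Option.isSome w ∧
    w'.reduceOption = l := by
  by_cases h0 : l = []
  · subst h0
    rcases alt_names_nil w h (hl.1 rfl) with rfl | rfl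
    · exact ⟨[], alt_nil _, rfl, rfl, by simp⟩
    · exact ⟨[none], alt_single _ _, rfl, rfl, by simp⟩
  · have hw : w ≠ [] := by
      rintro rfl
      exact h0 (hl.2 (by simp))
    cases e1 : hd Option.isSome w with
    | none => exact absurd ((hd_eq_none _ _).1 e1) hw
    | some x =>
      cases e2 : tl Option.isSome w with
      | none => exact absurd ((tl_eq_none _ _).1 e2) hw
      | some y =>
        obtain ⟨m1, m2, m3, m4⟩ := mk_spec (!y) l h0
        have hne : mk (!y) l ≠ [] := by
          intro h
          rw [h] at m2
          simp [hd] at m2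
        cases x with
        | true => exact ⟨mk (!y) l, m1, m2, by simpa using m3, m4⟩
        | false =>
          refine ⟨none :: mk (!y) l, ?_, rfl, ?_, by simpa using m4⟩
          · rw [alt_cons, m2]; exact ⟨m1, by simp⟩
          · rw [tl_cons_of_ne _ _ _ hne, m3]; simp

/-- decoding -/
def de : Option ℕ → ℕ
  | none => 0
  | some y => y + 1

lemma Z_succ' (K : ℕ) : Z (K + 1) = 0 :: (Z K).flatMap (fun y => [y + 1, 0]) := by
  rw [add_comm K 1, Z_add]
  have : Z 1 = [0] := rfl
  rw [this]
  simp only [List.cons_append, List.nil_append, add_comm 1]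

lemma de_fac_aux (w : List (Option ℕ)) (h : Alt Option.isSome w) :
    (hd Option.isSome w ≠ some true →
      w.map de <+: 0 :: w.reduceOption.flatMap (fun y => [y + 1, 0])) ∧
    (hd Option.isSome w ≠ some false →
      w.map de <+: w.reduceOption.flatMap (fun y => [y + 1, 0])) := by
  induction w with
  | nil => exact ⟨fun _ => by simp, fun _ => by simp⟩
  | cons a w ih =>
    rw [alt_cons] at h
    obtain ⟨i1, i2⟩ := ih h.1
    cases a with
    | none =>
      constructor
      · intro _
        have := i2 (by simpa using h.2)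
        rw [List.map_cons, List.reduceOption_cons_of_none]
        exact (List.cons_prefix_cons).2 ⟨rfl, this⟩
      · intro hh; simp [hd] at hh
    | some y =>
      constructor
      · intro hh; simp [hd] at hh
      · intro _
        have := i1 (by simpa using h.2)
        rw [List.map_cons, List.reduceOption_cons_of_some, List.flatMap_cons]
        exact (List.cons_prefix_cons).2 ⟨rfl, by simpa using this⟩

lemma de_fac (w : List (Option ℕ)) (h : Alt Option.isSome w) (K : ℕ)
    (hK : w.reduceOption <:+: Z K) : w.map de <:+: Z (K + 1) := by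
  have h1 : w.map de <:+: 0 :: w.reduceOption.flatMap (fun y => [y + 1, 0]) := by
    obtain ⟨i1, i2⟩ := de_fac_aux w h
    by_cases hh : hd Option.isSome w = some true
    · exact (i2 (by rw [hh]; simp)).isInfix.trans (List.suffix_cons _ _).isInfix
    · exact (i1 hh).isInfix
  refine h1.trans ?_
  obtain ⟨p, q, hpq⟩ := hK
  rw [Z_succ', ← hpq, List.flatMap_append, List.flatMap_append]
  have h2 : ∀ p : List ℕ, ∃ p', 0 :: p.flatMap (fun y => [y + 1, 0]) = p' ++ [0] := by
    intro p
    induction p using List.reverseRecOn with
    | nil => exact ⟨[], rfl⟩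
    | append_singleton p x _ =>
      exact ⟨0 :: p.flatMap (fun y => [y + 1, 0]) ++ [x + 1], by simp⟩
  obtain ⟨p', hp'⟩ := h2 p
  refine ⟨p', q.flatMap (fun y => [y + 1, 0]), ?_⟩
  rw [← List.cons_append, ← List.cons_append, hp']
  simp [List.append_assoc]

end names

/-- `θ` simulates `φ` inside a Zimin word -/
def Sim {A : Type v} (u : List ℕ) (φ : ℕ → List A) : Prop :=
  ∃ (θ : ℕ → List ℕ) (K : ℕ), u.flatMap θ <:+: Z K ∧ ∀ l ∈ u, (θ l = [] ↔ φ l = [])

/-- `φ(u)` is determined -/
def Rig (M : Type w) [Monoid M] {A : Type v} (u : List ℕ) (φ : ℕ → List A) : Prop :=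
  ∀ v, Eq' M u v → v.flatMap φ = u.flatMap φ

section

variable {M : Type w} [Monoid M]

lemma Iso.content (h : Iso M) {u v : List ℕ} (huv : Eq' M u v) : ∀ x ∈ v, x ∈ u := by
  intro x hx
  by_contra hxu
  have h1 := huv.subst (fun y => if y = x then [0] else [])
  have h2 : u.flatMap (fun y => if y = x then [0] else []) = [] := by
    rw [List.flatMap_eq_nil_iff]
    intro y hy
    rw [if_neg]
    rintro rfl
    exact hxu hy
  rw [h2] at h1
  have h3 := h 0 _ h1
  have h4 : (0 : ℕ) ∈ v.flatMap (fun y => if y = x then [0] else []) := by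
    rw [List.mem_flatMap]
    exact ⟨x, hx, by simp⟩
  rw [h3] at h4
  simp [Z] at h4

lemma Iso.fac (h : Iso M) {K : ℕ} {w w' : List ℕ} (hw : w <:+: Z K) (he : Eq' M w w') :
    w' = w := by
  obtain ⟨p, q, hpq⟩ := hw
  have h1 := h K (p ++ w' ++ q) (by
    intro a
    rw [← hpq]
    simp only [val_append]
    rw [he])
  rw [← hpq] at h1
  simpa using h1

theorem insertion (hiso : Iso M) {Y : Type v} (u : List ℕ) (ψ : ℕ → List (Option Y))
    (halt : Alt Option.isSome (u.flatMap ψ)) (hs : Sim u (fun l => (ψ l).reduceOption))
    (hr : Rig M u (fun l => (ψ l).reduceOption)) : Sim u ψ ∧ Rig M u ψ := by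
  classical
  obtain ⟨θ', K, hθ, hθ2⟩ := hs
  have hex : ∀ l : ℕ, ∃ w' : List (Option ℕ), l ∈ u → Alt Option.isSome w' ∧
    hd Option.isSome w' = hd Option.isSome (ψ l) ∧ tl Option.isSome w' = tl Option.isSome (ψ l) ∧
    w'.reduceOption = θ' l := by
    intro l
    by_cases hl : l ∈ u
    · obtain ⟨w', hw'⟩ := exists_alt (ψ l) (alt_of_mem _ _ _ halt l hl) (θ' l) (hθ2 l hl)
      exact ⟨w', fun _ => hw'⟩
    · exact ⟨[], fun h => absurd h hl⟩
  choose ω hω using hex
  have hnames : ∀ v : List ℕ, (∀ x ∈ v, x ∈ u) → (v.flatMap ω).reduceOption = v.flatMap θ' := by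
    intro v
    induction v with
    | nil => intro _; simp
    | cons x v ih =>
      intro hx
      rw [List.flatMap_cons, List.flatMap_cons, List.reduceOption_append,
        ih (fun y hy => hx y (by simp [hy])), (hω x (hx x (by simp))).2.2.2]
  have hnames2 : ∀ v : List ℕ, (v.flatMap ψ).reduceOption =
      v.flatMap (fun l => (ψ l).reduceOption) := by
    intro v
    induction v with
    | nil => simp
    | cons x v ih =>
      rw [List.flatMap_cons, List.flatMap_cons, List.reduceOption_append, ih]
  have htr : ∀ v : List ℕ, (∀ x ∈ v, x ∈ u) → _ := fun v hv =>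
    transfer Option.isSome Option.isSome ω ψ v (fun l hl => by
      obtain ⟨g1, g2, g3, -⟩ := hω l (hv l hl)
      exact ⟨g1, alt_of_mem _ _ _ halt l (hv l hl), g2, g3⟩)
  obtain ⟨t1, t2, t3⟩ := htr u (fun _ h => h)
  have hfac : (u.flatMap ω).map de <:+: Z (K + 1) :=
    de_fac _ (t1.2 halt) K (by rw [hnames u (fun _ h => h)]; exact hθ)
  have hmap : ∀ v : List ℕ, v.flatMap (fun l => (ω l).map de) = (v.flatMap ω).map de := by
    intro v
    rw [List.map_flatMap]
  refine ⟨⟨fun l => (ω l).map de, K + 1, by rw [hmap]; exact hfac, ?_⟩, ?_⟩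
  · intro l hl
    rw [List.map_eq_nil_iff, ← hd_eq_none Option.isSome, (hω l hl).2.1, hd_eq_none]
  · intro v huv
    have hc := hiso.content huv
    obtain ⟨s1, s2, s3⟩ := htr v hc
    have e1 : v.flatMap (fun l => (ω l).map de) = u.flatMap (fun l => (ω l).map de) :=
      hiso.fac (by rw [hmap]; exact hfac) (huv.subst _)
    rw [hmap, hmap] at e1
    have hinj : Function.Injective de := by
      intro x y hxy
      cases x <;> cases y <;> simp_all [de]
    have e2 : v.flatMap ω = u.flatMap ω := List.map_injective_iff.2 hinj e1
    refine alt_unique _ _ (s1.1 ?_) halt ?_ ?_ ?_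
    · rw [e2]; exact t1.2 halt
    · rw [hnames2, hnames2]; exact hr v huv
    · rw [← s2, e2, t2]
    · rw [← s3, e2, t3]

end

end Pool.Agent.H43R2
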