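import Mathlib
import Pool.Agent.H43R2.Alt
set_option autoImplicit false

/-!
The infinite word and its rigidity.
-/

namespace Pool.Agent.H43R2

universe u v w

/-- recursive content -/
def info (r : ℕ) (x : ℕ) : ℕ :=
  if h : 2 ≤ r ∧ (x % r) % 2 = 1 then info r (x / r) else (x / r) % r
termination_by x
decreasing_by
  have : x ≠ 0 := by
    rintro rfl
    simp at h
  exact Nat.div_lt_self (by omega) (by omega)

/-- the infinite word -/
def bt (r x : ℕ) : ℕ × ℕ := (info r x, x % r)

/-- the content of the cell at phase `p` of a block with name `N` -/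
def kp (p : ℕ) (N : ℕ × ℕ) : ℕ := if p % 2 = 1 then N.1 else N.2

lemma info_eq {r : ℕ} (hr : 2 ≤ r) (x : ℕ) : info r x = kp (x % r) (bt r (x / r)) := by
  rw [info]
  unfold kp bt
  by_cases h : x % r % 2 = 1
  · rw [dif_pos ⟨hr, h⟩, if_pos h]
  · rw [dif_neg (fun hh => h hh.2), if_neg h]

lemma info_lt {r : ℕ} (hr : 2 ≤ r) (x : ℕ) : info r x < r := by
  induction x using Nat.strong_induction_on with
  | _ x ih =>
    rw [info]
    by_cases h : 2 ≤ r ∧ x % r % 2 = 1
    · rw [dif_pos h]
      apply ih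
      apply Nat.div_lt_self _ (by omega)
      rcases Nat.eq_zero_or_pos x with rfl | h0
      · simp at h
      · exact h0
    · rw [dif_neg h]
      exact Nat.mod_lt _ (by omega)

/-- cyclic index of a phase -/
def idx (b r q : ℕ) : ℕ := if q < b then q + r - b else q - b

/-- annotated cell at position `x` -/
def cellOf (b r x : ℕ) : ℕ × (ℕ × ℕ) :=
  if x % r = b then (0, bt r (x / r)) else (idx b r (x % r), (info r x, 0))

/-- name of a block from the contents of two adjacent cells -/
def nameOf (b a c : ℕ) : ℕ × ℕ := if b % 2 = 1 then (c, a) else (a, c)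

/-- annotation of a word -/
def ann (b r : ℕ) : ℕ → List (ℕ × ℕ) → List (ℕ × (ℕ × ℕ))
  | _, [] => []
  | a, c :: l => (if c.2 = b then (0, nameOf b a c.1) else (idx b r c.2, (c.1, 0))) ::
      ann b r c.1 l

/-- inverse of the annotation -/
def bk (b r : ℕ) (c : ℕ × (ℕ × ℕ)) : ℕ × ℕ :=
  if c.1 = 0 then (kp b c.2, b) else (c.2.1, if c.1 + b < r then c.1 + b else c.1 + b - r)

lemma ann_append (b r : ℕ) (l1 l2 : List (ℕ × ℕ)) (h : ∀ c ∈ l2.head?, c.2 ≠ b) :
    ∀ a, ann b r a (l1 ++ l2) = ann b r a l1 ++ ann b r 0 l2 := by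
  induction l1 with
  | nil =>
    intro a
    cases l2 with
    | nil => rfl
    | cons c l =>
      have : c.2 ≠ b := h c (by simp)
      simp [ann, this]
  | cons c l ih => intro a; rw [List.cons_append, ann, ann, ih, List.cons_append]

lemma head_flatMap {A : Type u} (u : List ℕ) (φ : ℕ → List A) (P : A → Prop)
    (h : ∀ l ∈ u, ∀ c ∈ (φ l).head?, P c) : ∀ c ∈ (u.flatMap φ).head?, P c := by
  induction u with
  | nil => simp
  | cons a u ih =>
    intro c hc
    rw [List.flatMap_cons] at hc
    cases e : φ a with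
    | nil =>
      rw [e, List.nil_append] at hc
      exact ih (fun l hl => h l (by simp [hl])) c hc
    | cons x l =>
      rw [e, List.cons_append] at hc
      have := h a (by simp) c (by rw [e]; exact hc)
      exact this

lemma ann_flatMap (b r : ℕ) (u : List ℕ) (φ : ℕ → List (ℕ × ℕ))
    (h : ∀ l ∈ u, ∀ c ∈ (φ l).head?, c.2 ≠ b) :
    ann b r 0 (u.flatMap φ) = u.flatMap (fun l => ann b r 0 (φ l)) := by
  induction u with
  | nil => rfl
  | cons a u ih =>
    have h2 : ∀ l ∈ u, ∀ c ∈ (φ l).head?, c.2 ≠ b := fun l hl => h l (by simp [hl])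
    rw [List.flatMap_cons, List.flatMap_cons, ann_append b r _ _ (head_flatMap u φ _ h2), ih h2]

lemma ann_length (b r : ℕ) (l : List (ℕ × ℕ)) : ∀ a, (ann b r a l).length = l.length := by
  induction l with
  | nil => intro a; rfl
  | cons c l ih => intro a; rw [ann, List.length_cons, ih, List.length_cons]

lemma ann_back {b r : ℕ} (hbr : b < r) (l : List (ℕ × ℕ)) (hl : ∀ c ∈ l, c.2 < r) :
    ∀ a, (ann b r a l).map (bk b r) = l := by
  induction l with
  | nil => intro a; rfl
  | cons c l ih =>
    intro a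
    rw [ann, List.map_cons, ih (fun c hc => hl c (by simp [hc]))]
    congr 1
    have hc := hl c (by simp)
    by_cases h : c.2 = b
    · rw [if_pos h, bk, if_pos rfl]
      refine Prod.ext ?_ h.symm
      simp only [kp, nameOf]
      split_ifs <;> rfl
    · rw [if_neg h, bk]
      unfold idx
      obtain ⟨c1, c2⟩ := c
      simp only at h hc ⊢
      rw [if_neg (by split_ifs <;> omega)]
      refine Prod.ext rfl ?_
      simp only
      split_ifs <;> omega

lemma succ_cases {r : ℕ} (hr : 0 < r) (x : ℕ) :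
    (x % r + 1 < r ∧ (x + 1) % r = x % r + 1 ∧ (x + 1) / r = x / r) ∨
    (x % r + 1 = r ∧ (x + 1) % r = 0 ∧ (x + 1) / r = x / r + 1) := by
  have h1 := Nat.mod_lt x hr
  have h2 := Nat.div_add_mod x r
  rcases Nat.lt_or_ge (x % r + 1) r with h | h
  · left
    refine ⟨h, ?_, ?_⟩
    · conv_lhs => rw [← h2, add_assoc, Nat.mul_add_mod]
      exact Nat.mod_eq_of_lt h
    · conv_lhs => rw [← h2, add_assoc, Nat.mul_add_div hr, Nat.div_eq_of_lt h]
      simp
  · right
    have h3 : x % r + 1 = r := by omega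
    refine ⟨h3, ?_, ?_⟩
    · conv_lhs => rw [← h2, add_assoc, h3, Nat.mul_add_mod]
      exact Nat.mod_self r
    · conv_lhs => rw [← h2, add_assoc, h3, Nat.mul_add_div hr, Nat.div_self hr]

lemma ann_range {b r : ℕ} (hb : 1 ≤ b) (hbr : b < r) (N : ℕ) : ∀ x0 a,
    (x0 % r = b → a = info r (x0 - 1)) →
    ann b r a ((List.range' x0 N).map (bt r)) = (List.range' x0 N).map (cellOf b r) := by
  induction N with
  | zero => intro x0 a _; rfl
  | succ N ih =>
    intro x0 a ha
    rw [List.range'_succ, List.map_cons, List.map_cons, ann,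
      ih (x0 + 1) _ (fun _ => by rw [Nat.add_sub_cancel]; rfl)]
    congr 1
    unfold cellOf
    have e : (bt r x0).2 = x0 % r := rfl
    rw [e]
    by_cases h : x0 % r = b
    · rw [if_pos h, if_pos h]
      refine Prod.ext rfl ?_
      change nameOf b a (info r x0) = bt r (x0 / r)
      have hx0 : x0 ≠ 0 := by
        rintro rfl
        rw [Nat.zero_mod] at h
        omega
      obtain ⟨y, rfl⟩ : ∃ y, x0 = y + 1 := ⟨x0 - 1, by omega⟩
      rw [ha h, Nat.add_sub_cancel, info_eq (by omega), info_eq (by omega)]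
      rcases succ_cases (by omega : 0 < r) y with ⟨g1, g2, g3⟩ | ⟨g1, g2, g3⟩
      · rw [g3, h]
        rw [g2] at h
        have h4 : y % r = b - 1 := by omega
        rw [h4]
        unfold nameOf kp
        by_cases hpar : b % 2 = 1
        · rw [if_pos hpar, if_pos hpar, if_neg (by omega)]
        · rw [if_neg hpar, if_neg hpar, if_pos (by omega)]
      · omega
    · rw [if_neg h, if_neg h]
      rfl

/-- token extraction -/
def tok (c : ℕ × (ℕ × ℕ)) : Option (ℕ × ℕ) := if c.1 = 0 then some c.2 else none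

/-- number of `b`-cells before `x` -/
def cc (b r x : ℕ) : ℕ := (x + (r - 1 - b)) / r

lemma cc_cases {b r : ℕ} (hbr : b < r) (x : ℕ) :
    (x % r = b → cc b r (x + 1) = cc b r x + 1 ∧ cc b r x = x / r) ∧
    (x % r ≠ b → cc b r (x + 1) = cc b r x) := by
  have h1 := Nat.mod_lt x (by omega : 0 < r)
  have h2 := Nat.div_add_mod x r
  have h3 : cc b r x = x / r + (x % r + (r - 1 - b)) / r := by
    unfold cc
    conv_lhs => rw [← h2, add_assoc, Nat.mul_add_div (by omega : 0 < r)]
  have h4 : cc b r (x + 1) = x / r + (x % r + 1 + (r - 1 - b)) / r := by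
    unfold cc
    have : x + 1 + (r - 1 - b) = r * (x / r) + (x % r + 1 + (r - 1 - b)) := by omega
    rw [this, Nat.mul_add_div (by omega : 0 < r)]
  rw [h3, h4]
  constructor
  · intro h
    rw [h]
    have e1 : (b + (r - 1 - b)) / r = 0 := Nat.div_eq_of_lt (by omega)
    have e2 : (b + 1 + (r - 1 - b)) / r = 1 := by
      rw [show b + 1 + (r - 1 - b) = r by omega]
      exact Nat.div_self (by omega)
    rw [e1, e2]
    exact ⟨rfl, rfl⟩
  · intro h
    rcases Nat.lt_or_ge (x % r) b with h5 | h5
    · have e1 : (x % r + 1 + (r - 1 - b)) / r = 0 := Nat.div_eq_of_lt (by omega)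
      have e2 : (x % r + (r - 1 - b)) / r = 0 := Nat.div_eq_of_lt (by omega)
      rw [e1, e2]
    · have e1 : (x % r + 1 + (r - 1 - b)) / r = 1 :=
        Nat.div_eq_of_lt_le (by omega) (by omega)
      have e2 : (x % r + (r - 1 - b)) / r = 1 :=
        Nat.div_eq_of_lt_le (by omega) (by omega)
      rw [e1, e2]

lemma idx_eq_zero {b r q : ℕ} (hbr : b < r) (h : q ≠ b) : idx b r q ≠ 0 := by
  unfold idx; split_ifs <;> omega

lemma cellOf_fst (b r x : ℕ) : (cellOf b r x).1 = idx b r (x % r) := by
  unfold cellOf idx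
  split_ifs <;> simp_all

lemma tok_cellOf {b r : ℕ} (hbr : b < r) (x : ℕ) :
    tok (cellOf b r x) = if x % r = b then some (bt r (x / r)) else none := by
  unfold tok
  by_cases h : x % r = b
  · simp [cellOf, h]
  · rw [cellOf_fst, if_neg (idx_eq_zero hbr h), if_neg h]

lemma tok_range {b r : ℕ} (hbr : b < r) (x0 N : ℕ) : cc b r x0 ≤ cc b r (x0 + N) ∧
    ((List.range' x0 N).map (cellOf b r)).filterMap tok =
      (List.range' (cc b r x0) (cc b r (x0 + N) - cc b r x0)).map (bt r) := by
  induction N with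
  | zero => simp
  | succ N ih =>
    obtain ⟨i1, i2⟩ := ih
    have e : List.range' x0 (N + 1) = List.range' x0 N ++ [x0 + N] := by
      rw [List.range'_concat]; simp
    rw [e, List.map_append, List.filterMap_append, i2]
    obtain ⟨c1, c2⟩ := cc_cases hbr (x0 + N)
    have e2 : ([x0 + N].map (cellOf b r)).filterMap tok =
        (tok (cellOf b r (x0 + N))).toList := by
      cases h : tok (cellOf b r (x0 + N)) <;> simp [h]
    rw [e2, tok_cellOf hbr]
    by_cases h : (x0 + N) % r = b
    · obtain ⟨d1, d2⟩ := c1 h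
      rw [if_pos h, ← d2, ← add_assoc x0, d1]
      refine ⟨by omega, ?_⟩
      have e3 : cc b r (x0 + N) + 1 - cc b r x0 = (cc b r (x0 + N) - cc b r x0) + 1 := by omega
      rw [e3, List.range'_concat, List.map_append]
      simp only [Option.toList, List.map_cons, List.map_nil, one_mul]
      congr 3
      omega
    · rw [if_neg h, ← add_assoc x0, c2 h]
      exact ⟨i1, by simp⟩

end Pool.Agent.H43R2
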