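import Mathlib
import Pool.Agent.H43R2.Words
set_option autoImplicit false

/-!
Computability of the criterion.
-/

namespace Pool.Agent.H43R2

open Primrec

lemma forall_lt' {β : Type*} [Primcodable β] {R : ℕ → β → Prop} (hR : PrimrecRel R) {f : β → ℕ}
    (hf : Primrec f) : PrimrecPred (fun b => ∀ x < f b, R x b) := by
  have h1 := PrimrecRel.forall_mem_list hR
  have h2 : Primrec (fun b => List.range (f b)) := list_range.comp hf
  have h3 : PrimrecPred (fun b => ∀ x ∈ List.range (f b), R x b) := h1.comp h2 .id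
  exact h3.of_eq (fun b => by simp)

lemma exists_lt' {β : Type*} [Primcodable β] {R : ℕ → β → Prop} (hR : PrimrecRel R) {f : β → ℕ}
    (hf : Primrec f) : PrimrecPred (fun b => ∃ x < f b, R x b) := by
  have h1 := PrimrecRel.exists_mem_list hR
  have h2 : Primrec (fun b => List.range (f b)) := list_range.comp hf
  have h3 : PrimrecPred (fun b => ∃ x ∈ List.range (f b), R x b) := h1.comp h2 .id
  exact h3.of_eq (fun b => by simp)

/-- multiplication of the table -/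
def tmul (c : ℕ × List ℕ) (a b : ℕ) : ℕ := c.2.getD (a * c.1 + b) 0

lemma tmul_prim : Primrec (fun p : (ℕ × List ℕ) × (ℕ × ℕ) => tmul p.1 p.2.1 p.2.2) := by
  unfold tmul
  exact (Primrec.list_getD 0).comp (snd.comp fst)
    (nat_add.comp (nat_mul.comp (fst.comp snd) (fst.comp fst)) (snd.comp snd))

lemma pow_prim : Primrec₂ (fun n k : ℕ => n ^ k) := by
  have h : Primrec₂ (fun n k : ℕ => (Nat.rec 1 (fun _ ih => ih * n) k : ℕ)) :=
    Primrec.nat_rec (const 1) (nat_mul.comp (snd.comp snd) fst).to₂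
  refine h.of_eq (fun n k => ?_)
  induction k with
  | zero => rfl
  | succ k ih => rw [pow_succ, ← ih]

lemma fact_prim : Primrec (fun n : ℕ => n.factorial) := by
  have h : Primrec (Nat.rec 1 (fun n ih => (n + 1) * ih) : ℕ → ℕ) :=
    Primrec.nat_rec₁ 1 (nat_mul.comp (succ.comp fst) snd).to₂
  refine h.of_eq (fun n => ?_)
  induction n with
  | zero => rfl
  | succ n ih => rw [Nat.factorial_succ, ← ih]

lemma Z_prim : Primrec Z := by
  have h : Primrec (Nat.rec [] (fun n ih => ih ++ n :: ih) : ℕ → List ℕ) :=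
    Primrec.nat_rec₁ [] (list_append.comp snd (list_cons.comp fst snd)).to₂
  refine h.of_eq (fun n => ?_)
  induction n with
  | zero => rfl
  | succ n ih => rw [Z, ← ih]

lemma replicate_prim : Primrec (fun n : ℕ => List.replicate n 0) := by
  have h : Primrec (fun n : ℕ => (List.range n).map (fun _ => 0)) :=
    Primrec.list_map list_range (const 0).to₂
  refine h.of_eq (fun n => ?_)
  simp

lemma wz_prim : Primrec (fun p : (ℕ × ℕ) × ℕ => wz p.1.1 p.1.2 p.2) := by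
  have h0 : Primrec (fun q : ℕ × ℕ => (([0], List.replicate (1 + q.2) 0) : List ℕ × List ℕ)) :=
    Primrec.pair (const [0]) (replicate_prim.comp (nat_add.comp (const 1) snd))
  -- the step
  have hstep : Primrec₂ (fun (q : ℕ × ℕ) (x : ℕ × (List ℕ × List ℕ)) =>
      ((x.2.1 ++ (Z q.1).flatMap (fun y => (1 + q.1 * x.1 + y) :: x.2.1),
      x.2.1 ++ ((Z q.1).take q.2).flatMap (fun y => (1 + q.1 * x.1 + y) :: x.2.2) ++
        ((Z q.1).drop q.2).flatMap (fun y => (1 + q.1 * x.1 + y) :: x.2.1)) :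
        List ℕ × List ℕ)) := by
    have hZ : Primrec (fun a : (ℕ × ℕ) × (ℕ × (List ℕ × List ℕ)) => Z a.1.1) :=
      Z_prim.comp (fst.comp fst)
    have hidx : Primrec₂ (fun (a : (ℕ × ℕ) × (ℕ × (List ℕ × List ℕ))) (y : ℕ) =>
        1 + a.1.1 * a.2.1 + y) :=
      (nat_add.comp (nat_add.comp (const 1) (nat_mul.comp (fst.comp (fst.comp fst))
        (fst.comp (snd.comp fst)))) snd).to₂
    have h1 : Primrec₂ (fun (a : (ℕ × ℕ) × (ℕ × (List ℕ × List ℕ))) (y : ℕ) =>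
        (1 + a.1.1 * a.2.1 + y) :: a.2.2.1) :=
      list_cons.comp₂ hidx (fst.comp (snd.comp (snd.comp fst))).to₂
    have h2 : Primrec₂ (fun (a : (ℕ × ℕ) × (ℕ × (List ℕ × List ℕ))) (y : ℕ) =>
        (1 + a.1.1 * a.2.1 + y) :: a.2.2.2) :=
      list_cons.comp₂ hidx (snd.comp (snd.comp (snd.comp fst))).to₂
    have hw1 : Primrec (fun a : (ℕ × ℕ) × (ℕ × (List ℕ × List ℕ)) => a.2.2.1) :=
      fst.comp (snd.comp snd)
    have hT : Primrec (fun a : (ℕ × ℕ) × (ℕ × (List ℕ × List ℕ)) => (Z a.1.1).take a.1.2) :=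
      list_take.comp (snd.comp fst) hZ
    have hDr : Primrec (fun a : (ℕ × ℕ) × (ℕ × (List ℕ × List ℕ)) => (Z a.1.1).drop a.1.2) :=
      list_drop.comp (snd.comp fst) hZ
    have hA : Primrec (fun a : (ℕ × ℕ) × (ℕ × (List ℕ × List ℕ)) =>
        a.2.2.1 ++ (Z a.1.1).flatMap (fun y => (1 + a.1.1 * a.2.1 + y) :: a.2.2.1)) :=
      list_append.comp hw1 (list_flatMap hZ h1)
    have hB : Primrec (fun a : (ℕ × ℕ) × (ℕ × (List ℕ × List ℕ)) =>
        a.2.2.1 ++ ((Z a.1.1).take a.1.2).flatMap (fun y => (1 + a.1.1 * a.2.1 + y) :: a.2.2.2) ++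
        ((Z a.1.1).drop a.1.2).flatMap (fun y => (1 + a.1.1 * a.2.1 + y) :: a.2.2.1)) :=
      list_append.comp (list_append.comp hw1 (list_flatMap hT h2)) (list_flatMap hDr h1)
    exact hA.pair hB
  have h : Primrec₂ (fun (q : ℕ × ℕ) (l : ℕ) => wz q.1 q.2 l) := by
    refine (Primrec.nat_rec h0 hstep).of_eq ?_
    rintro ⟨r, D⟩ l
    induction l with
    | zero => rfl
    | succ l ih => rw [wz, ← ih]
  exact h.comp fst snd

/-- evaluation of a word -/
def tfold (c : ℕ × List ℕ) (e s : ℕ) (w : List ℕ) : ℕ :=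
  w.foldl (fun a x => tmul c a (s / c.1 ^ x % c.1)) e

lemma tfold_prim {w : ℕ × List ℕ → List ℕ} (hw : Primrec w) :
    Primrec (fun p : (ℕ × List ℕ) × (ℕ × ℕ) => tfold p.1 p.2.1 p.2.2 (w p.1)) := by
  unfold tfold
  have hc : Primrec (fun z : ((ℕ × List ℕ) × (ℕ × ℕ)) × (ℕ × ℕ) => z.1.1.1) :=
    fst.comp (fst.comp fst)
  have hs : Primrec (fun z : ((ℕ × List ℕ) × (ℕ × ℕ)) × (ℕ × ℕ) => z.1.2.2) :=
    snd.comp (snd.comp fst)
  have hx : Primrec (fun z : ((ℕ × List ℕ) × (ℕ × ℕ)) × (ℕ × ℕ) =>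
      z.1.2.2 / z.1.1.1 ^ z.2.2 % z.1.1.1) :=
    nat_mod.comp (nat_div.comp hs (pow_prim.comp hc (snd.comp snd))) hc
  have hm : Primrec (fun z : ((ℕ × List ℕ) × (ℕ × ℕ)) × (ℕ × ℕ) =>
      tmul z.1.1 z.2.1 (z.1.2.2 / z.1.1.1 ^ z.2.2 % z.1.1.1)) :=
    tmul_prim.comp (Primrec.pair (fst.comp fst) (Primrec.pair (fst.comp snd) hx))
  exact Primrec.list_foldl (h := fun (p : (ℕ × List ℕ) × (ℕ × ℕ)) (q : ℕ × ℕ) =>
    tmul p.1 q.1 (p.2.2 / p.1.1 ^ q.2 % p.1.1)) (hw.comp fst) (fst.comp snd) hm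

/-- parameters -/
def pD (n : ℕ) : ℕ := n.factorial

def pr' (n : ℕ) : ℕ := pD n + 2

def pl (n : ℕ) : ℕ := n * (n * n + 1)

/-- the criterion -/
def crit (c : ℕ × List ℕ) (e : ℕ) : Prop :=
  ∀ s < c.1 ^ (1 + pr' c.1 * pl c.1),
    tfold c e s (wz (pr' c.1) (pD c.1) (pl c.1)).1 = tfold c e s (wz (pr' c.1) (pD c.1) (pl c.1)).2

lemma pD_prim : Primrec pD := fact_prim

lemma pr'_prim : Primrec pr' := nat_add.comp pD_prim (const 2)

lemma pl_prim : Primrec pl :=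
  nat_mul.comp .id (nat_add.comp (nat_mul.comp .id .id) (const 1))

lemma words_prim : Primrec (fun c : ℕ × List ℕ => wz (pr' c.1) (pD c.1) (pl c.1)) :=
  wz_prim.comp (Primrec.pair (Primrec.pair (pr'_prim.comp fst) (pD_prim.comp fst))
    (pl_prim.comp fst))

lemma crit_prim : PrimrecPred (fun p : (ℕ × List ℕ) × ℕ => crit p.1 p.2) := by
  have h1 := tfold_prim (fst.comp words_prim)
  have h2 := tfold_prim (snd.comp words_prim)
  have hR : PrimrecRel (fun (s : ℕ) (p : (ℕ × List ℕ) × ℕ) =>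
      tfold p.1 p.2 s (wz (pr' p.1.1) (pD p.1.1) (pl p.1.1)).1 =
      tfold p.1 p.2 s (wz (pr' p.1.1) (pD p.1.1) (pl p.1.1)).2) := by
    have hf : Primrec (fun z : ℕ × ((ℕ × List ℕ) × ℕ) => (z.2.1, (z.2.2, z.1))) :=
      Primrec.pair (fst.comp snd) (Primrec.pair (snd.comp snd) fst)
    have hX := h1.comp hf
    have hY := h2.comp hf
    exact Primrec.eq.comp hX hY
  have hb : Primrec (fun p : (ℕ × List ℕ) × ℕ => p.1.1 ^ (1 + pr' p.1.1 * pl p.1.1)) :=
    pow_prim.comp (fst.comp fst) (nat_add.comp (const 1)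
      (nat_mul.comp (pr'_prim.comp (fst.comp fst)) (pl_prim.comp (fst.comp fst))))
  exact forall_lt' hR hb

/-- the decidable form -/
def Q (c : ℕ × List ℕ) : Prop :=
  c.2.length = c.1 * c.1 ∧ c.1 ≠ 0 ∧ (∀ x ∈ c.2, x < c.1) ∧
    (∀ a < c.1, ∀ b < c.1, ∀ d < c.1, tmul c (tmul c a b) d = tmul c a (tmul c b d)) ∧
    ∃ e < c.1, (∀ a < c.1, tmul c e a = a ∧ tmul c a e = a) ∧ ¬ crit c e

lemma Q_prim : PrimrecPred Q := by
  have t1 : Primrec (fun c : ℕ × List ℕ => c.1) := fst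
  refine (Primrec.eq.comp (list_length.comp snd) (nat_mul.comp fst fst)).and
    ((Primrec.eq.comp fst (const 0)).not.and (PrimrecPred.and ?_ (PrimrecPred.and ?_ ?_)))
  · have hR : PrimrecRel (fun (x : ℕ) (n : ℕ) => x < n) := nat_lt
    exact hR.forall_mem_list.comp snd fst
  · have hR3 : PrimrecRel (fun (d : ℕ) (q : ℕ × (ℕ × (ℕ × List ℕ))) =>
        tmul q.2.2 (tmul q.2.2 q.2.1 q.1) d = tmul q.2.2 q.2.1 (tmul q.2.2 q.1 d)) := by
      have hc : Primrec (fun p : ℕ × (ℕ × (ℕ × (ℕ × List ℕ))) => p.2.2.2) :=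
        snd.comp (snd.comp snd)
      have ha : Primrec (fun p : ℕ × (ℕ × (ℕ × (ℕ × List ℕ))) => p.2.2.1) :=
        fst.comp (snd.comp snd)
      have hb : Primrec (fun p : ℕ × (ℕ × (ℕ × (ℕ × List ℕ))) => p.2.1) := fst.comp snd
      have hd : Primrec (fun p : ℕ × (ℕ × (ℕ × (ℕ × List ℕ))) => p.1) := fst
      have hX := tmul_prim.comp (hc.pair ((tmul_prim.comp (hc.pair (ha.pair hb))).pair hd))
      have hY := tmul_prim.comp (hc.pair (ha.pair (tmul_prim.comp (hc.pair (hb.pair hd)))))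
      exact Primrec.eq.comp hX hY
    have hR2 : PrimrecRel (fun (b : ℕ) (q : ℕ × (ℕ × List ℕ)) => ∀ d < q.2.1,
        tmul q.2 (tmul q.2 q.1 b) d = tmul q.2 q.1 (tmul q.2 b d)) := by
      have hf : Primrec (fun p : ℕ × (ℕ × (ℕ × List ℕ)) => p.2.2.1) := fst.comp (snd.comp snd)
      exact forall_lt' hR3 hf
    have hR1 : PrimrecRel (fun (a : ℕ) (c : ℕ × List ℕ) => ∀ b < c.1, ∀ d < c.1,
        tmul c (tmul c a b) d = tmul c a (tmul c b d)) := by
      have hf : Primrec (fun p : ℕ × (ℕ × List ℕ) => p.2.1) := fst.comp snd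
      exact forall_lt' hR2 hf
    exact forall_lt' hR1 t1
  · have hI : PrimrecRel (fun (a : ℕ) (q : ℕ × (ℕ × List ℕ)) =>
        tmul q.2 q.1 a = a ∧ tmul q.2 a q.1 = a) := by
      have hc : Primrec (fun p : ℕ × (ℕ × (ℕ × List ℕ)) => p.2.2) := snd.comp snd
      have he : Primrec (fun p : ℕ × (ℕ × (ℕ × List ℕ)) => p.2.1) := fst.comp snd
      have ha : Primrec (fun p : ℕ × (ℕ × (ℕ × List ℕ)) => p.1) := fst
      exact PrimrecPred.primrecRel ((Primrec.eq.comp (tmul_prim.comp (hc.pair (he.pair ha))) ha).and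
        (Primrec.eq.comp (tmul_prim.comp (hc.pair (ha.pair he))) ha))
    have hE : PrimrecRel (fun (e : ℕ) (c : ℕ × List ℕ) =>
        (∀ a < c.1, tmul c e a = a ∧ tmul c a e = a) ∧ ¬ crit c e) := by
      have hf : Primrec (fun p : ℕ × (ℕ × List ℕ) => p.2.1) := fst.comp snd
      have h1 := forall_lt' hI hf
      have hg : Primrec (fun p : ℕ × (ℕ × List ℕ) => (p.2, p.1)) := snd.pair fst
      have h2 := (crit_prim.comp hg).not
      exact h1.and h2
    exact exists_lt' hE t1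

end Pool.Agent.H43R2
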