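import Mathlib
import Pool.Agent.H43R2.Words
set_option autoImplicit false

/-!
The `k`-letter identities of a finite monoid have a finite basis.
-/

namespace Pool.Agent.H43R2

universe u v

/-- `N` satisfies all `k`-letter identities of `M` -/
def Kid (M : Type u) (N : Type v) [Monoid M] [Monoid N] (k : ℕ) : Prop :=
  ∀ w w' : List ℕ, (∀ x ∈ w, x < k) → (∀ x ∈ w', x < k) → Eq' M w w' → Eq' N w w'

lemma Eq'.append {M : Type u} [Monoid M] {a b c d : List ℕ} (h : Eq' M a b) (h' : Eq' M c d) :
    Eq' M (a ++ c) (b ++ d) := by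
  intro f
  rw [val_append, val_append, h, h']

lemma val_congr {M : Type u} [Monoid M] (a b : ℕ → M) (w : List ℕ) (h : ∀ x ∈ w, a x = b x) :
    val a w = val b w := by
  unfold val
  rw [List.map_congr_left h]

theorem fb (M : Type u) [Monoid M] [Finite M] (k : ℕ) :
    ∃ F : Finset (FreeMonoid ℕ × FreeMonoid ℕ),
      (∀ p ∈ F, Eq' M (FreeMonoid.toList p.1) (FreeMonoid.toList p.2)) ∧
      ∀ (N : Type v) [Monoid N],
        (∀ p ∈ F, Eq' N (FreeMonoid.toList p.1) (FreeMonoid.toList p.2)) → Kid M N k := by
  classical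
  set V : List ℕ → ((Fin k → M) → M) := fun w a =>
    val (fun i => if h : i < k then a ⟨i, h⟩ else 1) w with hV
  have hVE : ∀ w w' : List ℕ, (∀ x ∈ w, x < k) → (∀ x ∈ w', x < k) →
      (V w = V w' ↔ Eq' M w w') := by
    intro w w' hw hw'
    constructor
    · intro h a
      have h1 := congrFun h (fun i => a i)
      rw [hV] at h1
      simp only at h1
      rw [val_congr a (fun i => if h : i < k then a i else 1) w (fun x hx => by simp [hw x hx]),
        val_congr a (fun i => if h : i < k then a i else 1) w' (fun x hx => by simp [hw' x hx])]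
      exact h1
    · intro h
      funext a
      exact h _
  have hex : ∀ f : (Fin k → M) → M, ∃ r : List ℕ, (∀ x ∈ r, x < k) ∧
      ((∃ w, (∀ x ∈ w, x < k) ∧ V w = f) → V r = f) := by
    intro f
    by_cases h : ∃ w, (∀ x ∈ w, x < k) ∧ V w = f
    · obtain ⟨w, h1, h2⟩ := h
      exact ⟨w, h1, fun _ => h2⟩
    · exact ⟨[], by simp, fun h' => absurd h' h⟩
  choose rep hrep1 hrep2 using hex
  have := Fintype.ofFinite ((Fin k → M) → M)
  set ℓ := Finset.univ.sup (fun f : (Fin k → M) → M => (rep f).length) with hℓ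
  have hrepl : ∀ f, (rep f).length ≤ ℓ := fun f =>
    Finset.le_sup (f := fun f : (Fin k → M) → M => (rep f).length) (Finset.mem_univ f)
  have hS : {w : List ℕ | w.length ≤ ℓ + 1 ∧ ∀ x ∈ w, x < k}.Finite := by
    have h1 : {w : List (Fin k) | w.length ≤ ℓ + 1}.Finite := List.finite_length_le (Fin k) (ℓ + 1)
    refine (h1.image (fun w => w.map Fin.val)).subset ?_
    rintro w ⟨h2, h3⟩
    refine ⟨w.pmap (fun x hx => ⟨x, hx⟩) h3, ?_, ?_⟩
    · simpa using h2
    · simp [List.map_pmap]
  set F : Finset (FreeMonoid ℕ × FreeMonoid ℕ) :=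
    ((hS.toFinset ×ˢ hS.toFinset).filter (fun p => Eq' M p.1 p.2)).image
      (fun p => (FreeMonoid.ofList p.1, FreeMonoid.ofList p.2)) with hF
  refine ⟨F, ?_, ?_⟩
  · intro p hp
    rw [hF, Finset.mem_image] at hp
    obtain ⟨q, hq, rfl⟩ := hp
    rw [Finset.mem_filter] at hq
    exact hq.2
  · intro N _ hN
    have hFN : ∀ w w' : List ℕ, w.length ≤ ℓ + 1 → (∀ x ∈ w, x < k) → w'.length ≤ ℓ + 1 →
        (∀ x ∈ w', x < k) → Eq' M w w' → Eq' N w w' := by
      intro w w' h1 h2 h3 h4 h5
      have := hN (FreeMonoid.ofList w, FreeMonoid.ofList w') (by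
        rw [hF, Finset.mem_image]
        refine ⟨(w, w'), ?_, rfl⟩
        rw [Finset.mem_filter, Finset.mem_product]
        exact ⟨⟨by simpa using ⟨h1, h2⟩, by simpa using ⟨h3, h4⟩⟩, h5⟩)
      exact this
    have key : ∀ w : List ℕ, (∀ x ∈ w, x < k) → Eq' N w (rep (V w)) := by
      intro w
      induction w using List.reverseRecOn with
      | nil =>
        intro _
        apply hFN [] _ (by simp) (by simp) ((hrepl _).trans (by omega)) (hrep1 _)
        rw [← hVE [] _ (by simp) (hrep1 _)]
        exact (hrep2 _ ⟨[], by simp, rfl⟩).symm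
      | append_singleton w x ih =>
        intro hw
        have hw1 : ∀ y ∈ w, y < k := fun y hy => hw y (by simp [hy])
        have hx : x < k := hw x (by simp)
        have h1 := ih hw1
        have h2 : Eq' N (w ++ [x]) (rep (V w) ++ [x]) := h1.append (fun _ => rfl)
        have h3 : Eq' M w (rep (V w)) :=
          (hVE _ _ hw1 (hrep1 _)).1 (hrep2 _ ⟨w, hw1, rfl⟩).symm
        have h4 : Eq' M (w ++ [x]) (rep (V w) ++ [x]) := h3.append (fun _ => rfl)
        have h5 : Eq' M (w ++ [x]) (rep (V (w ++ [x]))) :=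
          (hVE _ _ hw (hrep1 _)).1 (hrep2 _ ⟨_, hw, rfl⟩).symm
        have h6 : Eq' N (rep (V w) ++ [x]) (rep (V (w ++ [x]))) := by
          apply hFN
          · rw [List.length_append, List.length_singleton]
            have := hrepl (V w)
            omega
          · intro y hy
            rcases List.mem_append.1 hy with hy | hy
            · exact hrep1 _ y hy
            · rw [List.mem_singleton] at hy
              omega
          · exact (hrepl _).trans (by omega)
          · exact hrep1 _
          · intro a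
            rw [← h4, h5]
        intro a
        rw [h2, h6]
    intro w w' hw hw' h a
    have h1 : V w = V w' := (hVE _ _ hw hw').2 h
    rw [key w hw, h1, ← key w' hw']

end Pool.Agent.H43R2
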