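import Mathlib
set_option autoImplicit false

/-!
A finite group has finitely many laws that force finitely generated groups to be finite.
-/

namespace Pool.Agent.H43R2

open Subgroup
open scoped commutatorElement

universe u v w

/-- `G` satisfies the laws of `H` in the variables `ι` -/
def Laws (H : Type u) (G : Type v) [Group H] [Group G] (ι : Type w) : Prop :=
  ∀ w : FreeGroup ι, (∀ f : ι → H, FreeGroup.lift f w = 1) → ∀ f : ι → G, FreeGroup.lift f w = 1

lemma Laws.of_embedding {H : Type u} {G : Type v} [Group H] [Group G] {ι κ : Type*}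
    (h : Laws H G κ) (e : ι ↪ κ) : Laws H G ι := by
  intro w hw f
  have h2 := h (FreeGroup.map e w) (fun f => by
    have h1 : FreeGroup.lift f (FreeGroup.map e w) = FreeGroup.lift (f ∘ e) w := by
      have : (FreeGroup.lift f).comp (FreeGroup.map e) = FreeGroup.lift (f ∘ e) := by
        ext x; simp
      rw [← this]; rfl
    rw [h1]; exact hw _) (Function.extend e f 1)
  have h3 : (FreeGroup.lift (Function.extend e f 1)).comp (FreeGroup.map e) =
      FreeGroup.lift f := by
    ext x; simp [e.injective.extend_apply]
  rw [← h3]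
  exact h2

section commutators

/-- iterated commutator -/
def ic {G : Type u} [Group G] : List G → G → G
  | [], z => z
  | a :: l, z => ⁅ic l z, a⁆

lemma ic_one {G : Type u} [Group G] (l : List G) : ic l 1 = 1 := by
  induction l with
  | nil => rfl
  | cons a l ih => rw [ic, ih, commutatorElement_one_left]

lemma ic_of_mem {G : Type u} [Group G] (l : List G) (z : G) (h : (1 : G) ∈ l) : ic l z = 1 := by
  induction l with
  | nil => simp at h
  | cons a l ih =>
    rw [ic]
    rcases List.mem_cons.1 h with h | h
    · rw [← h, commutatorElement_one_right]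
    · rw [ih h, commutatorElement_one_left]

lemma map_ic {G : Type u} {K : Type v} [Group G] [Group K] (f : G →* K) (l : List G) (z : G) :
    f (ic l z) = ic (l.map f) (f z) := by
  induction l with
  | nil => rfl
  | cons a l ih => rw [ic, _root_.map_commutatorElement, ih]; rfl

lemma ic_mem {G : Type u} [Group G] (K : Subgroup G) [K.Normal] (l : List G) (z : G)
    (hz : z ∈ K) : ic l z ∈ K := by
  induction l with
  | nil => exact hz
  | cons a l ih =>
    rw [ic, commutatorElement_def, mul_assoc, mul_assoc]
    refine K.mul_mem ih ?_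
    rw [← mul_assoc]
    exact Normal.conj_mem inferInstance _ (K.inv_mem ih) a

/-- variables of the commutator law -/
abbrev Vr (m : ℕ) := Option (Fin (m + 1) ⊕ (Fin (m + 1) × Fin (m + 1)))

/-- list of pairs -/
noncomputable def prs (m : ℕ) : List (Fin (m + 1) × Fin (m + 1)) :=
  (Finset.univ.filter (fun p : Fin (m + 1) × Fin (m + 1) => p.1 < p.2)).toList

/-- entry of the commutator law -/
def ent {G : Type u} [Group G] {m : ℕ} (x : Fin (m + 1) → G)
    (y : Fin (m + 1) × Fin (m + 1) → G) (p : Fin (m + 1) × Fin (m + 1)) : G :=
  y p * (x p.1 * (x p.2)⁻¹) * (y p)⁻¹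

/-- the commutator law -/
noncomputable def cw (m : ℕ) : FreeGroup (Vr m) :=
  ic ((prs m).map (ent (fun i => FreeGroup.of (some (Sum.inl i)))
    (fun p => FreeGroup.of (some (Sum.inr p))))) (FreeGroup.of none)

lemma lift_cw (m : ℕ) {K : Type u} [Group K] (f : Vr m → K) : FreeGroup.lift f (cw m) =
    ic ((prs m).map (ent (fun i => f (some (Sum.inl i))) (fun p => f (some (Sum.inr p)))))
      (f none) := by
  rw [cw, map_ic, List.map_map, FreeGroup.lift_apply_of]
  congr 1
  apply List.map_congr_left
  intro p _
  simp [ent]

lemma law_comm {H : Type u} {G : Type v} [Group H] [Group G] [Finite H]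
    (h : Laws H G (Vr (Nat.card H))) (z : G) (x : Fin (Nat.card H + 1) → G)
    (y : Fin (Nat.card H + 1) × Fin (Nat.card H + 1) → G) :
    ic ((prs (Nat.card H)).map (ent x y)) z = 1 := by
  have h1 := h (cw (Nat.card H)) (fun f => by
    rw [lift_cw]
    apply ic_of_mem
    have hni : ¬ Function.Injective (fun i : Fin (Nat.card H + 1) => f (some (Sum.inl i))) := by
      intro hinj
      have h2 := Nat.card_le_card_of_injective _ hinj
      rw [Nat.card_eq_fintype_card, Fintype.card_fin] at h2
      omega
    obtain ⟨i, j, hij, hlt⟩ : ∃ i j : Fin (Nat.card H + 1),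
        f (some (Sum.inl i)) = f (some (Sum.inl j)) ∧ i < j := by
      simp only [Function.Injective, not_forall] at hni
      obtain ⟨i, j, h1, h2⟩ := hni
      rcases lt_or_gt_of_ne h2 with h | h
      · exact ⟨i, j, h1, h⟩
      · exact ⟨j, i, h1.symm, h⟩
    rw [List.mem_map]
    refine ⟨(i, j), by simp [prs, hlt], ?_⟩
    simp [ent, hij]) (fun o => match o with
      | none => z
      | some (Sum.inl i) => x i
      | some (Sum.inr p) => y p)
  rw [lift_cw] at h1
  exact h1

end commutators

/-- The chief factor lemma. -/
lemma chief {G : Type u} [Group G] {m : ℕ}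
    (hlaw : ∀ (z : G) (x : Fin (m + 1) → G) (y : Fin (m + 1) × Fin (m + 1) → G),
      ic ((prs m).map (ent x y)) z = 1)
    (K L Q : Subgroup G) [K.Normal] [L.Normal] (hLK : L ≤ K) (hQK : Q ≤ K)
    (hK : ∀ N : Subgroup G, N.Normal → Q ≤ N → K ≤ N) (hQL : ¬ Q ≤ L)
    (hmax : ∀ N : Subgroup G, N.Normal → L ≤ N → N ≤ K → ¬ Q ≤ N → N ≤ L) :
    ∃ C : Subgroup G, C.Normal ∧ C.index ≠ 0 ∧ C.index ≤ m ∧ ⁅K, C⁆ ≤ L := by
  classical
  set q := QuotientGroup.mk' L with hq
  set C : Subgroup G := (centralizer ((K.map q : Subgroup (G ⧸ L)) : Set (G ⧸ L))).comap q with hC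
  have hKn : (K.map q).Normal := Normal.map inferInstance q (QuotientGroup.mk'_surjective L)
  have hCn : C.Normal := Normal.comap inferInstance q
  have hmemC : ∀ g, g ∈ C ↔ ∀ k ∈ K, ⁅k, g⁆ ∈ L := by
    intro g
    rw [hC, mem_comap, mem_centralizer_iff_commutator_eq_one]
    constructor
    · intro h k hk
      have := h (q k) ⟨k, hk, rfl⟩
      rw [← map_commutatorElement, hq, QuotientGroup.mk'_apply, QuotientGroup.eq_one_iff] at this
      exact this
    · rintro h _ ⟨k, hk, rfl⟩
      rw [← map_commutatorElement, hq, QuotientGroup.mk'_apply, QuotientGroup.eq_one_iff]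
      exact h k hk
  have hcomm : ⁅K, C⁆ ≤ L := by
    rw [commutator_le]
    intro k hk g hg
    exact (hmemC g).1 hg k hk
  by_cases hidx : C.index ≠ 0 ∧ C.index ≤ m
  · exact ⟨C, hCn, hidx.1, hidx.2, hcomm⟩
  exfalso
  -- choose m + 1 cosets
  obtain ⟨x, hx⟩ : ∃ x : Fin (m + 1) → G, ∀ i j, i ≠ j → x i * (x j)⁻¹ ∉ C := by
    have : ∃ f : Fin (m + 1) → G ⧸ C, Function.Injective f := by
      rcases finite_or_infinite (G ⧸ C) with hf | hf
      · have := Fintype.ofFinite (G ⧸ C)
        have h1 : Fintype.card (Fin (m + 1)) ≤ Fintype.card (G ⧸ C) := by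
          rw [Fintype.card_fin, ← Nat.card_eq_fintype_card]
          change m + 1 ≤ C.index
          by_contra hlt
          apply hidx
          refine ⟨?_, by omega⟩
          have : Nat.card (G ⧸ C) ≠ 0 := Nat.card_pos.ne'
          exact this
        obtain ⟨f⟩ := Function.Embedding.nonempty_of_card_le h1
        exact ⟨f, f.injective⟩
      · exact ⟨fun i => Infinite.natEmbedding (G ⧸ C) i.1, fun i j h =>
          Fin.ext ((Infinite.natEmbedding (G ⧸ C)).injective h)⟩
    obtain ⟨f, hf⟩ := this
    choose x hx using fun i => QuotientGroup.mk_surjective (f i)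
    refine ⟨x, fun i j hij hmem => hij (hf ?_)⟩
    rw [← hx i, ← hx j, eq_comm, QuotientGroup.eq]
    have := hCn.mem_comm hmem
    exact this
  have main : ∀ l : List (Fin (m + 1) × Fin (m + 1)), l.Nodup → (∀ p ∈ l, p.1 ≠ p.2) →
      (∀ z ∈ K, ∀ y, ic (l.map (ent x y)) z ∈ L) → K ≤ L := by
    intro l
    induction l with
    | nil => intro _ _ h z hz; exact h z hz 1
    | cons p l ih =>
      intro hnd hne h
      rw [List.nodup_cons] at hnd
      refine ih hnd.2 (fun p hp => hne p (by simp [hp])) ?_
      intro z hz y
      set w := ic (l.map (ent x y)) z with hw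
      have hwK : w ∈ K := ic_mem K _ _ hz
      set d := x p.1 * (x p.2)⁻¹ with hd
      have hdC : d ∉ C := hx _ _ (hne p (by simp))
      have h1 : ∀ g, ⁅w, g * d * g⁻¹⁆ ∈ L := by
        intro g
        have h2 := h z hz (Function.update y p g)
        rw [List.map_cons, ic] at h2
        have e1 : l.map (ent x (Function.update y p g)) = l.map (ent x y) := by
          apply List.map_congr_left
          intro p' hp'
          have : p' ≠ p := fun e => hnd.1 (e ▸ hp')
          simp [ent, Function.update_of_ne this]
        have e2 : ent x (Function.update y p g) p = g * d * g⁻¹ := by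
          simp [ent, hd]
        rw [e1, e2] at h2
        exact h2
      set N : Subgroup G := K ⊓ (centralizer ((normalClosure {q d} : Subgroup (G ⧸ L)) :
        Set (G ⧸ L))).comap q with hN
      have hNn : N.Normal := by
        rw [hN]
        have : ((centralizer ((normalClosure {q d} : Subgroup (G ⧸ L)) :
          Set (G ⧸ L))).comap q).Normal := Normal.comap inferInstance q
        infer_instance
      have hwN : w ∈ N := by
        refine ⟨hwK, ?_⟩
        change q w ∈ centralizer _
        rw [normalClosure, centralizer_closure, mem_centralizer_iff_commutator_eq_one']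
        intro c hc
        rw [Group.mem_conjugatesOfSet_iff] at hc
        obtain ⟨a, ha, hc⟩ := hc
        rw [Set.mem_singleton_iff] at ha
        subst ha
        rw [isConj_iff] at hc
        obtain ⟨g, rfl⟩ := hc
        obtain ⟨g, rfl⟩ := QuotientGroup.mk'_surjective L g
        have := h1 g
        rw [← QuotientGroup.eq_one_iff] at this
        change q _ = 1 at this
        rw [map_commutatorElement, map_mul, map_mul, map_inv] at this
        exact this
      have hLN : L ≤ N := by
        intro g hg
        refine ⟨hLK hg, ?_⟩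
        change q g ∈ centralizer _
        have : q g = 1 := by rw [hq, QuotientGroup.mk'_apply, QuotientGroup.eq_one_iff]; exact hg
        rw [this]
        exact one_mem _
      refine hmax N hNn hLN inf_le_left ?_ hwN
      intro hQN
      have hKN := hK N hNn hQN
      apply hdC
      rw [hmemC]
      intro k hk
      have h3 := (hKN hk).2
      change q k ∈ centralizer _ at h3
      rw [mem_centralizer_iff_commutator_eq_one'] at h3
      have h4 := h3 (q d) (subset_normalClosure (Set.mem_singleton _))
      rw [← map_commutatorElement, hq, QuotientGroup.mk'_apply, QuotientGroup.eq_one_iff] at h4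
      exact h4
  refine hQL (hQK.trans (main (prs m) (Finset.nodup_toList _) ?_ ?_))
  · intro p hp
    simp only [prs, Finset.mem_toList, Finset.mem_filter, Finset.mem_univ, true_and] at hp
    exact hp.ne
  · intro z _ y
    rw [hlaw]
    exact L.one_mem

end Pool.Agent.H43R2
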