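import Mathlib
import Pool.Agent.H43R2.Groups
set_option autoImplicit false

/-!
Finitely generated groups satisfying many laws of a finite group are finite.
-/

namespace Pool.Agent.H43R2

open Subgroup
open scoped commutatorElement

universe u v w

lemma finite_hom (G : Type u) (K : Type v) [Group G] [Group K] [Group.FG G] [Finite K] :
    Finite (G →* K) := by
  obtain ⟨S, hS⟩ := Group.FG.out (G := G)
  refine Finite.of_injective (fun (f : G →* K) (s : S) => f s) ?_
  intro f g h
  apply MonoidHom.eq_of_eqOn_dense hS
  intro x hx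
  exact congrFun h ⟨x, hx⟩

/-- the intersection of the kernels of all actions on at most `m` points -/
def RR (G : Type u) [Group G] (m : ℕ) : Subgroup G :=
  ⨅ p : (Σ j : Fin (m + 1), (G →* Equiv.Perm (Fin j))), p.2.ker

lemma RR_finiteIndex (G : Type u) [Group G] [Group.FG G] (m : ℕ) : (RR G m).FiniteIndex := by
  have : ∀ j : Fin (m + 1), Finite (G →* Equiv.Perm (Fin j)) := fun j => finite_hom _ _
  exact finiteIndex_iInf (fun p => inferInstance)

lemma RR_le {G : Type u} [Group G] {m : ℕ} (C : Subgroup G) (_hC : C.Normal)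
    (h0 : C.index ≠ 0) (hm : C.index ≤ m) : RR G m ≤ C := by
  have hfin : Finite (G ⧸ C) := by
    have : C.FiniteIndex := ⟨h0⟩
    infer_instance
  have e : (G ⧸ C) ≃ Fin C.index := by
    have := Finite.equivFin (G ⧸ C)
    exact this
  set f : G →* Equiv.Perm (Fin C.index) :=
    (e.permCongrHom.toMonoidHom).comp (MulAction.toPermHom G (G ⧸ C)) with hf
  have hker : f.ker ≤ C := by
    intro g hg
    rw [MonoidHom.mem_ker, hf] at hg
    have h1 : MulAction.toPermHom G (G ⧸ C) g = 1 := by
      have : e.permCongrHom (MulAction.toPermHom G (G ⧸ C) g) = 1 := hg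
      rwa [map_eq_one_iff _ e.permCongrHom.injective] at this
    have h2 := congrArg (fun σ : Equiv.Perm (G ⧸ C) => σ ((1 : G) : G ⧸ C)) h1
    have h3 : ((g * 1 : G) : G ⧸ C) = ((1 : G) : G ⧸ C) := h2
    rw [mul_one, QuotientGroup.eq] at h3
    simpa using h3
  refine le_trans ?_ hker
  exact iInf_le (fun p : (Σ j : Fin (m + 1), (G →* Equiv.Perm (Fin j))) => p.2.ker)
    ⟨⟨C.index, by omega⟩, f⟩

lemma nilp_of_le {G : Type u} [Group G] {m : ℕ}
    (hlaw : ∀ (z : G) (x : Fin (m + 1) → G) (y : Fin (m + 1) × Fin (m + 1) → G),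
      ic ((prs m).map (ent x y)) z = 1)
    (P : Subgroup G) [hPf : Finite P] (hP : P ≤ RR G m) : Group.IsNilpotent P := by
  classical
  by_contra hnil
  rw [isNilpotent_iff_lowerCentralSeries] at hnil
  push Not at hnil
  -- stabilisation
  obtain ⟨n, hn⟩ : ∃ n, P.lowerCentralSeries n = P.lowerCentralSeries (n + 1) := by
    by_contra hcon
    push Not at hcon
    have hfin : ∀ n, Finite (P.lowerCentralSeries n) := fun n =>
      Finite.of_injective (Subgroup.inclusion (lowerCentralSeries_le_self P n))
        (Subgroup.inclusion_injective _)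
    have hcard : ∀ n, Nat.card (P.lowerCentralSeries n) + n ≤ Nat.card P := by
      intro n
      induction n with
      | zero => simp
      | succ n ih =>
        have h1 : P.lowerCentralSeries (n + 1) < P.lowerCentralSeries n :=
          lt_of_le_of_ne (P.lowerCentralSeries_antitone (Nat.le_succ n)) (hcon n).symm
        have h2 : Nat.card (P.lowerCentralSeries (n + 1)) < Nat.card (P.lowerCentralSeries n) := by
          have := hfin n
          exact Set.Finite.card_lt_card (Set.toFinite _) h1
        omega
    have h1 := hcard (Nat.card P + 1)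
    omega
  set Q := P.lowerCentralSeries n with hQ
  have hQP : ⁅Q, P⁆ = Q := by rw [hQ, ← Subgroup.lowerCentralSeries_succ, ← hn]
  have hQb : Q ≠ ⊥ := hnil n
  have hQle : Q ≤ P := lowerCentralSeries_le_self P n
  have hQfin : (Q : Set G).Finite := (Set.toFinite (P : Set G)).subset hQle
  set K := normalClosure (Q : Set G) with hK
  have hQK : Q ≤ K := subset_normalClosure
  -- maximal normal subgroup
  obtain ⟨L, hL⟩ : ∃ L, Maximal (fun N : Subgroup G => N ∈ {N : Subgroup G | N.Normal ∧ N ≤ K ∧
      ¬ Q ≤ N}) L := by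
    apply zorn_le₀
    intro c hc hchain
    rcases Set.eq_empty_or_nonempty c with rfl | hne
    · refine ⟨⊥, ⟨inferInstance, bot_le, ?_⟩, by simp⟩
      intro h
      exact hQb (le_bot_iff.1 h)
    · have hdir : DirectedOn (· ≤ ·) c := hchain.directedOn
      refine ⟨sSup c, ⟨?_, ?_, ?_⟩, fun N hN => le_sSup hN⟩
      · constructor
        intro g hg h
        rw [mem_sSup_of_directedOn hne hdir] at hg ⊢
        obtain ⟨N, hN, hgN⟩ := hg
        exact ⟨N, hN, (hc hN).1.conj_mem g hgN h⟩
      · exact sSup_le (fun N hN => (hc hN).2.1)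
      · intro hQs
        have h1 : (Q : Set G) ⊆ ⋃ N ∈ c, (N : Set G) := by
          intro x hx
          have := hQs hx
          rw [mem_sSup_of_directedOn hne hdir] at this
          obtain ⟨N, hN, hxN⟩ := this
          exact Set.mem_biUnion hN hxN
        obtain ⟨N, hN, hQN⟩ := DirectedOn.exists_mem_subset_of_finset_subset_biUnion
          (s := hQfin.toFinset) hne hdir (by simpa using h1)
        exact (hc hN).2.2 (by simpa using hQN)
  obtain ⟨⟨hLn, hLK, hQL⟩, hLmax⟩ := hL
  have hKn : K.Normal := normalClosure_normal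
  obtain ⟨C, hCn, hC0, hCm, hKC⟩ := chief hlaw K L Q hLK hQK
    (fun N hN h => normalClosure_le_normal h) hQL
    (fun N hN hLN hNK hQN => hLmax ⟨hN, hNK, hQN⟩ hLN)
  apply hQL
  calc Q = ⁅Q, P⁆ := hQP.symm
    _ ≤ ⁅K, C⁆ := commutator_mono hQK (hP.trans (RR_le C hCn hC0 hCm))
    _ ≤ L := hKC

lemma fin_lcs {H : Type u} [Group H] [Finite H] (S : Subgroup H) (hS : Group.IsNilpotent S) :
    S.lowerCentralSeries (Nat.card H) = ⊥ := by
  rw [isNilpotent_iff_lowerCentralSeries] at hS
  obtain ⟨n, hn⟩ := hS
  have hcard : ∀ i, S.lowerCentralSeries i = ⊥ ∨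
      Nat.card (S.lowerCentralSeries i) + i ≤ Nat.card H := by
    intro i
    induction i with
    | zero => right; simpa using Subgroup.card_le_card_group S
    | succ i ih =>
      rcases ih with h | h
      · left
        rw [eq_bot_iff, ← h]
        exact S.lowerCentralSeries_antitone (Nat.le_succ i)
      · by_cases heq : S.lowerCentralSeries (i + 1) = S.lowerCentralSeries i
        · left
          have h1 : ∀ k, S.lowerCentralSeries (i + k) = S.lowerCentralSeries i := by
            intro k
            induction k with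
            | zero => rfl
            | succ k ihk =>
              rw [← add_assoc, Subgroup.lowerCentralSeries_succ, ihk, ← Subgroup.lowerCentralSeries_succ, heq]
          rw [heq, eq_bot_iff, ← hn, ← h1 n]
          exact S.lowerCentralSeries_antitone (by omega)
        · right
          have h1 : S.lowerCentralSeries (i + 1) < S.lowerCentralSeries i :=
            lt_of_le_of_ne (S.lowerCentralSeries_antitone (Nat.le_succ i)) heq
          have h2 : Nat.card (S.lowerCentralSeries (i + 1)) <
              Nat.card (S.lowerCentralSeries i) :=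
            Set.Finite.card_lt_card (Set.toFinite _) h1
          omega
  rcases hcard (Nat.card H) with h | h
  · exact h
  · exfalso
    have : 0 < Nat.card (S.lowerCentralSeries (Nat.card H)) := Nat.card_pos
    omega

lemma lift_nilp {F : Type u} {G : Type v} [Group F] [Finite F] [Group G] (π : F →* G)
    (hP : Group.IsNilpotent π.range) :
    ∃ F0 : Subgroup F, F0.map π = π.range ∧ Group.IsNilpotent F0 := by
  classical
  obtain ⟨F0, hF0, hmin⟩ : ∃ F0 : Subgroup F, F0.map π = π.range ∧
      ∀ F1 : Subgroup F, F1 < F0 → F1.map π ≠ π.range := by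
    obtain ⟨F0, h1, h2⟩ := WellFounded.has_min (wellFounded_lt (α := Subgroup F))
      {F0 | F0.map π = π.range} ⟨⊤, by rw [Set.mem_ofPred_eq, MonoidHom.range_eq_map]⟩
    exact ⟨F0, h1, fun F1 hF1 h => h2 F1 h hF1⟩
  refine ⟨F0, hF0, ?_⟩
  refine ((Group.isNilpotent_of_finite_tfae (G := F0)).out 0 2 rfl rfl).2 ?_
  intro S hS
  -- the surjection
  set q : F0 →* π.range := (π.comp F0.subtype).codRestrict π.range (fun x => ⟨x, rfl⟩) with hq
  have hqs : Function.Surjective q := by
    rintro ⟨y, hy⟩
    rw [← hF0] at hy
    obtain ⟨x, hx, rfl⟩ := hy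
    exact ⟨⟨x, hx⟩, rfl⟩
  have hSmap : ∀ S' : Subgroup F0, S'.map q = ⊤ → S' = ⊤ := by
    intro S' h
    by_contra hne
    have hlt : S'.map F0.subtype < F0 := by
      refine lt_of_le_of_ne (map_subtype_le S') ?_
      intro h2
      apply hne
      rw [eq_top_iff]
      intro x _
      have hx : (x : F) ∈ S'.map F0.subtype := by rw [h2]; exact x.2
      obtain ⟨y, hy, hyx⟩ := hx
      have : y = x := Subtype.ext hyx
      exact this ▸ hy
    apply hmin _ hlt
    apply le_antisymm
    · rintro _ ⟨x, _, rfl⟩
      exact ⟨x, rfl⟩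
    · intro y hy
      have hy2 : (⟨y, hy⟩ : π.range) ∈ S'.map q := by rw [h]; trivial
      obtain ⟨x, hx, hxy⟩ := hy2
      refine ⟨x, ⟨x, hx, rfl⟩, ?_⟩
      exact congrArg Subtype.val hxy
  have hker : q.ker ≤ S := by
    by_contra hnle
    have h1 : S ⊔ q.ker = ⊤ := hS.2 _ (lt_of_le_of_ne le_sup_left (fun h => hnle (by
      rw [h]; exact le_sup_right)))
    have h2 : S.map q = ⊤ := by
      have h3 := congrArg (Subgroup.map q) h1
      rw [Subgroup.map_sup, (Subgroup.map_eq_bot_iff q.ker).2 le_rfl, sup_bot_eq,
        Subgroup.map_top_of_surjective q hqs] at h3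
      exact h3
    exact hS.1 (hSmap S h2)
  have hmapne : S.map q ≠ ⊤ := fun h => hS.1 (hSmap S h)
  have hnc : NormalizerCondition π.range := Group.normalizerCondition_of_isNilpotent (h := hP)
  have h1 := hnc (S.map q) (lt_top_iff_ne_top.2 hmapne)
  have h2 : S < normalizer (S : Set F0) := by
    have h3 : comap q (S.map q) = S := comap_map_eq_self hker
    have h4 : comap q (normalizer ((S.map q : Subgroup π.range) : Set π.range)) =
        normalizer ((comap q (S.map q) : Subgroup F0) : Set F0) :=
      comap_normalizer_eq_of_surjective _ hqs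
    rw [h3] at h4
    rw [← h4]
    refine lt_of_le_of_ne ?_ ?_
    · intro x hx
      exact h1.le ⟨x, hx, rfl⟩
    · intro h5
      apply h1.ne
      apply comap_injective hqs
      rw [h3]; exact h5
  have h3 := hS.2 _ h2
  exact normalizer_eq_top_iff.1 h3

lemma class_bound {H : Type u} {G : Type v} [Group H] [Group G] [Finite H]
    (hlaw : Laws H G (Vr (Nat.card H))) {ι : Type} [Finite ι] (hlaw2 : Laws H G ι) (x : ι → G)
    (hx : ∀ i, x i ∈ RR G (Nat.card H)) :
    (closure (Set.range x)).lowerCentralSeries (Nat.card H) = ⊥ := by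
  classical
  set Φ : FreeGroup ι →* ((ι → H) → H) := MonoidHom.pi (fun j => FreeGroup.lift j) with hΦ
  set Ψ : FreeGroup ι →* G := FreeGroup.lift x with hΨ
  have hker : Φ.ker ≤ Ψ.ker := by
    intro w hw
    rw [MonoidHom.mem_ker] at hw ⊢
    apply hlaw2 w
    intro f
    exact congrFun hw f
  -- the induced homomorphism
  have hsurj : Function.Surjective Φ.rangeRestrict := Φ.rangeRestrict_surjective
  set π : Φ.range →* G := Φ.rangeRestrict.liftOfSurjective hsurj ⟨Ψ, by
    rw [MonoidHom.ker_rangeRestrict]; exact hker⟩ with hπ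
  have hπΦ : ∀ w, π (Φ.rangeRestrict w) = Ψ w := by
    intro w
    exact MonoidHom.liftOfRightInverse_comp_apply _ _ _ _ w
  have hrange : π.range = closure (Set.range x) := by
    have h1 : π.range = Ψ.range := by
      apply le_antisymm
      · rintro _ ⟨y, rfl⟩
        obtain ⟨w, rfl⟩ := hsurj y
        exact ⟨w, (hπΦ w).symm⟩
      · rintro _ ⟨w, rfl⟩
        exact ⟨_, hπΦ w⟩
    rw [h1, hΨ, FreeGroup.range_lift_eq_closure]
  have hfinH : Finite ((ι → H) → H) := inferInstance
  have hPle : π.range ≤ RR G (Nat.card H) := by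
    rw [hrange, closure_le]
    rintro _ ⟨i, rfl⟩
    exact hx i
  have hFf : Finite Φ.range := Subtype.finite
  have hPf : Finite π.range := (Set.finite_range π).to_subtype
  have hnil : Group.IsNilpotent π.range := nilp_of_le (law_comm hlaw) π.range hPle
  obtain ⟨F0, h1, h2⟩ := lift_nilp π hnil
  rw [← hrange, ← h1, ← map_lowerCentralSeries]
  have h3 : F0.lowerCentralSeries (Nat.card H) = ⊥ := by
    rw [eq_bot_iff]
    intro y hy
    rw [mem_bot]
    apply Subtype.ext
    funext j
    set ev : Φ.range →* H := (Pi.evalMonoidHom (fun _ : (ι → H) => H) j).comp Φ.range.subtype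
      with hev
    have h4 : ev y ∈ (F0.lowerCentralSeries (Nat.card H)).map ev := ⟨y, hy, rfl⟩
    rw [map_lowerCentralSeries] at h4
    have h5 : Group.IsNilpotent (F0.map ev) := by
      have : Function.Surjective (ev.subgroupMap F0) := ev.subgroupMap_surjective F0
      exact Group.nilpotent_of_surjective _ this
    rw [fin_lcs _ h5, mem_bot] at h4
    exact h4
  rw [h3, Subgroup.map_bot]

lemma foldl_mem {G : Type u} [Group G] (P : Subgroup G) (l : List G) : ∀ (n : ℕ) (z : G),
    z ∈ P.lowerCentralSeries n → (∀ a ∈ l, a ∈ P) →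
    l.foldl (fun w a => ⁅w, a⁆) z ∈ P.lowerCentralSeries (n + l.length) := by
  induction l with
  | nil => intro n z hz _; simpa using hz
  | cons a l ih =>
    intro n z hz hl
    rw [List.foldl_cons, List.length_cons, add_comm l.length 1, ← add_assoc]
    refine ih (n + 1) _ ?_ (fun b hb => hl b (by simp [hb]))
    rw [Subgroup.lowerCentralSeries_succ]
    exact commutator_mem_commutator hz (hl a (by simp))

lemma ucs_of_foldl {K : Type u} [Group K] (c : ℕ) : ∀ z : K,
    (∀ l : List K, l.length = c → l.foldl (fun w a => ⁅w, a⁆) z = 1) →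
    z ∈ Subgroup.upperCentralSeries K c := by
  induction c with
  | zero =>
    intro z h
    have := h [] rfl
    rw [Subgroup.upperCentralSeries_zero, mem_bot]
    exact this
  | succ c ih =>
    intro z h
    rw [Subgroup.mem_upperCentralSeries_succ_iff]
    intro y
    apply ih
    intro l hl
    have := h (y :: l) (by simp [hl])
    exact this

lemma finite_of_nilp (G : Type u) [Group G] [Group.IsNilpotent G] :
    Group.FG G → IsMulTorsion G → Finite G := by
  refine Group.nilpotent_center_quotient_ind (P := fun G _ _ => Group.FG G → IsMulTorsion G →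
    Finite G) G ?_ ?_
  · intro G _ _ _ _
    infer_instance
  · intro G _ _ ih hfg htor
    have h1 : Finite (G ⧸ center G) := by
      apply ih
      · exact Group.fg_of_surjective (QuotientGroup.mk'_surjective (center G))
      · exact htor.of_surjective (QuotientGroup.mk'_surjective (center G))
    have h2 : (center G).FiniteIndex := finiteIndex_of_finite_quotient
    have h3 : Group.FG (center G) := inferInstance
    have h4 : Finite (center G) := by
      let _ : CommGroup (center G) := { (inferInstance : Group (center G)) with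
        mul_comm := fun a b => Subtype.ext ((mem_center_iff.1 b.2 a)) }
      exact CommGroup.finite_of_fg_isMulTorsion _ (htor.subgroup _)
    exact Finite.of_subgroup_quotient (center G)

theorem op (H : Type u) [Group H] [Finite H] : ∃ k : ℕ, 1 ≤ k ∧ ∀ (G : Type v) [Group G],
    Group.FG G → Laws H G (Fin k) → Finite G := by
  classical
  set m := Nat.card H with hm
  refine ⟨Fintype.card (Vr m), Fintype.card_pos, ?_⟩
  intro G _ hfg hlaw
  have e1 : Vr m ↪ Fin (Fintype.card (Vr m)) := (Fintype.equivFin (Vr m)).toEmbedding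
  have hl1 : Laws H G (Vr m) := hlaw.of_embedding e1
  have hl2 : Laws H G (Fin (m + 1)) := hl1.of_embedding
    ⟨fun i => some (Sum.inl i), fun i j h => by simpa using h⟩
  have hl3 : Laws H G Unit := hl2.of_embedding ⟨fun _ => 0, fun i j _ => Subsingleton.elim _ _⟩
  have hexp : ∀ g : G, g ^ m = 1 := by
    intro g
    have := hl3 (FreeGroup.of () ^ m) (fun f => by
      rw [map_pow, FreeGroup.lift_apply_of, hm]
      exact pow_card_eq_one') (fun _ => g)
    simpa using this
  have htor : IsMulTorsion G := fun g =>
    isOfFinOrder_iff_pow_eq_one.2 ⟨m, Nat.card_pos, hexp g⟩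
  have hR := RR_finiteIndex G m
  have hRfg : Group.FG (RR G m) := inferInstance
  have hnil : Group.IsNilpotent (RR G m) := by
    refine ⟨m, ?_⟩
    rw [eq_top_iff]
    intro z _
    apply ucs_of_foldl
    intro l hl
    -- pass to the ambient group
    have h1 : ∀ (l : List (RR G m)) (z : RR G m),
        ((l.foldl (fun w a => ⁅w, a⁆) z : RR G m) : G) =
        (l.map Subtype.val).foldl (fun w a => ⁅w, a⁆) (z : G) := by
      intro l
      induction l with
      | nil => intro z; rfl
      | cons a l ih => intro z; rw [List.foldl_cons, ih]; rfl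
    apply Subtype.ext
    rw [h1]
    set x : Fin (m + 1) → G := Fin.cons (z : G) (fun i => (l.get ⟨i.1, by omega⟩ : G)) with hx
    have h2 := class_bound hl1 hl2 x (by
      intro i
      refine Fin.cases ?_ (fun i => ?_) i
      · exact z.2
      · exact (l.get ⟨i.1, by omega⟩).2)
    have h3 := foldl_mem (closure (Set.range x)) (l.map Subtype.val) 0 (z : G) (by
      exact subset_closure ⟨0, rfl⟩) (by
      intro a ha
      rw [List.mem_map] at ha
      obtain ⟨b, hb, rfl⟩ := ha
      obtain ⟨i, hi, rfl⟩ := List.getElem_of_mem hb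
      refine subset_closure ⟨Fin.succ ⟨i, by omega⟩, ?_⟩
      rfl)
    rw [List.length_map, hl, zero_add, h2, mem_bot] at h3
    exact h3
  have hfin : Finite (RR G m) := finite_of_nilp _ hRfg (htor.subgroup _)
  have hq : Finite (G ⧸ RR G m) := inferInstance
  exact Finite.of_subgroup_quotient (RR G m)

end Pool.Agent.H43R2
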