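import Mathlib
import Pool.Agent.H43R2.FB
import Pool.Agent.H43R2.Groups2
set_option autoImplicit false

/-!
Corner monoids and the transfer of group laws.
-/

namespace Pool.Agent.H43R2

universe u v

/-- idempotents -/
abbrev Idm (M : Type u) [Monoid M] := {e : M // e * e = e}

/-- corner monoid -/
def Cor {M : Type u} [Monoid M] (e : Idm M) := {x : M // e.1 * x = x ∧ x * e.1 = x}

instance {M : Type u} [Monoid M] (e : Idm M) : Monoid (Cor e) where
  mul x y := ⟨x.1 * y.1, by rw [← mul_assoc, x.2.1], by rw [mul_assoc, y.2.2]⟩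
  one := ⟨e.1, e.2, e.2⟩
  mul_assoc x y z := Subtype.ext (mul_assoc _ _ _)
  one_mul x := Subtype.ext x.2.1
  mul_one x := Subtype.ext x.2.2

section

variable {M : Type u} [Monoid M] {e : Idm M}

lemma cor_mul (x y : Cor e) : (x * y).1 = x.1 * y.1 := rfl

lemma cor_one : (1 : Cor e).1 = e.1 := rfl

lemma cor_pow (x : Cor e) (n : ℕ) : e.1 * x.1 ^ n = (x ^ n).1 := by
  induction n with
  | zero => simp [cor_one]
  | succ n ih => rw [pow_succ, pow_succ, cor_mul, ← ih, mul_assoc]

lemma cor_pow' (x : Cor e) (n : ℕ) (hn : 1 ≤ n) : x.1 ^ n = (x ^ n).1 := by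
  obtain ⟨k, rfl⟩ : ∃ k, n = k + 1 := ⟨n - 1, by omega⟩
  rw [← cor_pow, pow_succ', ← mul_assoc, x.2.1]

lemma isUnit_cor (x : Cor e) (h1 : ∃ t, x.1 * t = e.1) (h2 : ∃ t, t * x.1 = e.1) : IsUnit x := by
  obtain ⟨t, ht⟩ := h1
  obtain ⟨t', ht'⟩ := h2
  set r : Cor e := ⟨e.1 * t * e.1, by rw [← mul_assoc, ← mul_assoc, e.2],
    by rw [mul_assoc, e.2]⟩ with hr
  set l : Cor e := ⟨e.1 * t' * e.1, by rw [← mul_assoc, ← mul_assoc, e.2],
    by rw [mul_assoc, e.2]⟩ with hl
  have h3 : x * r = 1 := by
    apply Subtype.ext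
    rw [cor_mul, cor_one, hr]
    calc x.1 * (e.1 * t * e.1) = ((x.1 * e.1) * t) * e.1 := by simp only [mul_assoc]
      _ = e.1 := by rw [x.2.2, ht, e.2]
  have h4 : l * x = 1 := by
    apply Subtype.ext
    rw [cor_mul, cor_one, hl]
    calc (e.1 * t' * e.1) * x.1 = e.1 * (t' * (e.1 * x.1)) := by simp only [mul_assoc]
      _ = e.1 := by rw [x.2.1, ht', e.2]
  have h5 : r * x = 1 := by
    calc r * x = (l * x) * (r * x) := by rw [h4, one_mul]
      _ = l * (x * r) * x := by simp only [mul_assoc]
      _ = 1 := by rw [h3, mul_one, h4]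
  exact ⟨⟨x, r, h3, h5⟩, rfl⟩

lemma cor_exp {D : ℕ} (hP : Per D M) (y : (Cor e)ˣ) : y ^ D = 1 := by
  have h1 : y ^ D * y ^ D = y ^ D := by
    apply Units.ext
    apply Subtype.ext
    rw [Units.val_mul, Units.val_pow_eq_pow_val, cor_mul, ← cor_pow' _ _ hP.1]
    exact hP.2 _
  exact mul_eq_left.1 h1

instance [Finite M] : Finite (Cor e) := Subtype.finite

end

/-- the product of all maximal subgroups -/
abbrev HH (M : Type u) [Monoid M] := ∀ e : Idm M, (Cor e)ˣ

/-- positive word of a group word -/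
def posw (D : ℕ) {k : ℕ} (L : List (Fin k × Bool)) : List ℕ :=
  L.flatMap (fun x => if x.2 = true then [x.1.1] else List.replicate (D - 1) x.1.1)

lemma posw_lt (D : ℕ) {k : ℕ} (L : List (Fin k × Bool)) (x : ℕ) (hx : x ∈ posw D L) : x < k := by
  rw [posw, List.mem_flatMap] at hx
  obtain ⟨y, _, hy⟩ := hx
  split_ifs at hy
  · rw [List.mem_singleton] at hy
    omega
  · have := List.eq_of_mem_replicate hy
    omega

/-- extension by one -/
def fe {K : Type u} [Group K] {k : ℕ} (f : Fin k → K) (i : ℕ) : K :=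
  if h : i < k then f ⟨i, h⟩ else 1

lemma fe_coe {K : Type u} [Group K] {k : ℕ} (f : Fin k → K) (i : Fin k) : fe f i.1 = f i := by
  simp [fe]

lemma pos_lift {K : Type u} [Group K] {D k : ℕ} (hD : 1 ≤ D) (hexp : ∀ y : K, y ^ D = 1)
    (f : Fin k → K) (L : List (Fin k × Bool)) :
    val (fe f) (posw D L) = FreeGroup.lift f (FreeGroup.mk L) := by
  rw [FreeGroup.lift_mk]
  induction L with
  | nil => rfl
  | cons x L ih =>
    obtain ⟨x, b⟩ := x
    rw [List.map_cons, List.prod_cons, ← ih, posw, List.flatMap_cons, val_append]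
    congr 1
    cases b
    · have h1 : val (fe f) (List.replicate (D - 1) x.1) = f x ^ (D - 1) := by
        rw [val_replicate, fe_coe]
      have h2 : (f x)⁻¹ = f x ^ (D - 1) := by
        rw [inv_eq_iff_mul_eq_one, ← pow_succ', Nat.sub_add_cancel hD]
        exact hexp _
      simp [h1, h2]
    · simp [fe_coe]

lemma finite_words (k m : ℕ) : {w : List ℕ | w.length ≤ m ∧ ∀ x ∈ w, x < k}.Finite := by
  have h1 : {w : List (Fin k) | w.length ≤ m}.Finite := List.finite_length_le (Fin k) m
  refine (h1.image (fun w => w.map Fin.val)).subset ?_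
  rintro w ⟨h2, h3⟩
  refine ⟨w.pmap (fun x hx => ⟨x, hx⟩) h3, ?_, ?_⟩
  · simpa using h2
  · simp [List.map_pmap]

/-- product of all short words -/
noncomputable def tw (k m : ℕ) : List ℕ := ((finite_words k m).toFinset.toList).flatten

lemma tw_lt (k m x : ℕ) (hx : x ∈ tw k m) : x < k := by
  rw [tw, List.mem_flatten] at hx
  obtain ⟨l, hl, hx⟩ := hx
  rw [Finset.mem_toList, Set.Finite.mem_toFinset] at hl
  exact hl.2 x hx

lemma tw_fac (k m : ℕ) (w : List ℕ) (h1 : w.length ≤ m) (h2 : ∀ x ∈ w, x < k) :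
    ∃ p q, tw k m = p ++ w ++ q := by
  have h3 : w ∈ (finite_words k m).toFinset.toList := by
    rw [Finset.mem_toList, Set.Finite.mem_toFinset]
    exact ⟨h1, h2⟩
  obtain ⟨s, t, h4⟩ := List.append_of_mem h3
  refine ⟨s.flatten, t.flatten, ?_⟩
  rw [tw, h4, List.flatten_append, List.flatten_cons, List.append_assoc]

/-- its power -/
noncomputable def uw (k m D : ℕ) : List ℕ := (List.replicate D (tw k m)).flatten

lemma uw_lt (k m D x : ℕ) (hx : x ∈ uw k m D) : x < k := by
  rw [uw, List.mem_flatten] at hx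
  obtain ⟨l, hl, hx⟩ := hx
  rw [List.eq_of_mem_replicate hl] at hx
  exact tw_lt k m x hx

lemma val_uw {M : Type u} [Monoid M] (a : ℕ → M) (k m D : ℕ) :
    val a (uw k m D) = val a (tw k m) ^ D := by
  rw [uw]
  induction D with
  | zero => simp
  | succ D ih => rw [List.replicate_succ, List.flatten_cons, val_append, ih, pow_succ']

lemma shorten {M : Type u} [Monoid M] [Finite M] (a : ℕ → M) (k : ℕ) (n : ℕ) : ∀ w : List ℕ,
    w.length = n → (∀ x ∈ w, x < k) →
    ∃ w' : List ℕ, w'.length ≤ Nat.card M ∧ (∀ x ∈ w', x < k) ∧ val a w' = val a w := by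
  induction n using Nat.strong_induction_on with
  | _ n ih =>
    intro w hw hk
    by_cases hn : n ≤ Nat.card M
    · exact ⟨w, by omega, hk, rfl⟩
    · have hni : ¬ Function.Injective (fun i : Fin (n + 1) => val a (w.take i.1)) := by
        intro hinj
        have h2 := Nat.card_le_card_of_injective _ hinj
        rw [Nat.card_eq_fintype_card, Fintype.card_fin] at h2
        omega
      obtain ⟨i, j, hij, hlt⟩ : ∃ i j : Fin (n + 1), val a (w.take i.1) = val a (w.take j.1) ∧
          i < j := by
        simp only [Function.Injective, not_forall] at hni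
        obtain ⟨i, j, h1, h2⟩ := hni
        rcases lt_or_gt_of_ne h2 with h | h
        · exact ⟨i, j, h1, h⟩
        · exact ⟨j, i, h1.symm, h⟩
      have hlt' : i.1 < j.1 := hlt
      have hj := j.2
      obtain ⟨w', h1, h2, h3⟩ := ih (w.take i.1 ++ w.drop j.1).length (by
        rw [List.length_append, List.length_take, List.length_drop]; omega)
        (w.take i.1 ++ w.drop j.1) rfl (by
          intro x hx
          rcases List.mem_append.1 hx with hx | hx
          · exact hk x (List.mem_of_mem_take hx)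
          · exact hk x (List.mem_of_mem_drop hx))
      refine ⟨w', h1, h2, ?_⟩
      rw [h3, val_append, hij, ← val_append, List.take_append_drop]

lemma cor_prod {M : Type u} [Monoid M] {e : Idm M} (F : ℕ → (Cor e)ˣ) (a : ℕ → M) (l : List ℕ)
    (h : ∀ x ∈ l, e.1 * a x * e.1 = (F x).val.1) :
    e.1 * (l.map (fun x => e.1 * a x * e.1)).prod * e.1 = (val F l).val.1 := by
  induction l with
  | nil =>
    simp only [List.map_nil, List.prod_nil, mul_one, val_nil, Units.val_one, cor_one]
    exact e.2
  | cons x l ih =>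
    rw [List.map_cons, List.prod_cons, val_cons, Units.val_mul, cor_mul,
      ← ih (fun y hy => h y (by simp [hy])), ← h x (by simp)]
    calc e.1 * (e.1 * a x * e.1 * (l.map (fun x => e.1 * a x * e.1)).prod) * e.1 =
        ((e.1 * e.1) * a x * e.1) * (l.map (fun x => e.1 * a x * e.1)).prod * e.1 := by
          simp only [mul_assoc]
      _ = (e.1 * a x * (e.1 * e.1)) * (l.map (fun x => e.1 * a x * e.1)).prod * e.1 := by
          rw [e.2]
      _ = _ := by simp only [mul_assoc]

lemma unit_of_short {M : Type u} [Monoid M] [Finite M] {D : ℕ} (hP : Per D M) (k : ℕ)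
    (a : ℕ → M) (e : Idm M) (he : e.1 = val a (uw k (Nat.card M) D)) (i : ℕ) (hi : i < k) :
    ∃ g : (Cor e)ˣ, e.1 * a i * e.1 = g.val.1 := by
  have h1 : ∀ w : List ℕ, (∀ x ∈ w, x < k) → Dv (val a w) e.1 := by
    intro w hw
    obtain ⟨w', g1, g2, g3⟩ := shorten a k w.length w rfl hw
    obtain ⟨p, q, hpq⟩ := tw_fac k (Nat.card M) w' g1 g2
    have h2 : Dv (val a w') (val a (tw k (Nat.card M))) := by
      rw [hpq, val_append, val_append]
      exact Dv.mid _ _ _
    rw [← g3, he, val_uw]
    obtain ⟨D', hD'⟩ : ∃ D', D = D' + 1 := ⟨D - 1, by have := hP.1; omega⟩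
    rw [hD', pow_succ]
    exact h2.mul_left _
  have h2 : val a (uw k (Nat.card M) D ++ [i] ++ uw k (Nat.card M) D) = e.1 * a i * e.1 := by
    rw [val_append, val_append, ← he]
    simp
  have h3 : Dv (e.1 * a i * e.1) e.1 := by
    rw [← h2]
    apply h1
    intro x hx
    rw [List.mem_append, List.mem_append, List.mem_singleton] at hx
    rcases hx with (hx | hx) | hx
    · exact uw_lt _ _ _ _ hx
    · omega
    · exact uw_lt _ _ _ _ hx
  set x : Cor e := ⟨e.1 * a i * e.1, by rw [← mul_assoc, ← mul_assoc, e.2],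
    by rw [mul_assoc, e.2]⟩ with hx
  have h4 : IsUnit x := by
    apply isUnit_cor
    · obtain ⟨t, ht⟩ := stable_right hP (k := e.1) (h := a i * e.1) (by rwa [← mul_assoc])
      exact ⟨t, by rw [hx]; simpa only [mul_assoc] using ht⟩
    · obtain ⟨t, ht⟩ := stable_left hP (k := e.1) (h := e.1 * a i) h3
      exact ⟨t, ht⟩
  obtain ⟨g, hg⟩ := h4
  exact ⟨g, by rw [hg]⟩

theorem transfer_laws {M : Type u} {N : Type v} [Monoid M] [Finite M] [Monoid N] {D : ℕ}
    (hP : Per D M) (hPN : Per D N) {k : ℕ} (hk : 1 ≤ k) (hid : Kid M N k) (ε : Idm N) :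
    Laws (HH M) (Cor ε)ˣ (Fin k) := by
  classical
  intro w hw f
  obtain ⟨L, rfl⟩ : ∃ L, FreeGroup.mk L = w := ⟨w.toWord, FreeGroup.mk_toWord⟩
  set U := uw k (Nat.card M) D with hU
  have hUk : ∀ x ∈ U, x < k := fun x hx => uw_lt _ _ _ _ hx
  have hlhsM : ∀ (a : ℕ → M),
      val a (U ++ (posw D L).flatMap (fun x => U ++ [x] ++ U) ++ U) =
      val a U * ((posw D L).map (fun x => val a U * a x * val a U)).prod * val a U := by
    intro a
    rw [val_append, val_append, val_flatMap]
    congr 2
    congr 1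
    apply List.map_congr_left
    intro x _
    rw [val_append, val_append]
    simp
  -- the identity in `M`
  have hM : Eq' M (U ++ (posw D L).flatMap (fun x => U ++ [x] ++ U) ++ U) U := by
    intro a
    rw [hlhsM]
    set e : Idm M := ⟨val a U, by rw [hU, val_uw]; exact hP.2 _⟩ with he
    have hex : ∀ i : Fin k, ∃ g : (Cor e)ˣ, e.1 * a i * e.1 = g.val.1 := fun i =>
      unit_of_short hP k a e rfl i i.2
    choose f0 hf0 using hex
    have h1 : FreeGroup.lift f0 (FreeGroup.mk L) = 1 := by
      have h2 := hw (fun i => Pi.mulSingle e (f0 i))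
      have h3 : (Pi.evalMonoidHom (fun e : Idm M => (Cor e)ˣ) e).comp
          (FreeGroup.lift (fun i => Pi.mulSingle e (f0 i))) = FreeGroup.lift f0 := by
        ext i
        simp
      rw [← h3, MonoidHom.comp_apply, h2, map_one]
    rw [← pos_lift hP.1 (cor_exp hP) f0 L] at h1
    have h2 := cor_prod (fe f0) a (posw D L) (by
      intro x hx
      have hxk := posw_lt D L x hx
      have := hf0 ⟨x, hxk⟩
      rw [fe, dif_pos hxk]
      exact this)
    rw [h1] at h2
    exact h2
  have hN := hid _ _ (by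
    intro x hx
    rw [List.mem_append, List.mem_append, List.mem_flatMap] at hx
    rcases hx with (hx | ⟨y, hy, hx⟩) | hx
    · exact hUk x hx
    · rw [List.mem_append, List.mem_append, List.mem_singleton] at hx
      rcases hx with (hx | hx) | hx
      · exact hUk x hx
      · rw [hx]; exact posw_lt D L y hy
      · exact hUk x hx
    · exact hUk x hx) hUk hM
  -- evaluate in `N`
  set a : ℕ → N := fun i => (fe f i).val.1 with ha
  have hval : ∀ w : List ℕ, ε.1 * val a w = (val (fe f) w).val.1 := by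
    intro w
    induction w with
    | nil => simp [cor_one]
    | cons x w ih =>
      rw [val_cons, val_cons, Units.val_mul, cor_mul, ← ih, ha]
      simp only
      rw [← mul_assoc, ← mul_assoc, (fe f x).val.2.1, (fe f x).val.2.2]
  have hUne : ∃ x w, U = x :: w := by
    have h0 : (0 : ℕ) ∈ U := by
      obtain ⟨p, q, hpq⟩ := tw_fac k (Nat.card M) [0] (by
        have h7 : 0 < Nat.card M := Nat.card_pos
        rw [List.length_singleton]
        omega) (by
        intro x hx
        rw [List.mem_singleton] at hx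
        omega)
      rw [hU, uw, List.mem_flatten]
      refine ⟨tw k (Nat.card M), ?_, by rw [hpq]; simp⟩
      rw [List.mem_replicate]
      exact ⟨by have := hP.1; omega, rfl⟩
    cases h : U with
    | nil => rw [h] at h0; simp at h0
    | cons x w => exact ⟨x, w, rfl⟩
  have hUε : val a U = ε.1 := by
    obtain ⟨x, w, hxw⟩ := hUne
    have h1 : val a U = ε.1 * val a U := by
      rw [hxw, val_cons, ← mul_assoc]
      congr 1
      exact ((fe f x).val.2.1).symm
    rw [h1, hval, hU, val_uw, cor_exp hPN]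
    rfl
  have h1 := hN a
  have hlhsN : val a (U ++ (posw D L).flatMap (fun x => U ++ [x] ++ U) ++ U) =
      val a U * ((posw D L).map (fun x => val a U * a x * val a U)).prod * val a U := by
    rw [val_append, val_append, val_flatMap]
    congr 2
    congr 1
    apply List.map_congr_left
    intro x _
    rw [val_append, val_append]
    simp
  rw [hlhsN, hUε] at h1
  have h2 := cor_prod (fe f) a (posw D L) (by
    intro x _
    rw [ha]
    simp only
    rw [(fe f x).val.2.1, (fe f x).val.2.2])
  rw [h1] at h2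
  have h3 : val (fe f) (posw D L) = 1 := by
    apply Units.ext
    apply Subtype.ext
    exact h2.symm
  rw [pos_lift hPN.1 (cor_exp hPN)] at h3
  exact h3

end Pool.Agent.H43R2
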