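import Mathlib
import Pool.Agent.H43R2.Beta
set_option autoImplicit false

/-!
Rigidity of the infinite word with respect to identities for which Zimin words are isoterms.
-/

namespace Pool.Agent.H43R2

universe u v w

/-- annotated cells -/
abbrev Cl := ℕ × (ℕ × ℕ)

lemma idx_succ {b r : ℕ} (hbr : b < r) (x : ℕ) : idx b r ((x + 1) % r) =
    if idx b r (x % r) + 1 = r then 0 else idx b r (x % r) + 1 := by
  unfold idx
  rcases succ_cases (by omega : 0 < r) x with ⟨g1, g2, -⟩ | ⟨g1, g2, -⟩
  · rw [g2]; split_ifs <;> omega
  · rw [g2]; split_ifs <;> omega

/-- insertion pattern -/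
def gk (k : ℕ) (c : Cl) : List (Option Cl) :=
  if c.1 < k then [some c, none] else if c.1 = k then [some c] else
    if c.1 = k + 1 then [none] else []

lemma gk_alt {b r k : ℕ} (hbr : b < r) (hk : k + 1 < r) (x0 N : ℕ) :
    Alt Option.isSome (((List.range' x0 N).map (cellOf b r)).flatMap (gk k)) := by
  rw [List.flatMap_map]
  refine (run Option.isSome (fun x => gk k (cellOf b r x))
    (fun x => decide (idx b r (x % r) = k + 1)) ?_ ?_ ?_ ?_ N x0).1
  · intro x
    simp only [gk]
    split_ifs
    · rw [alt_cons]; exact ⟨alt_single _ _, by simp [hd]⟩
    · exact alt_single _ _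
    · exact alt_single _ _
    · exact alt_nil _
  · intro x h
    have hi := cellOf_fst b r x
    have hs := idx_succ hbr x
    simp only [gk, hi] at h
    simp only [hs]
    split_ifs at h with h1 h2 h3
    split_ifs with h4
    · simp [h3]
    · rw [decide_eq_decide]
      omega
  · intro x a ha
    have hi := cellOf_fst b r x
    have hs := idx_succ hbr x
    simp only [gk, hi] at ha
    split_ifs at ha with h1 h2 h3
    · simp only [hd, List.head?_cons, Option.map_some, Option.isSome_some, Option.mem_def,
        Option.some.injEq] at ha
      rw [← ha]
      have : ¬ (idx b r (x % r) = k + 1) := by omega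
      simp [this]
    · simp only [hd, List.head?_cons, Option.map_some, Option.isSome_some, Option.mem_def,
        Option.some.injEq] at ha
      rw [← ha]
      have : ¬ (idx b r (x % r) = k + 1) := by omega
      simp [this]
    · simp only [hd, List.head?_cons, Option.map_some, Option.isSome_none, Option.mem_def,
        Option.some.injEq] at ha
      rw [← ha]
      simp [h3]
    · simp [hd] at ha
  · intro x a ha
    have hi := cellOf_fst b r x
    have hs := idx_succ hbr x
    simp only [gk, hi] at ha
    simp only [hs]
    split_ifs at ha with h1 h2 h3
    · simp only [tl, List.getLast?_cons_cons, List.getLast?_singleton, Option.map_some,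
        Option.isSome_none, Option.mem_def, Option.some.injEq] at ha
      rw [← ha]
      symm
      rw [decide_eq_false_iff_not]
      split_ifs <;> omega
    · simp only [tl, List.getLast?_singleton, Option.map_some,
        Option.isSome_some, Option.mem_def, Option.some.injEq] at ha
      rw [← ha]
      symm
      rw [decide_eq_true_iff]
      split_ifs <;> omega
    · simp only [tl, List.getLast?_singleton, Option.map_some,
        Option.isSome_none, Option.mem_def, Option.some.injEq] at ha
      rw [← ha]
      symm
      rw [decide_eq_false_iff_not]
      split_ifs
      · exact not_false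
      · omega
    · simp [tl] at ha

/-- content pattern on positions -/
def hx {Y : Type u} (b p r : ℕ) (K : ℕ → Bool) (nm : ℕ → Y) (x : ℕ) : List (Option Y) :=
  if x % r = b then (if K (x / r) = true then [some (nm (x / r))] else
    if p < b then [none, some (nm (x / r))] else [some (nm (x / r)), none])
  else if x % r = p then (if K (x / r) = true then [none] else []) else []

/-- colour before position `x` -/
def fx (b p r : ℕ) (K : ℕ → Bool) (x : ℕ) : Bool :=
  if p < b then !(decide (p < x % r ∧ x % r ≤ b) && K (x / r))
  else (decide (b < x % r ∧ x % r ≤ p) && K (x / r))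

lemma hx_alt {Y : Type u} {b p r : ℕ} (hbr : b < r) (hpr : p < r) (hpb : p ≠ b) (K : ℕ → Bool)
    (nm : ℕ → Y) (x0 N : ℕ) :
    Alt Option.isSome ((List.range' x0 N).flatMap (hx b p r K nm)) := by
  refine (run Option.isSome (hx b p r K nm) (fx b p r K) ?_ ?_ ?_ ?_ N x0).1
  · intro x
    simp only [hx]
    split_ifs
    · exact alt_single _ _
    · rw [alt_cons]; exact ⟨alt_single _ _, by simp [hd]⟩
    · rw [alt_cons]; exact ⟨alt_single _ _, by simp [hd]⟩
    · exact alt_single _ _
    · exact alt_nil _
    · exact alt_nil _
  · intro x h
    simp only [hx] at h
    have hs := succ_cases (by omega : 0 < r) x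
    simp only [fx]
    generalize x % r = q at *
    generalize x / r = y at *
    rcases hs with ⟨s1, s2, s3⟩ | ⟨s1, s2, s3⟩
    · rw [s2, s3]
      split_ifs at h with h1 h2 h3 h4 h5
      · have : K y = false := by simpa using h5
        simp [this]
      · by_cases hlt : p < b
        · rw [if_pos hlt, if_pos hlt]
          congr 2
          rw [decide_eq_decide]
          omega
        · rw [if_neg hlt, if_neg hlt]
          congr 1
          rw [decide_eq_decide]
          omega
    · rw [s2, s3]
      by_cases hlt : p < b
      · rw [if_pos hlt, if_pos hlt]
        have e1 : ¬ (p < 0 ∧ 0 ≤ b) := by omega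
        have e2 : ¬ (p < q ∧ q ≤ b) := by
          split_ifs at h <;> omega
        simp [e2]
      · rw [if_neg hlt, if_neg hlt]
        have e1 : ¬ (b < 0 ∧ 0 ≤ p) := by omega
        by_cases hq : q = p
        · subst hq
          have : K y = false := by
            split_ifs at h with h1 h2 h3 h4
            all_goals simp_all
          simp [this]
        · have e2 : ¬ (b < q ∧ q ≤ p) := by omega
          simp [e2]
  · intro x a ha
    simp only [hx] at ha
    simp only [fx]
    generalize x % r = q at *
    generalize x / r = y at *
    split_ifs at ha with h1 h2 h3 h4 h5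
    · simp only [hd, List.head?_cons, Option.map_some, Option.isSome_some, Option.mem_def,
        Option.some.injEq] at ha
      subst h1
      rw [← ha, h2]
      by_cases hlt : p < q
      · simp [hlt]
      · simp [hlt]
    · simp only [hd, List.head?_cons, Option.map_some, Option.isSome_none, Option.mem_def,
        Option.some.injEq] at ha
      have : K y = false := by simpa using h2
      rw [← ha, this]
      simp [h3]
    · simp only [hd, List.head?_cons, Option.map_some, Option.isSome_some, Option.mem_def,
        Option.some.injEq] at ha
      have : K y = false := by simpa using h2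
      rw [← ha, this]
      simp [h3]
    · simp only [hd, List.head?_cons, Option.map_some, Option.isSome_none, Option.mem_def,
        Option.some.injEq] at ha
      subst h4
      rw [← ha, h5]
      by_cases hlt : q < b
      · simp [hlt]
      · have : b < q := by omega
        simp [this, hlt]
    · simp [hd] at ha
    · simp [hd] at ha
  · intro x a ha
    simp only [hx] at ha
    have hs := succ_cases (by omega : 0 < r) x
    simp only [fx]
    generalize x % r = q at *
    generalize x / r = y at *
    split_ifs at ha with h1 h2 h3 h4 h5
    · simp only [tl, List.getLast?_singleton, Option.map_some,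
        Option.isSome_some, Option.mem_def, Option.some.injEq] at ha
      rw [← ha]
      rcases hs with ⟨s1, s2, s3⟩ | ⟨s1, s2, s3⟩
      · rw [s2, s3, h2]
        by_cases hlt : p < b
        · have : decide (p < q + 1 ∧ q + 1 ≤ b) = false := by
            rw [decide_eq_false_iff_not]; omega
          rw [if_pos hlt, this]; rfl
        · have : decide (b < q + 1 ∧ q + 1 ≤ p) = true := by
            rw [decide_eq_true_iff]; omega
          rw [if_neg hlt, this]; rfl
      · rw [s2, s3]
        by_cases hlt : p < b
        · simp [hlt]
        · exfalso; omega
    · simp only [tl, List.getLast?_cons_cons, List.getLast?_singleton, Option.map_some,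
        Option.isSome_some, Option.mem_def, Option.some.injEq] at ha
      rw [← ha]
      rcases hs with ⟨s1, s2, s3⟩ | ⟨s1, s2, s3⟩
      · rw [s2, s3]
        have : decide (p < q + 1 ∧ q + 1 ≤ b) = false := by
          rw [decide_eq_false_iff_not]; omega
        rw [if_pos h3, this]; rfl
      · rw [s2, s3]
        simp [h3]
    · simp only [tl, List.getLast?_cons_cons, List.getLast?_singleton, Option.map_some,
        Option.isSome_none, Option.mem_def, Option.some.injEq] at ha
      have : K y = false := by simpa using h2
      rw [← ha]
      rcases hs with ⟨s1, s2, s3⟩ | ⟨s1, s2, s3⟩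
      · rw [s2, s3, this]
        simp [h3]
      · exfalso; omega
    · simp only [tl, List.getLast?_singleton, Option.map_some,
        Option.isSome_none, Option.mem_def, Option.some.injEq] at ha
      rw [← ha]
      rcases hs with ⟨s1, s2, s3⟩ | ⟨s1, s2, s3⟩
      · rw [s2, s3, h5]
        by_cases hlt : p < b
        · have : decide (p < q + 1 ∧ q + 1 ≤ b) = true := by
            rw [decide_eq_true_iff]; omega
          rw [if_pos hlt, this]; rfl
        · have : decide (b < q + 1 ∧ q + 1 ≤ p) = false := by
            rw [decide_eq_false_iff_not]; omega
          rw [if_neg hlt, this]; rfl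
      · rw [s2, s3]
        by_cases hlt : p < b
        · exfalso; omega
        · simp [hlt]
    · simp [tl] at ha
    · simp [tl] at ha

/-- content pattern -/
def hk (b p j : ℕ) (κ : ℕ × ℕ) (c : Cl) : List (Option (ℕ × ℕ)) :=
  if c.1 = 0 then (if (kp p c.2, 0) = κ then [some c.2] else
    if p < b then [none, some c.2] else [some c.2, none])
  else if c.1 = j then (if c.2 = κ then [none] else []) else []

/-- erased pattern -/
def er (j : ℕ) (c : Cl) : List (Option (ℕ × ℕ)) :=
  if c.1 = 0 then [some c.2] else if c.1 = j then [none] else []

lemma idx_inj {b r p q : ℕ} (hbr : b < r) (hpr : p < r) (hq : q < r)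
    (h : idx b r q = idx b r p) : q = p := by
  unfold idx at h; split_ifs at h <;> omega

lemma hk_alt {b p r : ℕ} (hr : 2 ≤ r) (hbr : b < r) (hpr : p < r) (hpb : p ≠ b) (κ : ℕ × ℕ)
    (x0 N : ℕ) : Alt Option.isSome
      (((List.range' x0 N).map (cellOf b r)).flatMap (hk b p (idx b r p) κ)) := by
  have h := hx_alt hbr hpr hpb (fun y => decide ((kp p (bt r y), 0) = κ)) (bt r) x0 N
  rw [List.flatMap_map]
  convert h using 3 with x
  have hi := cellOf_fst b r x
  have hq := Nat.mod_lt x (by omega : 0 < r)
  simp only [hk, hx]
  by_cases h1 : x % r = b
  · rw [if_pos h1]
    have : cellOf b r x = (0, bt r (x / r)) := by simp [cellOf, h1]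
    rw [this, if_pos rfl]
    simp only [decide_eq_true_eq]
  · rw [if_neg h1, hi, if_neg (idx_eq_zero hbr h1)]
    by_cases h2 : x % r = p
    · rw [if_pos h2, if_pos (by rw [h2])]
      have : (cellOf b r x).2 = (kp p (bt r (x / r)), 0) := by
        simp only [cellOf, if_neg h1]
        rw [info_eq hr, h2]
      rw [this]
      simp only [decide_eq_true_eq]
    · rw [if_neg h2, if_neg (fun h => h2 (idx_inj hbr hpr hq h))]

lemma er_alt {b p r : ℕ} (hbr : b < r) (hpr : p < r) (hpb : p ≠ b)
    (x0 N : ℕ) : Alt Option.isSome
      (((List.range' x0 N).map (cellOf b r)).flatMap (er (idx b r p))) := by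
  have h := hx_alt hbr hpr hpb (fun _ => true) (bt r) x0 N
  rw [List.flatMap_map]
  convert h using 3 with x
  have hi := cellOf_fst b r x
  have hq := Nat.mod_lt x (by omega : 0 < r)
  simp only [er, hx]
  by_cases h1 : x % r = b
  · rw [if_pos h1]
    have : cellOf b r x = (0, bt r (x / r)) := by simp [cellOf, h1]
    rw [this, if_pos rfl]
    simp
  · rw [if_neg h1, hi, if_neg (idx_eq_zero hbr h1)]
    by_cases h2 : x % r = p
    · rw [if_pos h2, if_pos (by rw [h2])]
      simp
    · rw [if_neg h2, if_neg (fun h => h2 (idx_inj hbr hpr hq h))]

/-! ### content lemma -/

/-- tokens and contents -/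
def bj (j : ℕ) (c : Cl) : List ((ℕ × ℕ) ⊕ (ℕ × ℕ)) :=
  if c.1 = 0 then [Sum.inl c.2] else if c.1 = j then [Sum.inr c.2] else []

def hk' (b p : ℕ) (κ : ℕ × ℕ) : (ℕ × ℕ) ⊕ (ℕ × ℕ) → List (Option (ℕ × ℕ))
  | Sum.inl N => if (kp p N, 0) = κ then [some N] else
      if p < b then [none, some N] else [some N, none]
  | Sum.inr d => if d = κ then [none] else []

def er' : (ℕ × ℕ) ⊕ (ℕ × ℕ) → List (Option (ℕ × ℕ))
  | Sum.inl N => [some N]
  | Sum.inr _ => [none]

def pc' : (ℕ × ℕ) ⊕ (ℕ × ℕ) → List (ℕ × ℕ)
  | Sum.inl _ => []
  | Sum.inr d => [d]

lemma content_aux (b p : ℕ) (B : List ((ℕ × ℕ) ⊕ (ℕ × ℕ))) : ∀ B' : List ((ℕ × ℕ) ⊕ (ℕ × ℕ)),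
    B.flatMap er' = B'.flatMap er' → Alt Option.isSome (B.flatMap er') →
    (∀ κ, B.flatMap (hk' b p κ) = B'.flatMap (hk' b p κ)) → B = B' := by
  induction B with
  | nil =>
    intro B' h1 _ _
    cases B' with
    | nil => rfl
    | cons a B' =>
      cases a <;> simp [er'] at h1
  | cons a B ih =>
    intro B' h1 h2 h3
    cases B' with
    | nil => cases a <;> simp [er'] at h1
    | cons a' B' =>
      rw [List.flatMap_cons, alt_append] at h2
      cases a with
      | inl N =>
        cases a' with
        | inr d => simp [er'] at h1
        | inl N' =>
          simp only [List.flatMap_cons, er', List.singleton_append, List.cons.injEq,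
            Option.some.injEq] at h1
          obtain ⟨rfl, h1⟩ := h1
          congr 1
          refine ih B' h1 h2.2.1 (fun κ => ?_)
          have := h3 κ
          rw [List.flatMap_cons, List.flatMap_cons] at this
          exact List.append_cancel_left this
      | inr d =>
        cases a' with
        | inl N => simp [er'] at h1
        | inr d' =>
          simp only [List.flatMap_cons, er', List.singleton_append, List.cons.injEq,
            true_and] at h1
          by_cases hd' : d = d'
          · subst hd'
            congr 1
            refine ih B' h1 h2.2.1 (fun κ => ?_)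
            have := h3 κ
            rw [List.flatMap_cons, List.flatMap_cons] at this
            exact List.append_cancel_left this
          · exfalso
            have h4 := h3 d
            rw [List.flatMap_cons, List.flatMap_cons] at h4
            have e1 : hk' b p d (Sum.inr d) = [none] := by simp [hk']
            have e2 : hk' b p d (Sum.inr d') = [] := by
              simp only [hk']
              rw [if_neg (fun h => hd' h.symm)]
            rw [e1, e2, List.nil_append, List.singleton_append] at h4
            cases B with
            | nil =>
              cases B' with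
              | nil => simp at h4
              | cons a'' B' => cases a'' <;> simp [er'] at h1
            | cons c B =>
              cases c with
              | inr c =>
                have := h2.2.2 false (by simp [tl, er']) false (by simp [hd, er'])
                exact this rfl
              | inl N =>
                cases B' with
                | nil => simp [er'] at h1
                | cons c' B' =>
                  cases c' with
                  | inr c' => simp [er'] at h1
                  | inl N' =>
                    simp only [List.flatMap_cons, er', List.singleton_append, List.cons.injEq,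
                      Option.some.injEq] at h1
                    obtain ⟨rfl, h1⟩ := h1
                    rw [List.flatMap_cons, List.flatMap_cons] at h4
                    simp only [hk'] at h4
                    split_ifs at h4 <;> simp at h4

/-- erased list of cells -/
def eo (k : ℕ) (c : Cl) : List (Option Cl) :=
  if c.1 ≤ k then [some c] else if c.1 = k + 1 then [none] else []

def pc (j : ℕ) (c : Cl) : List (ℕ × ℕ) := if c.1 = j then [c.2] else []

def combine (k : ℕ) : List (Option Cl) → List (ℕ × ℕ) → List Cl
  | [], _ => []
  | some c :: l, P => c :: combine k l P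
  | none :: l, d :: P => (k + 1, d) :: combine k l P
  | none :: _, [] => []

lemma combine_eq (k : ℕ) (W : List Cl) :
    combine k (W.flatMap (eo k)) (W.flatMap (pc (k + 1))) = W.filter (fun c => c.1 ≤ k + 1) := by
  induction W with
  | nil => rfl
  | cons c W ih =>
    rw [List.flatMap_cons, List.flatMap_cons, List.filter_cons]
    rcases Nat.lt_trichotomy c.1 (k + 1) with h | h | h
    · have e1 : eo k c = [some c] := by simp [eo]; omega
      have e2 : pc (k + 1) c = [] := by simp [pc]; omega
      have e3 : decide (c.1 ≤ k + 1) = true := by simp; omega
      rw [e1, e2, e3, List.singleton_append, List.nil_append, combine, ih]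
      rfl
    · have e1 : eo k c = [none] := by simp [eo, h]
      have e2 : pc (k + 1) c = [c.2] := by simp [pc, h]
      have e3 : decide (c.1 ≤ k + 1) = true := by simp; omega
      rw [e1, e2, e3, List.singleton_append, List.singleton_append, combine, ih]
      simp only [if_true]
      congr 1
      exact Prod.ext h.symm rfl
    · have e1 : eo k c = [] := by
        unfold eo
        rw [if_neg (by omega), if_neg (by omega)]
      have e2 : pc (k + 1) c = [] := by
        unfold pc
        rw [if_neg (by omega)]
      have e3 : decide (c.1 ≤ k + 1) = false := by simp; omega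
      rw [e1, e2, e3, List.nil_append, List.nil_append, ih]
      rfl

theorem content {b p k : ℕ} (W W' : List Cl)
    (h1 : W'.flatMap (eo k) = W.flatMap (eo k))
    (h2 : Alt Option.isSome (W.flatMap (er (k + 1))))
    (h3 : ∀ κ, W'.flatMap (hk b p (k + 1) κ) = W.flatMap (hk b p (k + 1) κ)) :
    W'.filter (fun c => c.1 ≤ k + 1) = W.filter (fun c => c.1 ≤ k + 1) := by
  have r1 : ∀ W : List Cl, ∀ κ, W.flatMap (hk b p (k + 1) κ) =
      (W.flatMap (bj (k + 1))).flatMap (hk' b p κ) := by
    intro W κ
    rw [List.flatMap_assoc]
    congr 1
    ext1 c
    simp only [hk, bj]
    split_ifs <;> simp_all [hk']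
  have r2 : ∀ W : List Cl, W.flatMap (er (k + 1)) = (W.flatMap (bj (k + 1))).flatMap er' := by
    intro W
    rw [List.flatMap_assoc]
    congr 1
    ext1 c
    simp only [er, bj]
    split_ifs <;> simp_all [er']
  have r3 : ∀ W : List Cl, W.flatMap (pc (k + 1)) = (W.flatMap (bj (k + 1))).flatMap pc' := by
    intro W
    rw [List.flatMap_assoc]
    congr 1
    ext1 c
    simp only [pc, bj]
    by_cases h0 : c.1 = 0
    · rw [if_neg (by omega), if_pos h0]; simp [pc']
    · rw [if_neg h0]
      split_ifs <;> simp [pc']
  have r4 : ∀ W : List Cl, W.flatMap (er (k + 1)) = (W.flatMap (eo k)).flatMap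
      (fun c => match c with
        | some c => if c.1 = 0 then [some c.2] else []
        | none => [none]) := by
    intro W
    rw [List.flatMap_assoc]
    congr 1
    ext1 c
    simp only [er, eo]
    by_cases h0 : c.1 = 0
    · rw [if_pos h0, if_pos (by omega)]; simp [h0]
    · rw [if_neg h0]
      by_cases h5 : c.1 ≤ k
      · rw [if_neg (by omega), if_pos h5]; simp [h0]
      · rw [if_neg h5]
        split_ifs <;> simp
  have hB : W.flatMap (bj (k + 1)) = W'.flatMap (bj (k + 1)) := by
    apply content_aux b p
    · rw [← r2, ← r2, r4, r4, h1]
    · rw [← r2]; exact h2
    · intro κ; rw [← r1, ← r1, h3]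
  rw [← combine_eq, ← combine_eq, h1, r3, r3, hB]

/-! ### the main theorem -/

lemma Rig.comp {M : Type w} [Monoid M] {A : Type u} {B : Type v} {u : List ℕ} {φ : ℕ → List A}
    (h : Rig M u φ) (g : A → List B) : Rig M u (fun l => (φ l).flatMap g) := by
  intro v hv
  rw [← List.flatMap_assoc, ← List.flatMap_assoc, h v hv]

lemma eo_inj (k : ℕ) : ∀ w w' : List (Option Cl),
    w.flatMap (fun c => match c with
      | some c => if c.1 < k then [some c, none] else [some c]
      | none => [(none : Option Cl)]) =
    w'.flatMap (fun c => match c with
      | some c => if c.1 < k then [some c, none] else [some c]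
      | none => [(none : Option Cl)]) → w = w' := by
  intro w
  induction w with
  | nil =>
    intro w' h
    cases w' with
    | nil => rfl
    | cons a w' =>
      cases a with
      | none => simp at h
      | some c =>
        simp only [List.flatMap_nil, List.flatMap_cons] at h
        split_ifs at h <;> simp at h
  | cons a w ih =>
    intro w' h
    cases w' with
    | nil =>
      cases a with
      | none => simp at h
      | some c =>
        simp only [List.flatMap_nil, List.flatMap_cons] at h
        split_ifs at h <;> simp at h
    | cons a' w' =>
      rw [List.flatMap_cons, List.flatMap_cons] at h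
      have haa : a = a' := by
        cases a with
        | none =>
          cases a' with
          | none => rfl
          | some c' =>
            simp only at h
            split_ifs at h <;> simp at h
        | some c =>
          cases a' with
          | none =>
            simp only at h
            split_ifs at h <;> simp at h
          | some c' =>
            simp only at h
            split_ifs at h <;> simp at h <;> simp [h.1]
      subst haa
      rw [ih w' (List.append_cancel_left h)]

theorem main_iso {M : Type w} [Monoid M] (hiso : Iso M) {r : ℕ} (u : List ℕ)
    (hu : u.toFinset.card + 2 ≤ r) (N : ℕ) : ∀ (φ : ℕ → List (ℕ × ℕ)) (x0 : ℕ),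
    u.flatMap φ = (List.range' x0 N).map (bt r) → Sim u φ ∧ Rig M u φ := by
  classical
  have hr : 2 ≤ r := by omega
  induction N using Nat.strong_induction_on with
  | _ N ih =>
    intro φ x0 hφ
    rcases Nat.eq_zero_or_pos N with rfl | hN
    · -- empty word
      have h0 : ∀ l ∈ u, φ l = [] := by
        have : u.flatMap φ = [] := by rw [hφ]; rfl
        exact List.flatMap_eq_nil_iff.1 this
      refine ⟨⟨fun _ => [], 0, ?_, ?_⟩, ?_⟩
      · simp [Z]
      · intro l hl; simp [h0 l hl]
      · intro v hv
        have hc := hiso.content hv
        have h1 : u.flatMap φ = [] := by rw [hφ]; rfl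
        rw [h1, List.flatMap_eq_nil_iff]
        exact fun l hl => h0 l (hc l hl)
    -- choice of the phase
    obtain ⟨b, hb1, hbr, hb⟩ : ∃ b, 1 ≤ b ∧ b < r ∧ ∀ l ∈ u, ∀ c ∈ (φ l).head?, c.2 ≠ b := by
      have hcard : (u.toFinset.image (fun l => ((φ l).head?.map Prod.snd).getD 0)).card <
          (Finset.Ico 1 r).card := by
        rw [Nat.card_Ico]
        exact lt_of_le_of_lt Finset.card_image_le (by omega)
      obtain ⟨b, hb, hb2⟩ := Finset.exists_mem_notMem_of_card_lt_card hcard
      rw [Finset.mem_Ico] at hb
      refine ⟨b, hb.1, hb.2, ?_⟩
      intro l hl c hc he
      apply hb2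
      rw [Finset.mem_image]
      refine ⟨l, by simpa using hl, ?_⟩
      rw [hc]
      simpa using he
    set A : ℕ → List Cl := fun l => ann b r 0 (φ l) with hA
    -- the annotated word
    have hx0 : x0 % r ≠ b := by
      have h1 := head_flatMap u φ (fun c => c.2 ≠ b) hb
      rw [hφ] at h1
      obtain ⟨N', rfl⟩ : ∃ N', N = N' + 1 := ⟨N - 1, by omega⟩
      have h2 := h1 (bt r x0) (by rw [List.range'_succ]; simp)
      exact h2
    have hAu : u.flatMap A = (List.range' x0 N).map (cellOf b r) := by
      rw [hA, ← ann_flatMap b r u φ hb, hφ]
      exact ann_range hb1 hbr N x0 0 (fun h => absurd h hx0)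
    -- tokens
    have hT := ih (cc b r (x0 + N) - cc b r x0) (by
      have h1 := (tok_range hbr x0 N).2
      have h2 := congrArg List.length h1
      rw [List.length_map, List.length_range'] at h2
      rw [← h2]
      obtain ⟨N', rfl⟩ : ∃ N', N = N' + 1 := ⟨N - 1, by omega⟩
      rw [List.range'_succ, List.map_cons, List.filterMap_cons_none]
      · refine lt_of_le_of_lt (List.length_filterMap_le _ _) ?_
        rw [List.length_map, List.length_range']
        omega
      · rw [tok_cellOf hbr, if_neg hx0]) (fun l => (A l).filterMap tok) (cc b r x0) (by
      rw [← (tok_range hbr x0 N).2, ← hAu]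
      rw [List.filterMap_flatMap])
    obtain ⟨hTs, hTr⟩ := hT
    -- ladder
    have ladder : ∀ k, k < r → Sim u (fun l => (A l).filter (fun c => c.1 ≤ k)) ∧
        Rig M u (fun l => (A l).filter (fun c => c.1 ≤ k)) := by
      intro k
      induction k with
      | zero =>
        intro _
        have e : (fun l => (A l).filter (fun c => c.1 ≤ 0)) =
            (fun l => ((A l).filterMap tok).flatMap (fun N => [((0 : ℕ), N)])) := by
          funext l
          generalize A l = L
          induction L with
          | nil => rfl
          | cons c L ihL =>
            rw [List.filter_cons, ihL]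
            by_cases h : c.1 = 0
            · have h1 : tok c = some c.2 := by simp [tok, h]
              rw [List.filterMap_cons_some h1, List.flatMap_cons]
              simp only [h, le_refl, decide_true, if_true, List.singleton_append]
              congr 1
              exact Prod.ext h rfl
            · have h1 : tok c = none := by simp [tok, h]
              rw [List.filterMap_cons_none h1]
              simp [h]
        rw [e]
        refine ⟨?_, hTr.comp _⟩
        obtain ⟨θ, K, h1, h2⟩ := hTs
        refine ⟨θ, K, h1, fun l hl => ?_⟩
        rw [h2 l hl, List.flatMap_eq_nil_iff]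
        constructor
        · intro h
          have h' : (A l).filterMap tok = [] := h
          rw [h']; simp
        · intro h
          change (A l).filterMap tok = []
          rw [List.eq_nil_iff_forall_not_mem]
          intro c hc
          simpa using h c hc
      | succ k ihk =>
        intro hkr
        obtain ⟨ks, kr⟩ := ihk (by omega)
        -- insertion
        have hins := insertion hiso u (fun l => (A l).flatMap (gk k)) (by
          rw [← List.flatMap_assoc, hAu]
          exact gk_alt hbr hkr x0 N)
        have hn : (fun l => ((A l).flatMap (gk k)).reduceOption) =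
            (fun l => (A l).filter (fun c => c.1 ≤ k)) := by
          funext l
          generalize A l = L
          induction L with
          | nil => rfl
          | cons c L ihL =>
            rw [List.flatMap_cons, List.reduceOption_append, ihL, List.filter_cons]
            unfold gk
            rcases Nat.lt_trichotomy c.1 k with h | h | h
            · simp [h, h.le]
            · simp [h]
            · have h1 : ¬ c.1 < k := by omega
              have h2 : c.1 ≠ k := by omega
              have h3 : ¬ c.1 ≤ k := by omega
              simp only [h1, h2, h3, if_false, decide_false]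
              split_ifs <;> simp_all
        rw [hn] at hins
        obtain ⟨is, ir⟩ := hins ks kr
        refine ⟨?_, ?_⟩
        · obtain ⟨θ, K, h1, h2⟩ := is
          refine ⟨θ, K, h1, fun l hl => ?_⟩
          rw [h2 l hl, List.flatMap_eq_nil_iff, List.filter_eq_nil_iff]
          refine forall₂_congr fun c hc => ?_
          unfold gk
          rcases Nat.lt_trichotomy c.1 k with h | h | h
          · simp [h]; omega
          · simp [h]
          · rw [if_neg (by omega), if_neg (by omega)]
            split_ifs with h3
            · simp [h3]
            · simp only [decide_eq_true_eq, true_iff]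
              omega
        · intro v hv
          have hW := ir v hv
          have hc := hiso.content hv
          -- phase of the column
          obtain ⟨p, hp, hpb, hpi⟩ : ∃ p, p < r ∧ p ≠ b ∧ idx b r p = k + 1 := by
            refine ⟨if k + 1 + b < r then k + 1 + b else k + 1 + b - r, ?_, ?_, ?_⟩
            · split_ifs <;> omega
            · split_ifs <;> omega
            · unfold idx; split_ifs <;> omega
          rw [← List.flatMap_assoc, ← List.flatMap_assoc] at hW
          have e1 : (v.flatMap A).flatMap (eo k) = (u.flatMap A).flatMap (eo k) := by
            apply eo_inj k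
            have e2 : (fun x : Cl => (eo k x).flatMap (fun c => match c with
                | some c => if c.1 < k then [some c, none] else [some c]
                | none => [(none : Option Cl)])) = gk k := by
              funext c
              unfold eo gk
              rcases Nat.lt_trichotomy c.1 k with h | h | h
              · simp [h, h.le]
              · simp [h]
              · have h1 : ¬ c.1 < k := by omega
                have h2 : c.1 ≠ k := by omega
                have h3 : ¬ c.1 ≤ k := by omega
                simp only [h1, h2, h3, if_false]
                split_ifs <;> simp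
            have e5 : ∀ W : List Cl, (W.flatMap (eo k)).flatMap (fun c => match c with
                | some c => if c.1 < k then [some c, none] else [some c]
                | none => [(none : Option Cl)]) = W.flatMap (gk k) := by
              intro W
              rw [List.flatMap_assoc, e2]
            rw [e5, e5]
            exact hW
          have e3 := content (b := b) (p := p) (k := k) (u.flatMap A) (v.flatMap A) e1
            (by rw [hAu, ← hpi]; exact er_alt hbr hp hpb x0 N) (by
            intro κ
            have hins2 := insertion hiso u (fun l => (A l).flatMap (hk b p (k + 1) κ)) (by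
              rw [← List.flatMap_assoc, hAu, ← hpi]
              exact hk_alt hr hbr hp hpb κ x0 N)
            have hn2 : (fun l => ((A l).flatMap (hk b p (k + 1) κ)).reduceOption) =
                (fun l => (A l).filterMap tok) := by
              funext l
              generalize A l = L
              induction L with
              | nil => rfl
              | cons c L ihL =>
                rw [List.flatMap_cons, List.reduceOption_append, ihL]
                unfold hk
                by_cases h : c.1 = 0
                · have h1 : tok c = some c.2 := by simp [tok, h]
                  rw [List.filterMap_cons_some h1, if_pos h]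
                  split_ifs <;> simp
                · have h1 : tok c = none := by simp [tok, h]
                  rw [List.filterMap_cons_none h1, if_neg h]
                  split_ifs <;> simp
            rw [hn2] at hins2
            have h5 := (hins2 hTs hTr).2 v hv
            rw [← List.flatMap_assoc, ← List.flatMap_assoc] at h5
            exact h5)
          have e4 : ∀ v : List ℕ, v.flatMap (fun l => (A l).filter (fun c => c.1 ≤ k + 1)) =
              (v.flatMap A).filter (fun c => c.1 ≤ k + 1) := by
            intro v
            rw [List.filter_flatMap]
          rw [e4, e4]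
          exact e3
    obtain ⟨ls, lr⟩ := ladder (r - 1) (by omega)
    -- all cells are present
    have hmem : ∀ l ∈ u, ∀ c ∈ φ l, c.2 < r := by
      intro l hl c hc
      have : c ∈ u.flatMap φ := List.mem_flatMap.2 ⟨l, hl, hc⟩
      rw [hφ, List.mem_map] at this
      obtain ⟨x, _, rfl⟩ := this
      exact Nat.mod_lt _ (by omega)
    have hfull : ∀ l ∈ u, (A l).filter (fun c => c.1 ≤ r - 1) = A l := by
      intro l hl
      rw [List.filter_eq_self]
      intro c hc
      have : c ∈ u.flatMap A := List.mem_flatMap.2 ⟨l, hl, hc⟩
      rw [hAu, List.mem_map] at this
      obtain ⟨x, _, rfl⟩ := this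
      rw [cellOf_fst]
      have := Nat.mod_lt x (by omega : 0 < r)
      unfold idx
      simp only [decide_eq_true_eq]
      split_ifs <;> omega
    have hfb : ∀ l ∈ u, ((A l).filter (fun c => c.1 ≤ r - 1)).flatMap (fun c => [bk b r c]) =
        φ l := by
      intro l hl
      rw [hfull l hl]
      have := ann_back hbr (φ l) (hmem l hl) 0
      rw [List.map_eq_flatMap] at this
      exact this
    constructor
    · obtain ⟨θ, K, h1, h2⟩ := ls
      refine ⟨θ, K, h1, fun l hl => ?_⟩
      rw [h2 l hl]
      simp only
      rw [hfull l hl]
      rw [← List.length_eq_zero_iff, ← List.length_eq_zero_iff, hA]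
      simp only [ann_length]
    · intro v hv
      have hc := hiso.content hv
      have h1 := (lr.comp (fun c => [bk b r c])) v hv
      have h2 : ∀ v : List ℕ, (∀ x ∈ v, x ∈ u) → v.flatMap (fun l =>
          ((A l).filter (fun c => c.1 ≤ r - 1)).flatMap (fun c => [bk b r c])) =
          v.flatMap φ := by
        intro v hv
        apply List.flatMap_congr
        intro l hl
        exact hfb l (hv l hl)
      rw [h2 v hc, h2 u (fun _ h => h)] at h1
      exact h1

end Pool.Agent.H43R2
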