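import Mathlib
import Pool.Agent.H43R2.Iso
set_option autoImplicit false

/-!
If all Zimin words are isoterms then every finite set of identities has an infinite finitely
generated model.
-/

namespace Pool.Agent.H43R2

universe u v w

/-- the infinite word over a finite alphabet -/
def bf (r : ℕ) (hr : 2 ≤ r) (x : ℕ) : Fin r × Fin r :=
  (⟨info r x, info_lt hr x⟩, ⟨x % r, Nat.mod_lt _ (by omega)⟩)

/-- factors -/
def Fac (r : ℕ) (hr : 2 ≤ r) (w : List (Fin r × Fin r)) : Prop :=
  ∃ x0 N, w = (List.range' x0 N).map (bf r hr)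

lemma Fac.append {r : ℕ} {hr : 2 ≤ r} {a b : List (Fin r × Fin r)} (h : Fac r hr (a ++ b)) :
    Fac r hr a ∧ Fac r hr b := by
  obtain ⟨x0, N, h⟩ := h
  have hl : a.length ≤ N := by
    have := congrArg List.length h
    rw [List.length_append, List.length_map, List.length_range'] at this
    omega
  obtain ⟨N', rfl⟩ := Nat.exists_eq_add_of_le hl
  rw [← List.range'_append_1, List.map_append] at h
  obtain ⟨h1, h2⟩ := List.append_inj h (by simp)
  exact ⟨⟨_, _, h1⟩, ⟨_, _, h2⟩⟩

/-- identify all non-factors -/
def facCon (r : ℕ) (hr : 2 ≤ r) : Con (FreeMonoid (Fin r × Fin r)) where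
  r w w' := w = w' ∨ (¬ Fac r hr w.toList ∧ ¬ Fac r hr w'.toList)
  iseqv := by
    refine ⟨fun w => Or.inl rfl, ?_, ?_⟩
    · rintro x y (h | h)
      · exact Or.inl h.symm
      · exact Or.inr ⟨h.2, h.1⟩
    · rintro x y z (rfl | h) (rfl | h')
      · exact Or.inl rfl
      · exact Or.inr h'
      · exact Or.inr h
      · exact Or.inr ⟨h.1, h'.2⟩
  mul' := by
    rintro a b c d (rfl | h) (rfl | h')
    · exact Or.inl rfl
    · exact Or.inr ⟨fun h => h'.1 h.append.2, fun h => h'.2 h.append.2⟩
    · exact Or.inr ⟨fun h' => h.1 h'.append.1, fun h' => h.2 h'.append.1⟩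
    · exact Or.inr ⟨fun h' => h.1 h'.append.1, fun h' => h.2 h'.append.1⟩

theorem directionA {M : Type w} [Monoid M] (hiso : Iso M)
    (F : Finset (FreeMonoid ℕ × FreeMonoid ℕ))
    (hF : ∀ p ∈ F, Eq' M (FreeMonoid.toList p.1) (FreeMonoid.toList p.2)) :
    ∃ (N : Type) (_ : Monoid N), (∀ p ∈ F, ∀ g : ℕ → N, FreeMonoid.lift g p.1 =
      FreeMonoid.lift g p.2) ∧ Monoid.FG N ∧ ¬ Finite N := by
  classical
  set r := F.sup (fun p => max (FreeMonoid.toList p.1).toFinset.card
    (FreeMonoid.toList p.2).toFinset.card) + 2 with hrdef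
  have hr : 2 ≤ r := by omega
  have hcard : ∀ p ∈ F, (FreeMonoid.toList p.1).toFinset.card + 2 ≤ r ∧
      (FreeMonoid.toList p.2).toFinset.card + 2 ≤ r := by
    intro p hp
    have h1 := Finset.le_sup (f := fun p : FreeMonoid ℕ × FreeMonoid ℕ =>
      max (FreeMonoid.toList p.1).toFinset.card (FreeMonoid.toList p.2).toFinset.card) hp
    have h2 := le_max_left (FreeMonoid.toList p.1).toFinset.card
      (FreeMonoid.toList p.2).toFinset.card
    have h3 := le_max_right (FreeMonoid.toList p.1).toFinset.card
      (FreeMonoid.toList p.2).toFinset.card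
    have h4 := le_trans h2 h1
    have h5 := le_trans h3 h1
    omega
  -- rigidity for words over the finite alphabet
  have key : ∀ (u v : List ℕ), u.toFinset.card + 2 ≤ r → Eq' M u v →
      ∀ φ : ℕ → List (Fin r × Fin r), Fac r hr (u.flatMap φ) → v.flatMap φ = u.flatMap φ := by
    intro u v hu huv φ hfac
    obtain ⟨x0, N, h⟩ := hfac
    set emb : Fin r × Fin r → ℕ × ℕ := fun c => (c.1.1, c.2.1) with hemb
    have hinj : Function.Injective emb := by
      rintro ⟨a, b⟩ ⟨c, d⟩ hh
      simp only [hemb, Prod.mk.injEq] at hh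
      exact Prod.ext (Fin.ext hh.1) (Fin.ext hh.2)
    have h1 : u.flatMap (fun l => (φ l).map emb) = (List.range' x0 N).map (bt r) := by
      rw [← List.map_flatMap, h, List.map_map]
      rfl
    have h2 := (main_iso hiso u hu N _ x0 h1).2 v huv
    rw [← List.map_flatMap, ← List.map_flatMap] at h2
    exact List.map_injective_iff.2 hinj h2
  refine ⟨(facCon r hr).Quotient, inferInstance, ?_, ?_, ?_⟩
  · intro p hp g
    obtain ⟨c1, c2⟩ := hcard p hp
    have hsurj : ∀ x : (facCon r hr).Quotient, ∃ w : FreeMonoid (Fin r × Fin r),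
        (facCon r hr).mk' w = x := Con.mk'_surjective
    choose φ hφ using fun i => hsurj (g i)
    have hl : ∀ w : FreeMonoid ℕ, FreeMonoid.lift g w =
        (facCon r hr).mk' (FreeMonoid.lift φ w) := by
      intro w
      have : FreeMonoid.lift g = ((facCon r hr).mk').comp (FreeMonoid.lift φ) := by
        apply FreeMonoid.hom_eq
        intro x
        rw [FreeMonoid.lift_eval_of, MonoidHom.comp_apply, FreeMonoid.lift_eval_of, hφ]
      rw [this]
      rfl
    have hl2 : ∀ w : FreeMonoid ℕ, (FreeMonoid.lift φ w).toList =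
        (FreeMonoid.toList w).flatMap (fun i => (φ i).toList) := by
      intro w
      induction w using FreeMonoid.inductionOn' with
      | one => rfl
      | of_mul x xs ih =>
        rw [map_mul, FreeMonoid.toList_mul, ih, FreeMonoid.toList_mul, FreeMonoid.lift_eval_of]
        rfl
    rw [hl, hl]
    apply (Con.eq _).2
    change _ = _ ∨ _
    by_cases h1 : Fac r hr (FreeMonoid.lift φ p.1).toList
    · left
      have h2 := key _ _ c1 (hF p hp) (fun i => (φ i).toList) (by rw [← hl2]; exact h1)
      rw [← hl2, ← hl2] at h2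
      exact (FreeMonoid.toList.injective h2).symm
    · by_cases h3 : Fac r hr (FreeMonoid.lift φ p.2).toList
      · left
        have h2 := key _ _ c2 (fun a => (hF p hp a).symm) (fun i => (φ i).toList)
          (by rw [← hl2]; exact h3)
        rw [← hl2, ← hl2] at h2
        exact FreeMonoid.toList.injective h2
      · exact Or.inr ⟨h1, h3⟩
  · exact Monoid.fg_of_surjective (facCon r hr).mk' Con.mk'_surjective
  · intro hfin
    have hinj : Function.Injective (fun n : ℕ => (facCon r hr).mk'
        (FreeMonoid.ofList ((List.range' 0 n).map (bf r hr)))) := by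
      intro n m hnm
      have h1 := (Con.eq (facCon r hr)).1 hnm
      have h2 : FreeMonoid.ofList ((List.range' 0 n).map (bf r hr)) =
          FreeMonoid.ofList ((List.range' 0 m).map (bf r hr)) := by
        rcases h1 with h | h
        · exact h
        · exact absurd ⟨0, n, rfl⟩ h.1
      have h3 := congrArg List.length (FreeMonoid.ofList.injective h2)
      simpa using h3
    exact not_injective_infinite_finite _ hinj

end Pool.Agent.H43R2
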