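import Mathlib
import Pool.Agent.H43R2.Corner
set_option autoImplicit false

/-!
Local finiteness.
-/

namespace Pool.Agent.H43R2

universe u v

lemma per_of_finite (M : Type u) [Monoid M] [Finite M] : Per (Nat.card M).factorial M := by
  set m := Nat.card M with hm
  refine ⟨Nat.factorial_pos m, fun x => ?_⟩
  have hni : ¬ Function.Injective (fun i : Fin (m + 1) => x ^ i.1) := by
    intro hinj
    have h2 := Nat.card_le_card_of_injective _ hinj
    rw [Nat.card_eq_fintype_card, Fintype.card_fin, ← hm] at h2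
    omega
  obtain ⟨i, j, hij, hlt⟩ : ∃ i j : Fin (m + 1), x ^ i.1 = x ^ j.1 ∧ i.1 < j.1 := by
    simp only [Function.Injective, not_forall] at hni
    obtain ⟨i, j, h1, h2⟩ := hni
    rcases lt_or_gt_of_ne h2 with h | h
    · exact ⟨i, j, h1, h⟩
    · exact ⟨j, i, h1.symm, h⟩
  obtain ⟨p, hp⟩ := Nat.exists_eq_add_of_lt hlt
  have hj := j.2
  have hstep : ∀ q : ℕ, x ^ (i.1 + (p + 1) * q) = x ^ i.1 := by
    intro q
    induction q with
    | zero => simp
    | succ q ih =>
      have : i.1 + (p + 1) * (q + 1) = (i.1 + (p + 1) * q) + (p + 1) := by ring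
      rw [this, pow_add, ih, ← pow_add, hij, hp]
      congr 1
  obtain ⟨q, hq⟩ : (p + 1) ∣ m.factorial := Nat.dvd_factorial (by omega) (by omega)
  have hle : i.1 ≤ m.factorial := le_trans (by omega) (Nat.self_le_factorial m)
  obtain ⟨r, hr⟩ := Nat.exists_eq_add_of_le hle
  have h1 := hstep q
  rw [← hq] at h1
  calc x ^ m.factorial * x ^ m.factorial = x ^ (i.1 + m.factorial) * x ^ r := by
        rw [← pow_add, ← pow_add]; congr 1; omega
    _ = x ^ m.factorial := by rw [h1, ← pow_add, ← hr]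

section

variable {N : Type v} [Monoid N] {α : Type} {π : List α → N}

/-- geodesic words -/
def Geo (π : List α → N) : Set (List α) := {w | ∀ w', π w' = π w → w.length ≤ w'.length}

lemma geo_fac (h2 : ∀ u v, π (u ++ v) = π u * π v) : Factorial (Geo π) := by
  rintro w hw v ⟨p, q, rfl⟩ v' hv'
  have := hw (p ++ v' ++ q) (by rw [h2, h2, h2, h2, hv'])
  simp only [List.length_append] at this
  omega

lemma geo_big [Finite α] [Infinite N] (h2 : ∀ u v, π (u ++ v) = π u * π v)
    (hs : Function.Surjective π) : Big (Geo π) := by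
  intro l
  have hfin : (π '' {w : List α | w.length < l}).Finite :=
    ((List.finite_length_lt α l)).image π
  obtain ⟨x, hx⟩ := hfin.exists_notMem
  have hne : ∃ n, ∃ w, π w = x ∧ w.length = n := by
    obtain ⟨w, hw⟩ := hs x
    exact ⟨_, w, hw, rfl⟩
  classical
  obtain ⟨w, hw, hwn⟩ := Nat.find_spec hne
  have hgeo : w ∈ Geo π := by
    intro w' hw'
    rw [hwn]
    exact Nat.find_min' hne ⟨w', hw'.trans hw, rfl⟩
  have hl : l ≤ w.length := by
    by_contra hlt
    exact hx ⟨w, by simpa using hlt, hw⟩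
  exact ⟨w.take l, geo_fac h2 w hgeo _ (List.take_prefix l w).isInfix, by simp [hl]⟩

lemma chop {K : Set (List α)} (hK : Factorial K) (ℓ l : ℕ) : ∀ w ∈ K, w.length = l * ℓ →
    ∃ bs : List {v : List α // v ∈ K ∧ v.length = ℓ}, bs.length = l ∧
      (bs.map Subtype.val).flatten = w := by
  induction l with
  | zero =>
    intro w _ hw
    have : w = [] := List.eq_nil_of_length_eq_zero (by simpa using hw)
    exact ⟨[], rfl, by simp [this]⟩
  | succ l ih =>
    intro w hw hwl
    have h1 : ℓ ≤ w.length := by rw [hwl, Nat.succ_mul]; omega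
    obtain ⟨bs, g1, g2⟩ := ih (w.drop ℓ) (hK w hw _ (List.drop_suffix ℓ w).isInfix)
      (by rw [List.length_drop, hwl, Nat.succ_mul]; omega)
    refine ⟨⟨w.take ℓ, hK w hw _ (List.take_prefix ℓ w).isInfix, by simp [h1]⟩ :: bs,
      by simp [g1], ?_⟩
    rw [List.map_cons, List.flatten_cons, g2, List.take_append_drop]

lemma infix_dv (h2 : ∀ u v, π (u ++ v) = π u * π v) {u v : List α} (h : u <:+: v) :
    Dv (π u) (π v) := by
  obtain ⟨p, q, rfl⟩ := h
  rw [h2, h2]
  exact Dv.mid _ _ _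

lemma step1 [Finite α] {D : ℕ} (hP : Per D N) (h1 : π [] = 1)
    (h2 : ∀ u v, π (u ++ v) = π u * π v) (n : ℕ) (t : T n) (ht : t ≠ one n)
    (hev : ∀ (x : N) (g : ℕ → N), ev n (one n) x g = ev n t x g)
    {K : Set (List α)} (hK : Good K) {U : List α} (hU : U ∈ K) :
    ∃ f, f * f = f ∧ Dv (π U) f ∧ ∃ v ∈ K, Dv f (π v) := by
  obtain ⟨ℓ, hℓ⟩ := hK.ur' hU
  set B := {v : List α // v ∈ K ∧ v.length = ℓ} with hB
  have hBf : Finite B := by
    have : {v : List α | v ∈ K ∧ v.length = ℓ}.Finite := finite_len K ℓ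
    exact this.to_subtype
  set ρ : List B → N := fun w => π (w.map Subtype.val).flatten with hρ
  have ρ1 : ρ [] = 1 := by rw [hρ]; simpa using h1
  have ρ2 : ∀ u v, ρ (u ++ v) = ρ u * ρ v := by
    intro u v
    rw [hρ]
    simp only [List.map_append, List.flatten_append, h2]
  have ρpow : ∀ (k : ℕ) (x : List B), ρ (List.replicate k x).flatten = ρ x ^ k := by
    intro k x
    induction k with
    | zero => simpa using ρ1
    | succ k ih => rw [List.replicate_succ, List.flatten_cons, ρ2, ih, pow_succ']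
  have ρev : ∀ (m : ℕ) (s : T m) (x : List B) (g : ℕ → List B),
      ρ (evL m s x g) = ev m s (ρ x) (fun i => ρ (g i)) := by
    intro m
    induction m with
    | zero => intro s x g; exact ρpow _ _
    | succ m ih =>
      intro s x g
      rw [evL, ρ2, ρ2, ih, ih, ev]
  obtain ⟨h, hne, v, hv, hdv⟩ := powers (B := B) {w | ∃ v ∈ K, Dv (ρ w) (π v)} (by
      rintro w ⟨v, hv, hdv⟩ w' ⟨p, q, rfl⟩
      refine ⟨v, hv, Dv.trans ?_ hdv⟩
      rw [ρ2, ρ2]
      exact Dv.mid _ _ _) (by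
      intro l
      obtain ⟨w, hw, hwl⟩ := hK.big (l * ℓ)
      obtain ⟨bs, g1, g2⟩ := chop hK.fac ℓ l w hw hwl
      refine ⟨bs, ⟨w, hw, ?_⟩, g1⟩
      rw [hρ]
      simp only [g2]
      exact Dv.refl _) n t ht (by
      rintro x g p q ⟨v, hv, hdv⟩
      refine ⟨v, hv, ?_⟩
      rw [ρ2, ρ2, ρev, ← hev, ← ρev, ← ρ2, ← ρ2]
      exact hdv) D
  rw [ρpow] at hdv
  refine ⟨ρ h ^ D, hP.2 _, ?_, v, hv, hdv⟩
  obtain ⟨b, h', rfl⟩ : ∃ b h', h = b :: h' := by
    cases h with
    | nil => exact absurd rfl hne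
    | cons b h' => exact ⟨b, h', rfl⟩
  have e1 : Dv (π U) (ρ (b :: h')) := by
    apply infix_dv h2
    have h3 := hℓ b.1 b.2.1 (by rw [b.2.2])
    refine h3.trans ⟨[], (h'.map Subtype.val).flatten, by simp⟩
  obtain ⟨D', hD'⟩ : ∃ D', D = D' + 1 := ⟨D - 1, by have := hP.1; omega⟩
  rw [hD', pow_succ]
  exact e1.mul_left _

theorem finite_of_props {D : ℕ} (hP : Per D N) (n : ℕ) (t : T n) (ht : t ≠ one n)
    (hev : ∀ (x : N) (g : ℕ → N), ev n (one n) x g = ev n t x g)
    (hgrp : ∀ (ε : Idm N) (Γ : Subgroup (Cor ε)ˣ), Γ.FG → Finite Γ) (hfg : Monoid.FG N) :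
    Finite N := by
  classical
  by_contra hinf
  rw [not_finite_iff_infinite] at hinf
  have hdel : Del N := del_of_ev n t ht hev
  obtain ⟨α, hα, φ, hφ⟩ := Monoid.fg_iff_exists_freeGroup_hom_surjective_finite.1 hfg
  obtain ⟨π, hπ⟩ : ∃ π : List α → N, π = fun w => φ (FreeMonoid.ofList w) := ⟨_, rfl⟩
  have h1 : π [] = 1 := by rw [hπ]; exact map_one φ
  have h2 : ∀ u v, π (u ++ v) = π u * π v := by
    intro u v
    rw [hπ]
    exact map_mul φ _ _
  have hs : Function.Surjective π := by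
    intro x
    obtain ⟨w, hw⟩ := hφ x
    exact ⟨FreeMonoid.toList w, by rw [hπ]; exact hw⟩
  obtain ⟨K, hKL, hK⟩ := exists_good (Geo π) (geo_fac h2) (geo_big h2 hs)
  have hprod : ∀ w : List α, π w = (w.map (fun a => π [a])).prod := by
    intro w
    induction w with
    | nil => simpa using h1
    | cons a w ih =>
      rw [List.map_cons, List.prod_cons, ← ih, ← h2, List.singleton_append]
  have hnil : [] ∈ K := by
    obtain ⟨w, hw, hl⟩ := hK.big 0
    rwa [List.eq_nil_of_length_eq_zero hl] at hw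
  have := Fintype.ofFinite α
  set A : N → Finset α := fun f => Finset.univ.filter (fun a => Dv (π [a]) f) with hA
  have hA1 : ∀ f, f * f = f → ∀ w : List α, (∀ a ∈ w, a ∈ A f) → Dv (π w) f := by
    intro f hf w hw
    rw [hprod]
    apply list_prod_dv hdel hf
    intro x hx
    rw [List.mem_map] at hx
    obtain ⟨a, ha, rfl⟩ := hx
    have := hw a ha
    rw [hA, Finset.mem_filter] at this
    exact this.2
  have hA2 : ∀ f, ∀ w : List α, Dv (π w) f → ∀ a ∈ w, a ∈ A f := by
    intro f w hw a ha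
    rw [hA, Finset.mem_filter]
    refine ⟨Finset.mem_univ _, Dv.trans ?_ hw⟩
    apply infix_dv h2
    obtain ⟨p, q, rfl⟩ := List.append_of_mem ha
    exact ⟨p, q, by simp⟩
  -- maximal idempotent
  obtain ⟨e, hee, ⟨v0, hv0, hev0⟩, hmax⟩ : ∃ e : N, e * e = e ∧ (∃ v ∈ K, Dv e (π v)) ∧
      ∀ f : N, f * f = f → (∃ v ∈ K, Dv f (π v)) → (A f).card ≤ (A e).card := by
    let P : ℕ → Prop := fun c => ∃ e : N, e * e = e ∧ (∃ v ∈ K, Dv e (π v)) ∧ (A e).card = c
    obtain ⟨f0, hf0, -, hf0'⟩ := step1 hP h1 h2 n t ht hev hK hnil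
    have hP0 : P (A f0).card := ⟨f0, hf0, hf0', rfl⟩
    have hbd : ∀ c, P c → c ≤ Fintype.card α := by
      rintro c ⟨e, _, _, rfl⟩
      exact Finset.card_le_univ _
    obtain ⟨e, he1, he2, he3⟩ := Nat.findGreatest_spec (P := P) (hbd _ hP0) hP0
    refine ⟨e, he1, he2, fun f hf hf' => ?_⟩
    rw [he3]
    exact Nat.le_findGreatest (hbd _ ⟨f, hf, hf', rfl⟩) ⟨f, hf, hf', rfl⟩
  -- make `v0` nonempty
  obtain ⟨v0, hv0, hev0, hv0ne⟩ : ∃ v ∈ K, Dv e (π v) ∧ v ≠ [] := by
    obtain ⟨l, hl⟩ := hK.ur' hv0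
    obtain ⟨w, hw, hwl⟩ := hK.big (l + 1)
    refine ⟨w, hw, hev0.trans (infix_dv h2 (hl w hw (by omega))), ?_⟩
    rintro rfl
    simp at hwl
  have hall : ∀ U ∈ K, Dv (π U) e := by
    intro U hU
    obtain ⟨l1, hl1⟩ := hK.ur' hU
    obtain ⟨l2, hl2⟩ := hK.ur' hv0
    obtain ⟨V, hV, hVl⟩ := hK.big (max l1 l2)
    have hUV := hl1 V hV (by rw [hVl]; exact le_max_left _ _)
    have hvV := hl2 V hV (by rw [hVl]; exact le_max_right _ _)
    obtain ⟨f, hf, hVf, hfv⟩ := step1 hP h1 h2 n t ht hev hK hV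
    have hef : Dv e f := (hev0.trans (infix_dv h2 hvV)).trans hVf
    have hsub : A e ⊆ A f := by
      intro a ha
      rw [hA, Finset.mem_filter] at ha ⊢
      exact ⟨ha.1, ha.2.trans hef⟩
    have heq : A e = A f := Finset.eq_of_subset_of_card_le hsub (hmax f hf hfv)
    obtain ⟨w, hw⟩ := hs f
    have hfe : Dv f e := by
      rw [← hw]
      apply hA1 e hee
      rw [heq]
      apply hA2
      rw [hw]
      exact Dv.refl _
    exact ((infix_dv h2 hUV).trans hVf).trans hfe
  -- the group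
  obtain ⟨z, hz⟩ : ∃ z, z = π v0 := ⟨_, rfl⟩
  have hez : Jc e z := ⟨hz ▸ hall v0 hv0, hz ▸ hev0⟩
  set ε : Idm N := ⟨z ^ D, hP.2 _⟩ with hε
  have heε : Jc e ε.1 := hez.pow hdel hee hP.1
  have hzG : Gp e ε.1 z := by
    refine ⟨hez, ?_, ?_⟩
    · have := idem_left hP hdel hee hez (Dv.one e)
      simpa using this
    · have := idem_right hP hdel hee hez (Dv.one e)
      simpa using this
  have hunit : ∀ x, Gp e ε.1 x → ∃ g : (Cor ε)ˣ, g.val.1 = x := by
    intro x hx
    obtain ⟨xc, hxc⟩ : ∃ xc : Cor ε, xc.1 = x := ⟨⟨x, hx.left, hx.right⟩, rfl⟩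
    have : IsUnit xc := by
      apply isUnit_cor
      · exact ⟨x ^ (D - 1), by rw [hxc]; exact hx.mul_inv hP hdel hee heε ε.2⟩
      · exact ⟨x ^ (D - 1), by rw [hxc]; exact hx.inv_mul hP hdel hee heε ε.2⟩
    obtain ⟨g, hg⟩ := this
    exact ⟨g, by rw [hg, hxc]⟩
  have hGpV : ∀ w, v0 ++ w ++ v0 ∈ K → Gp e ε.1 (π (v0 ++ w ++ v0)) := by
    intro w hw
    rw [h2, h2, ← hz]
    exact hzG.mid hdel hee (hall w (hK.fac _ hw _ ⟨v0, v0, rfl⟩)) hzG
  have hex : ∀ w : List α, ∃ g : (Cor ε)ˣ, v0 ++ w ++ v0 ∈ K → g.val.1 = π (v0 ++ w ++ v0) := by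
    intro w
    by_cases hw : v0 ++ w ++ v0 ∈ K
    · obtain ⟨g, hg⟩ := hunit _ (hGpV w hw)
      exact ⟨g, fun _ => hg⟩
    · exact ⟨1, fun h => absurd h hw⟩
  choose un hun using hex
  obtain ⟨gz, hgz⟩ := hunit z hzG
  obtain ⟨ℓ, hℓ⟩ := hK.ur' hv0
  have hSfin : (insert gz (un '' {w : List α | w.length ≤ ℓ})).Finite :=
    ((List.finite_length_le α ℓ).image un).insert gz
  set Γ := Subgroup.closure (insert gz (un '' {w : List α | w.length ≤ ℓ})) with hΓ
  have hΓfg : Γ.FG := (Subgroup.fg_iff Γ).2 ⟨_, rfl, hSfin⟩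
  have hΓfin := hgrp ε Γ hΓfg
  have hmem : ∀ (m : ℕ) (w : List α), w.length = m → v0 ++ w ++ v0 ∈ K → un w ∈ Γ := by
    intro m
    induction m using Nat.strong_induction_on with
    | _ m ih =>
      intro w hwm hw
      by_cases hle : w.length ≤ ℓ
      · exact Subgroup.subset_closure (Set.mem_insert_of_mem _ ⟨w, hle, rfl⟩)
      · have hwK : w ∈ K := hK.fac _ hw _ ⟨v0, v0, rfl⟩
        obtain ⟨p, q, hpq⟩ := hℓ _ (hK.fac _ hwK _ (List.take_prefix ℓ w).isInfix) (by
          rw [List.length_take]; omega)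
        have hwe : w = p ++ v0 ++ (q ++ w.drop ℓ) := by
          rw [← List.append_assoc, hpq, List.take_append_drop]
        have hv0l : 1 ≤ v0.length := by
          rcases v0 with _ | _
          · exact absurd rfl hv0ne
          · simp
        have hlen := congrArg List.length hwe
        simp only [List.length_append] at hlen
        have hp : v0 ++ p ++ v0 ∈ K := hK.fac _ hw _ ⟨[], (q ++ w.drop ℓ) ++ v0, by
          conv_rhs => rw [hwe]
          simp [List.append_assoc]⟩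
        have hq : v0 ++ (q ++ w.drop ℓ) ++ v0 ∈ K := hK.fac _ hw _ ⟨v0 ++ p, [], by
          conv_rhs => rw [hwe]
          simp [List.append_assoc]⟩
        have i1 := ih p.length (by omega) p rfl hp
        have i2 := ih (q ++ w.drop ℓ).length (by rw [List.length_append]; omega) _ rfl hq
        have i3 : gz ∈ Γ := Subgroup.subset_closure (Set.mem_insert _ _)
        have e1 : un w = un p * gz⁻¹ * un (q ++ w.drop ℓ) := by
          obtain ⟨Y, hY⟩ : ∃ Y : Cor ε, Y.1 = ε.1 * π (q ++ w.drop ℓ) * z :=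
            ⟨⟨ε.1 * π (q ++ w.drop ℓ) * z, by rw [← mul_assoc, ← mul_assoc, ε.2],
              by rw [mul_assoc, hzG.right]⟩, rfl⟩
          have e7 : (gz : Cor ε) * Y = (un (q ++ w.drop ℓ) : Cor ε) := by
            apply Subtype.ext
            rw [cor_mul, hun _ hq, hgz, hY, h2 (v0 ++ (q ++ w.drop ℓ)), h2 v0, ← hz,
              ← mul_assoc, ← mul_assoc, hzG.right]
          apply Units.ext
          rw [Units.val_mul, Units.val_mul, mul_assoc, ← e7, Units.inv_mul_cancel_left]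
          apply Subtype.ext
          rw [cor_mul, hun w hw, hun p hp, hY]
          have e8 : π (v0 ++ w ++ v0) = z * (π p * z * π (q ++ w.drop ℓ)) * z := by
            conv_lhs => rw [hwe]
            rw [h2, h2, h2, h2, ← hz]
          rw [e8, h2 (v0 ++ p), h2 v0, ← hz]
          symm
          calc z * π p * z * (ε.1 * π (q ++ w.drop ℓ) * z) =
              z * π p * (z * ε.1) * π (q ++ w.drop ℓ) * z := by simp only [mul_assoc]
            _ = _ := by rw [hzG.right]; simp only [mul_assoc]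
        rw [e1]
        exact Γ.mul_mem (Γ.mul_mem i1 (Γ.inv_mem i3)) i2
  -- bounded length
  obtain ⟨Λ, hΛ⟩ : ∃ Λ : ℕ, ∀ w, v0 ++ w ++ v0 ∈ K → (v0 ++ w ++ v0).length ≤ Λ := by
    have hfinval : (Set.range (fun g : Γ => g.1.val.1)).Finite := Set.finite_range _
    choose rep hrep using hs
    obtain ⟨Λ, hΛ⟩ := (hfinval.image (fun x => (rep x).length)).bddAbove
    refine ⟨Λ, fun w hw => ?_⟩
    have h3 : π (v0 ++ w ++ v0) ∈ Set.range (fun g : Γ => g.1.val.1) :=
      ⟨⟨un w, hmem _ w rfl hw⟩, hun w hw⟩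
    exact (hKL hw (rep (π (v0 ++ w ++ v0))) (hrep _)).trans (hΛ ⟨_, h3, rfl⟩)
  -- a long word
  obtain ⟨W, hW, hWl⟩ := hK.big (ℓ + Λ + 1 + ℓ)
  obtain ⟨p1, q1, e1⟩ := hℓ _ (hK.fac W hW _ (List.take_prefix ℓ W).isInfix) (by
    rw [List.length_take]; omega)
  have hd : W.drop ℓ ∈ K := hK.fac W hW _ (List.drop_suffix ℓ W).isInfix
  obtain ⟨p2, q2, e2⟩ := hℓ _ (hK.fac _ hd _ (List.drop_suffix (Λ + 1) (W.drop ℓ)).isInfix) (by
    rw [List.length_drop, List.length_drop]; omega)
  have hfin := hΛ (q1 ++ (W.drop ℓ).take (Λ + 1) ++ p2) (hK.fac W hW _ ⟨p1, q2, by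
    conv_rhs => rw [← List.take_append_drop ℓ W, ← e1,
      ← List.take_append_drop (Λ + 1) (W.drop ℓ), ← e2]
    simp [List.append_assoc]⟩)
  simp only [List.length_append, List.length_take, List.length_drop] at hfin
  omega

end

theorem locfin (M : Type u) [Monoid M] [Finite M] (hM : ¬ Iso M) :
    ∃ k, ∀ (N : Type v) [Monoid N], Kid M N k → Monoid.FG N → Finite N := by
  classical
  set D := (Nat.card M).factorial with hD
  have hP : Per D M := per_of_finite M
  obtain ⟨n, t, ht, hev⟩ := special_of_not_iso hM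
  obtain ⟨k', hk', hop⟩ := op.{u, v} (HH M)
  refine ⟨max (n + 1) k', ?_⟩
  intro N _ hid hfg
  have hmono : ∀ k, k ≤ max (n + 1) k' → Kid M N k := fun k hk w w' hw hw' h =>
    hid w w' (fun x hx => lt_of_lt_of_le (hw x hx) hk) (fun x hx => lt_of_lt_of_le (hw' x hx) hk) h
  have hPN : Per D N := by
    refine ⟨hP.1, fun x => ?_⟩
    have h1 := hmono (n + 1) (le_max_left _ _) (List.replicate (D + D) 0) (List.replicate D 0)
      (by intro y hy; rw [List.eq_of_mem_replicate hy]; omega)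
      (by intro y hy; rw [List.eq_of_mem_replicate hy]; omega)
      (by
        intro a
        rw [val_replicate, val_replicate, pow_add]
        exact hP.2 _) (fun _ => x)
    rw [val_replicate, val_replicate, pow_add] at h1
    exact h1
  have hevN : ∀ (x : N) (g : ℕ → N), ev n (one n) x g = ev n t x g := by
    intro x g
    have h1 := hmono (n + 1) (le_max_left _ _) (dw n (one n)) (dw n t)
      (fun y hy => dw_lt n _ y hy) (fun y hy => dw_lt n _ y hy)
      (by
        intro a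
        rw [val_dw, val_dw]
        exact hev _ _) (fun i => match i with | 0 => x | i + 1 => g i)
    rw [val_dw, val_dw] at h1
    exact h1
  refine finite_of_props hPN n t ht hevN ?_ hfg
  intro ε Γ hΓ
  apply hop Γ
  · exact (Group.fg_iff_subgroup_fg Γ).2 hΓ
  · have hl := transfer_laws hP hPN hk' (hmono k' (le_max_right _ _)) ε
    intro w hw f
    have h1 := hl w hw (fun i => (f i : (Cor ε)ˣ))
    have h2 : (Γ.subtype).comp (FreeGroup.lift f) = FreeGroup.lift (fun i => (f i : (Cor ε)ˣ)) := by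
      ext i; simp
    rw [← h2] at h1
    exact Subtype.ext h1

end Pool.Agent.H43R2
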