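import Mathlib
import Pool.Agent.H43R2.Comp
import Pool.Agent.H43R2.LocFin
import Pool.Agent.H43R2.DirA
set_option autoImplicit false

/-!
The criterion is correct.
-/

namespace Pool.Agent.H43R2

/-- carrier of the table monoid -/
def TM (n : ℕ) : Type := Fin n

instance (n : ℕ) : Finite (TM n) := inferInstanceAs (Finite (Fin n))

lemma card_TM (n : ℕ) : Nat.card (TM n) = n := by
  change Nat.card (Fin n) = n
  simp

/-- validity of a table -/
structure Valid (c : ℕ × List ℕ) (e : ℕ) : Prop where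
  len : c.2.length = c.1 * c.1
  ent : ∀ x ∈ c.2, x < c.1
  assoc : ∀ a < c.1, ∀ b < c.1, ∀ d < c.1, tmul c (tmul c a b) d = tmul c a (tmul c b d)
  elt : e < c.1
  one : ∀ a < c.1, tmul c e a = a ∧ tmul c a e = a

lemma Valid.lt {c : ℕ × List ℕ} {e : ℕ} (h : Valid c e) {a b : ℕ} (ha : a < c.1) (hb : b < c.1) :
    tmul c a b < c.1 := by
  have hlt : a * c.1 + b < c.2.length := by
    rw [h.len]
    calc a * c.1 + b < a * c.1 + c.1 := by omega
      _ = (a + 1) * c.1 := by ring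
      _ ≤ c.1 * c.1 := Nat.mul_le_mul_right _ ha
  unfold tmul
  rw [List.getD_eq_getElem _ _ hlt]
  exact h.ent _ (List.getElem_mem hlt)

/-- the monoid of a table -/
@[reducible] def tmon {c : ℕ × List ℕ} {e : ℕ} (h : Valid c e) : Monoid (TM c.1) where
  mul a b := (⟨tmul c a.1 b.1, h.lt a.2 b.2⟩ : Fin c.1)
  one := (⟨e, h.elt⟩ : Fin c.1)
  mul_assoc a b d := Fin.ext (h.assoc a.1 a.2 b.1 b.2 d.1 d.2)
  one_mul a := Fin.ext (h.one a.1 a.2).1
  mul_one a := Fin.ext (h.one a.1 a.2).2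

lemma tmon_mul {c : ℕ × List ℕ} {e : ℕ} (h : Valid c e) (a b : TM c.1) :
    letI := tmon h
    ((a * b : TM c.1) : Fin c.1).1 = tmul c (a : Fin c.1).1 (b : Fin c.1).1 := rfl

lemma fold_val {c : ℕ × List ℕ} {e : ℕ} (h : Valid c e) (a : ℕ → TM c.1) (w : List ℕ) :
    letI := tmon h
    ∀ x : TM c.1, w.foldl (fun y i => tmul c y (a i : Fin c.1).1) (x : Fin c.1).1 =
      ((x * val a w : TM c.1) : Fin c.1).1 := by
  let _ := tmon h
  induction w with
  | nil => intro x; simp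
  | cons i w ih =>
    intro x
    rw [List.foldl_cons, ← tmon_mul h, ih, val_cons, mul_assoc]

lemma fold_one {c : ℕ × List ℕ} {e : ℕ} (h : Valid c e) (f : ℕ → ℕ) (hf : ∀ i, f i < c.1)
    (w : List ℕ) :
    letI := tmon h
    w.foldl (fun y i => tmul c y (f i)) e =
      ((val (fun i => (⟨f i, hf i⟩ : Fin c.1)) w : TM c.1) : Fin c.1).1 := by
  let _ := tmon h
  have h1 := fold_val h (fun i => (⟨f i, hf i⟩ : Fin c.1)) w (1 : TM c.1)
  rw [one_mul] at h1
  exact h1

lemma wz_snd_lt (r D l : ℕ) : ∀ x ∈ (wz r D l).2, x < 1 + r * l := by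
  induction l with
  | zero =>
    intro x hx
    have := List.eq_of_mem_replicate hx
    omega
  | succ l ih =>
    intro x hx
    have h1 : ∀ x ∈ (wz r D l).1, x < 1 + r * l := by
      intro x hx
      rw [wz_fst] at hx
      exact (Z_mem _ _).1 hx
    have h2 : ∀ (L : List ℕ) (w : List ℕ), (∀ y ∈ L, y < r) → (∀ x ∈ w, x < 1 + r * l) →
        ∀ x ∈ L.flatMap (fun y => (1 + r * l + y) :: w), x < 1 + r * (l + 1) := by
      intro L w hL hw x hx
      rw [List.mem_flatMap] at hx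
      obtain ⟨y, hy, hx⟩ := hx
      have := hL y hy
      rw [Nat.mul_succ]
      rcases List.mem_cons.1 hx with rfl | hx
      · omega
      · have := hw x hx
        omega
    rw [wz] at hx
    simp only [List.mem_append] at hx
    rcases hx with (hx | hx) | hx
    · have := h1 x hx
      rw [Nat.mul_succ]
      omega
    · exact h2 _ _ (fun y hy => (Z_mem r y).1 (List.mem_of_mem_take hy)) ih x hx
    · exact h2 _ _ (fun y hy => (Z_mem r y).1 (List.mem_of_mem_drop hy)) h1 x hx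

lemma digits {n : ℕ} (hn : 0 < n) (k : ℕ) : ∀ f : ℕ → ℕ, (∀ i, f i < n) →
    ∃ s < n ^ k, ∀ i < k, s / n ^ i % n = f i := by
  induction k with
  | zero => intro f _; exact ⟨0, by simp, by simp⟩
  | succ k ih =>
    intro f hf
    obtain ⟨s, hs, hsi⟩ := ih (fun i => f (i + 1)) (fun i => hf _)
    refine ⟨f 0 + n * s, ?_, ?_⟩
    · have h1 := hf 0
      calc f 0 + n * s < n + n * s := by omega
        _ = n * (s + 1) := by ring
        _ ≤ n * n ^ k := Nat.mul_le_mul_left _ hs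
        _ = n ^ (k + 1) := by rw [pow_succ']
    · intro i hi
      cases i with
      | zero =>
        rw [pow_zero, Nat.div_one, Nat.add_mul_mod_self_left]
        exact Nat.mod_eq_of_lt (hf 0)
      | succ i =>
        rw [pow_succ', ← Nat.div_div_eq_div_mul, Nat.add_mul_div_left _ _ hn,
          Nat.div_eq_of_lt (hf 0), zero_add]
        exact hsi i (by omega)

lemma crit_iff {c : ℕ × List ℕ} {e : ℕ} (h : Valid c e) :
    letI := tmon h
    crit c e ↔ ∀ a : ℕ → TM c.1, vz (pr' c.1) (pD c.1) a (pl c.1) =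
      vb (pr' c.1) (pD c.1) a (pl c.1) := by
  let _ := tmon h
  have hn : 0 < c.1 := lt_of_le_of_lt (Nat.zero_le _) h.elt
  constructor
  · intro hc a
    obtain ⟨s, hs, hsi⟩ := digits hn (1 + pr' c.1 * pl c.1) (fun i => (a i : Fin c.1).1)
      (fun i => (a i : Fin c.1).2)
    have h1 := hc s hs
    unfold tfold at h1
    have hf : ∀ i, s / c.1 ^ i % c.1 < c.1 := fun i => Nat.mod_lt _ hn
    have h2 := fold_one h (fun i => s / c.1 ^ i % c.1) hf (wz (pr' c.1) (pD c.1) (pl c.1)).1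
    have h3 := fold_one h (fun i => s / c.1 ^ i % c.1) hf (wz (pr' c.1) (pD c.1) (pl c.1)).2
    have h4 := h2.symm.trans (h1.trans h3)
    obtain ⟨b, hb⟩ : ∃ b : ℕ → TM c.1, b = fun i => (⟨s / c.1 ^ i % c.1, hf i⟩ : Fin c.1) :=
      ⟨_, rfl⟩
    have h5 : ∀ w : List ℕ, (∀ x ∈ w, x < 1 + pr' c.1 * pl c.1) → val a w = val b w := by
      intro w hw
      apply val_congr
      intro x hx
      rw [hb]
      exact Fin.ext (hsi x (hw x hx)).symm
    unfold vz vb
    have h6 : val b (wz (pr' c.1) (pD c.1) (pl c.1)).1 =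
        val b (wz (pr' c.1) (pD c.1) (pl c.1)).2 := by
      rw [hb]
      exact Fin.ext h4
    rw [h5 _ (fun x hx => by rw [wz_fst] at hx; exact (Z_mem _ _).1 hx), h5 _ (wz_snd_lt _ _ _),
      h6]
  · intro ha s _
    have hf : ∀ i, s / c.1 ^ i % c.1 < c.1 := fun i => Nat.mod_lt _ hn
    unfold tfold
    rw [fold_one h _ hf, fold_one h _ hf]
    have h7 := ha (fun i => (⟨s / c.1 ^ i % c.1, hf i⟩ : Fin c.1))
    exact congrArg (fun x : TM c.1 => (x : Fin c.1).1) h7

lemma lift_val {N : Type*} [Monoid N] (g : ℕ → N) (w : FreeMonoid ℕ) :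
    FreeMonoid.lift g w = val g (FreeMonoid.toList w) := by
  rw [FreeMonoid.lift_apply]; rfl

lemma Z_big (D : ℕ) : D + 1 ≤ (Z (D + 2)).length := by
  have h1 := Z_length (D + 2)
  have h2 : D + 2 < 2 ^ (D + 2) := Nat.lt_two_pow_self
  omega

/-- the frozen property of a monoid table with identity `e` -/
def INFB (c : ℕ × List ℕ) (e : ℕ) : Prop :=
  ∀ Sig : Set (FreeMonoid ℕ × FreeMonoid ℕ),
    (∀ p ∈ Sig, ∀ f : ℕ → ℕ, (∀ i, f i < c.1) →
      (FreeMonoid.toList p.1).foldl (fun a x => c.2.getD (a * c.1 + f x) 0) e =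
        (FreeMonoid.toList p.2).foldl (fun a x => c.2.getD (a * c.1 + f x) 0) e) →
    (∀ (N : Type) [Monoid N],
      (∀ p ∈ Sig, ∀ g : ℕ → N, FreeMonoid.lift g p.1 = FreeMonoid.lift g p.2) →
      Monoid.FG N → Finite N) →
    ¬ ∃ F : Finset (FreeMonoid ℕ × FreeMonoid ℕ), ∀ (N : Type) [Monoid N],
      ((∀ p ∈ F, ∀ g : ℕ → N, FreeMonoid.lift g p.1 = FreeMonoid.lift g p.2) ↔
        (∀ p ∈ Sig, ∀ g : ℕ → N, FreeMonoid.lift g p.1 = FreeMonoid.lift g p.2))

theorem infb_iff {c : ℕ × List ℕ} {e : ℕ} (h : Valid c e) : ¬ crit c e ↔ INFB c e := by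
  let _ := tmon h
  have hsat : ∀ w w' : List ℕ, Eq' (TM c.1) w w' ↔ ∀ f : ℕ → ℕ, (∀ i, f i < c.1) →
      w.foldl (fun a x => c.2.getD (a * c.1 + f x) 0) e =
        w'.foldl (fun a x => c.2.getD (a * c.1 + f x) 0) e := by
    intro w w'
    constructor
    · intro hE f hf
      have h1 := fold_one h f hf w
      have h2 := fold_one h f hf w'
      have h3 := hE (fun i => (⟨f i, hf i⟩ : Fin c.1))
      rw [h3] at h1
      exact h1.trans h2.symm
    · intro hE a
      have h1 := fold_one h (fun i => (a i : Fin c.1).1) (fun i => (a i : Fin c.1).2) w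
      have h2 := fold_one h (fun i => (a i : Fin c.1).1) (fun i => (a i : Fin c.1).2) w'
      have h3 := hE (fun i => (a i : Fin c.1).1) (fun i => (a i : Fin c.1).2)
      exact Fin.ext (h1.symm.trans (h3.trans h2))
  constructor
  · intro hcrit
    -- Zimin words are isoterms
    have hiso : Iso (TM c.1) := by
      by_contra hni
      apply hcrit
      rw [crit_iff h]
      intro a
      have hP : Per (pD c.1) (TM c.1) := by
        have := per_of_finite (TM c.1)
        rwa [card_TM] at this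
      have h1 := explicit_of_not_iso hP hni (pr' c.1) (Z_big _) a
      rw [card_TM] at h1
      exact h1
    intro Sig hSig hLF
    rintro ⟨F, hF⟩
    have hMS : ∀ p ∈ Sig, ∀ g : ℕ → TM c.1, FreeMonoid.lift g p.1 = FreeMonoid.lift g p.2 := by
      intro p hp g
      rw [lift_val, lift_val]
      exact (hsat _ _).2 (fun f hf => hSig p hp f hf) g
    have hMF := (hF (TM c.1)).2 hMS
    obtain ⟨N, _, hN, hfg, hinf⟩ := directionA hiso F (fun p hp a => by
      have := hMF p hp a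
      rwa [lift_val, lift_val] at this)
    exact hinf (hLF N ((hF N).1 hN) hfg)
  · intro hI hcrit
    rw [crit_iff h] at hcrit
    have hni : ¬ Iso (TM c.1) := not_iso_of_explicit (pr' c.1) (pD c.1) (pl c.1)
      (Nat.factorial_pos _) ((Nat.le_succ _).trans (Z_big _)) hcrit
    obtain ⟨k, hk⟩ := locfin.{0, 0} (TM c.1) hni
    obtain ⟨F, hF1, hF2⟩ := fb.{0, 0} (TM c.1) k
    refine hI (F : Set (FreeMonoid ℕ × FreeMonoid ℕ)) ?_ ?_ ⟨F, fun N _ => Iff.rfl⟩
    · intro p hp f hf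
      exact (hsat _ _).1 (hF1 p hp) f hf
    · intro N _ hN hfg
      refine hk N (hF2 N (fun p hp a => ?_)) hfg
      have := hN p hp a
      rwa [lift_val, lift_val] at this

theorem Q_iff (c : ℕ × List ℕ) : Q c ↔
    (c.2.length = c.1 * c.1 ∧ c.1 ≠ 0 ∧ (∀ x ∈ c.2, x < c.1) ∧
      (∀ a < c.1, ∀ b < c.1, ∀ d < c.1,
        c.2.getD ((c.2.getD (a * c.1 + b) 0) * c.1 + d) 0 =
          c.2.getD (a * c.1 + c.2.getD (b * c.1 + d) 0) 0) ∧
      ∃ e < c.1, (∀ a < c.1, c.2.getD (e * c.1 + a) 0 = a ∧ c.2.getD (a * c.1 + e) 0 = a) ∧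
        INFB c e) := by
  unfold Q
  constructor
  · rintro ⟨h1, h2, h3, h4, e, he, h5, h6⟩
    exact ⟨h1, h2, h3, h4, e, he, h5, (infb_iff ⟨h1, h3, h4, he, h5⟩).1 h6⟩
  · rintro ⟨h1, h2, h3, h4, e, he, h5, h6⟩
    exact ⟨h1, h2, h3, h4, e, he, h5, (infb_iff ⟨h1, h3, h4, he, h5⟩).2 h6⟩

end Pool.Agent.H43R2
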